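import Pool.Agent.Lib.MP_275d83_lc.Lim

/-! Growth exponents. -/

namespace Pool.Agent.Lib.MP_275d83_lc

open Filter Topology

namespace GrowthAux

theorem core {x y a b L E : ℝ} (hL : 0 < L) (hb : 2 ≤ b) (ha : 0 ≤ a) (hab : a ≤ b)
    (hx : |x - a * L| ≤ E) (hy1 : b * L - L ≤ y) (hy2 : y ≤ b * L) :
    |x / y - a / b| ≤ (E + L) * (2 / L) / b := by
  have hb0 : 0 < b := by linarith
  have hy : b * L / 2 ≤ y := by nlinarith
  have hbL : 0 < b * L / 2 := by positivity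
  have hy0 : 0 < y := hbL.trans_le hy
  have e : x / y - a / b = ((x - a * L) + a / b * (b * L - y)) / y := by
    field_simp
    ring
  have h1 : a / b ≤ 1 := (div_le_one hb0).2 hab
  have h2 : 0 ≤ a / b := div_nonneg ha hb0.le
  have h3 : a / b * (b * L - y) ≤ L := by nlinarith
  have h4 : 0 ≤ a / b * (b * L - y) := mul_nonneg h2 (by linarith)
  have h5 := abs_le.1 hx
  have h6 : |(x - a * L) + a / b * (b * L - y)| ≤ E + L := by
    rw [abs_le]
    constructor <;> linarith [h5.1, h5.2]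
  have h7 : 0 ≤ E + L := (abs_nonneg _).trans h6
  rw [e, abs_div, abs_of_pos hy0]
  calc _ ≤ (E + L) / (b * L / 2) := div_le_div₀ h7 h6 hbL hy
    _ = _ := by field_simp

theorem loglog_pow {m : ℕ} (hm : 0 < m) :
    Real.log (Real.log ((2 ^ m : ℕ) : ℝ)) = Real.log m + Real.log (Real.log 2) := by
  have hL : 0 < Real.log 2 := Real.log_pos one_lt_two
  push_cast
  rw [Real.log_pow, Real.log_mul (by positivity) hL.ne']

theorem loglog_mono {u v : ℕ} (hu : 2 ≤ u) (h : u ≤ v) :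
    Real.log (Real.log u) ≤ Real.log (Real.log v) := by
  have h1 : (1 : ℝ) < u := by exact_mod_cast hu
  exact Real.log_le_log (Real.log_pos h1) (Real.log_le_log (by linarith) (by exact_mod_cast h))

theorem est {f a b n C : ℕ} (hb : 2 ≤ b) (h1 : 2 ^ 2 ^ (a - C) ≤ f) (h2 : f ≤ 2 ^ (C * b * 2 ^ a))
    (h3 : 2 ^ b ≤ 2 * n) (h4 : n ≤ 2 ^ b) (h5 : a ≤ b) :
    |Real.log (Real.log f) / Real.log n - (a : ℝ) / b| ≤
      (C + |Real.log (Real.log 2)| + Real.log b + Real.log 2) * (2 / Real.log 2) / b := by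
  have hL : 0 < Real.log 2 := Real.log_pos one_lt_two
  have hL1 : Real.log 2 ≤ 1 := by
    have := Real.log_le_sub_one_of_pos (x := 2) two_pos
    linarith
  have hp : 0 < 2 ^ (a - C) := Nat.two_pow_pos _
  have h22 : 2 ≤ 2 ^ 2 ^ (a - C) := Nat.le_self_pow hp.ne' 2
  have hpos : 0 < C * b * 2 ^ a := by
    rcases Nat.eq_zero_or_pos (C * b * 2 ^ a) with h | h
    · rw [h] at h2
      omega
    · exact h
  have hC : 0 < C := Nat.pos_of_mul_pos_right (Nat.pos_of_mul_pos_right hpos)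
  have hn : 0 < n := by
    have := Nat.two_pow_pos b
    omega
  have l1 := loglog_mono h22 h1
  have l2 := loglog_mono (h22.trans h1) h2
  rw [loglog_pow hp] at l1
  rw [loglog_pow hpos] at l2
  have hbR : (2 : ℝ) ≤ b := by exact_mod_cast hb
  have hCR : (1 : ℝ) ≤ C := by exact_mod_cast hC
  have hsub : (a : ℝ) - C ≤ ((a - C : ℕ) : ℝ) := by
    have : a ≤ a - C + C := by omega
    have : (a : ℝ) ≤ ((a - C : ℕ) : ℝ) + C := by exact_mod_cast this
    linarith
  push_cast at l1 l2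
  rw [Real.log_pow] at l1
  rw [Real.log_mul (by positivity) (by positivity), Real.log_mul (by positivity) (by positivity),
    Real.log_pow] at l2
  have lC := Real.log_le_sub_one_of_pos (x := C) (by linarith)
  have lb : 0 ≤ Real.log b := Real.log_nonneg (by linarith)
  have a1 := le_abs_self (Real.log (Real.log 2))
  have a2 := neg_abs_le (Real.log (Real.log 2))
  refine core hL hbR (Nat.cast_nonneg _) (by exact_mod_cast h5) ?_ ?_ ?_
  · rw [abs_le]
    constructor <;> nlinarith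
  · have h6 : Real.log ((2 : ℝ) ^ b) ≤ Real.log (2 * n) :=
      Real.log_le_log (by positivity) (by exact_mod_cast h3)
    rw [Real.log_pow, Real.log_mul two_ne_zero (by positivity)] at h6
    linarith
  · have h6 : Real.log n ≤ Real.log ((2 : ℝ) ^ b) :=
      Real.log_le_log (by positivity) (by exact_mod_cast h4)
    rwa [Real.log_pow] at h6

end GrowthAux

open GrowthAux

theorem expo_sub_tendsto (f a b : ℕ → ℕ) (C : ℕ)
    (h : ∀ᶠ n in atTop, 2 ^ 2 ^ (a n - C) ≤ f n ∧ f n ≤ 2 ^ (C * b n * 2 ^ a n) ∧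
      2 ^ b n ≤ 2 * n ∧ n ≤ 2 ^ b n ∧ a n ≤ b n) :
    Tendsto (fun n => expo f n - (a n : ℝ) / (b n : ℝ)) atTop (𝓝 0) := by
  have hb : Tendsto b atTop atTop := by
    refine tendsto_atTop.2 fun N => ?_
    filter_upwards [h, eventually_ge_atTop (2 ^ N)] with n hn h1
    exact (Nat.pow_le_pow_iff_right one_lt_two).1 (h1.trans hn.2.2.2.1)
  have hg : Tendsto (fun x : ℝ => (C + |Real.log (Real.log 2)| + Real.log x + Real.log 2) *
      (2 / Real.log 2) / x) atTop (𝓝 0) := by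
    have t1 : Tendsto (fun x : ℝ => Real.log x / x) atTop (𝓝 0) :=
      Real.isLittleO_log_id_atTop.tendsto_div_nhds_zero
    have t2 : Tendsto (fun x : ℝ => (C + |Real.log (Real.log 2)| + Real.log 2) / x) atTop (𝓝 0) :=
      tendsto_const_nhds.div_atTop tendsto_id
    have t3 := (t1.add t2).mul_const (2 / Real.log 2)
    rw [add_zero, zero_mul] at t3
    refine t3.congr fun x => ?_
    ring
  refine squeeze_zero_norm' ?_ (hg.comp (tendsto_natCast_atTop_atTop.comp hb))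
  filter_upwards [h, hb.eventually_ge_atTop 2] with n hn h2
  exact est h2 hn.1 hn.2.1 hn.2.2.1 hn.2.2.2.1 hn.2.2.2.2

namespace GrowthAux

theorem map_clog : map (Nat.clog 2) atTop = atTop := by
  refine map_atTop_of_steps (fun s => ⟨Nat.clog_mono_right 2 (Nat.le_succ s), ?_⟩)
    fun K => ⟨2 ^ K, (Nat.clog_pow 2 K one_lt_two).ge⟩
  have h1 := Nat.le_pow_clog one_lt_two s
  have h2 := Nat.two_pow_pos (Nat.clog 2 s)
  rw [Nat.clog_le_iff_le_pow one_lt_two, pow_succ]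
  omega

theorem clog_two {n : ℕ} (hn : 2 ≤ n) : 2 ^ Nat.clog 2 n ≤ 2 * n := by
  have h1 := Nat.pow_pred_clog_lt_self one_lt_two hn
  have h2 : 2 ^ Nat.clog 2 n ≤ 2 ^ ((Nat.clog 2 n).pred + 1) :=
    Nat.pow_le_pow_right two_pos (by rw [Nat.pred_eq_sub_one]; omega)
  rw [pow_succ] at h2
  omega

theorem mul_pow_le (c s : ℕ) : c * 2 ^ s ≤ 2 ^ (c + s) := by
  rw [pow_add]
  exact Nat.mul_le_mul_right _ Nat.lt_two_pow_self.le

variable {D : ℕ → ℕ}

theorem D_mono (hstep : ∀ t, D t ≤ D (t + 1) ∧ D (t + 1) ≤ D t + 1) : Monotone D :=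
  monotone_nat_of_le_succ fun t => (hstep t).1

theorem D_add (hstep : ∀ t, D t ≤ D (t + 1) ∧ D (t + 1) ≤ D t + 1) (t k : ℕ) :
    D (t + k) ≤ D t + k := by
  induction k with
  | zero => exact le_rfl
  | succ k ih =>
    have := (hstep (t + k)).2
    rw [← add_assoc]
    omega

theorem sum_le (hm : Monotone D) (t : ℕ) : ∑ j ∈ Finset.range t, 2 ^ D j ≤ t * 2 ^ D t := by
  have := Finset.sum_le_card_nsmul (Finset.range t) (fun j => 2 ^ D j) (2 ^ D t) fun j hj =>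
    Nat.pow_le_pow_right two_pos (hm (Finset.mem_range.1 hj).le)
  simpa using this

theorem le_sum (hm : Monotone D) {K t : ℕ} (hK : K ≤ D t) (u : ℕ) :
    u * K ≤ ∑ j ∈ Finset.range (t + u), 2 ^ D j := by
  induction u with
  | zero => simp
  | succ u ih =>
    have h1 : D t ≤ D (t + u) := hm (Nat.le_add_right _ _)
    have h2 : D (t + u) < 2 ^ D (t + u) := Nat.lt_two_pow_self
    rw [← add_assoc, Finset.sum_range_succ, Nat.succ_mul]
    omega

theorem sum_le_pow (h : ∀ t, D t ≤ t) (t : ℕ) : ∑ j ∈ Finset.range t, 2 ^ D j ≤ 2 ^ t := by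
  induction t with
  | zero => simp
  | succ t ih =>
    have := Nat.pow_le_pow_right two_pos (h t)
    rw [Finset.sum_range_succ, pow_succ]
    omega

theorem sum_small (h : ∀ t, D t ≤ t) {K j : ℕ} (hj : ∀ t, j ≤ t → D t + K ≤ t) (t : ℕ) :
    (∑ i ∈ Finset.range t, 2 ^ D i) * 2 ^ K ≤ 2 ^ j * 2 ^ K + 2 ^ t := by
  induction t with
  | zero => simp
  | succ t ih =>
    by_cases ht : j ≤ t
    · have h1 := Nat.pow_le_pow_right two_pos (hj t ht)
      rw [pow_add] at h1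
      rw [Finset.sum_range_succ, add_mul, pow_succ]
      omega
    · have h1 := (sum_le_pow h (t + 1)).trans (Nat.pow_le_pow_right two_pos (show t + 1 ≤ j by omega))
      exact (Nat.mul_le_mul_right _ h1).trans (Nat.le_add_right _ _)

theorem superpoly {f : ℕ → ℕ} {c : ℕ} (hm : Monotone D) (hD : ∀ K, ∃ t, K ≤ D t)
    (lo : ∀ t n, c * 2 ^ t ≤ n → 2 ^ (∑ j ∈ Finset.range t, 2 ^ D j) ≤ f n) (k : ℕ) :
    ¬ Asymptotics.IsBigO atTop (fun n : ℕ => (f n : ℝ)) fun n : ℕ => (n : ℝ) ^ k := by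
  intro h
  obtain ⟨A, hA⟩ := h.bound
  obtain ⟨N, hN⟩ := eventually_atTop.1 hA
  obtain ⟨t, ht⟩ := hD (k + 1)
  obtain ⟨B, hB⟩ := exists_nat_ge A
  obtain ⟨u, hu⟩ : ∃ u, u = N + B * 2 ^ ((c + t) * k) := ⟨_, rfl⟩
  have h1 : N ≤ 2 ^ (c + (t + u)) := by
    have : c + (t + u) < 2 ^ (c + (t + u)) := Nat.lt_two_pow_self
    omega
  have h2 := hN _ h1
  rw [Real.norm_natCast, Real.norm_of_nonneg (by positivity)] at h2
  have h3 : f (2 ^ (c + (t + u))) ≤ B * (2 ^ (c + (t + u))) ^ k := by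
    have := h2.trans (mul_le_mul_of_nonneg_right hB (by positivity))
    exact_mod_cast this
  have h4 := (Nat.pow_le_pow_right two_pos (le_sum hm ht u)).trans
    ((lo (t + u) _ (mul_pow_le c (t + u))).trans h3)
  have e1 : 2 ^ (u * (k + 1)) = 2 ^ u * 2 ^ (u * k) := by ring
  have e2 : B * (2 ^ (c + (t + u))) ^ k = B * 2 ^ ((c + t) * k) * 2 ^ (u * k) := by ring
  rw [e1, e2] at h4
  have h5 := Nat.le_of_mul_le_mul_right h4 (Nat.two_pow_pos _)
  have h6 : u < 2 ^ u := Nat.lt_two_pow_self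
  omega

theorem subexp {f : ℕ → ℕ} {c : ℕ} (h : ∀ t, D t ≤ t) (hD : ∀ K, ∃ j, ∀ t, j ≤ t → D t + K ≤ t)
    (up : ∀ t n, n ≤ 2 ^ t → f n ≤ c * (n + 1) ^ 2 + c * 2 ^ (∑ j ∈ Finset.range t, 2 ^ D j))
    (r : ℝ) (hr : 1 < r) : ∀ᶠ n : ℕ in atTop, (f n : ℝ) < r ^ n := by
  obtain ⟨ρ, h1, h2⟩ := exists_between hr
  obtain ⟨K, hK⟩ := pow_unbounded_of_one_lt (4 : ℝ) h1
  have hK' : (4 : ℝ) ≤ ρ ^ 2 ^ K := hK.le.trans (pow_le_pow_right₀ h1.le Nat.lt_two_pow_self.le)
  obtain ⟨j, hj⟩ := hD K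
  have hr0 : 0 < r := by linarith
  have hρ0 : 0 < ρ := by linarith
  have t1 := (tendsto_pow_const_div_const_pow_of_one_lt 2 hr).const_mul (4 * c : ℝ)
  have t2 := (tendsto_pow_atTop_nhds_zero_of_lt_one (r := ρ / r) (by positivity)
    ((div_lt_one hr0).2 h2)).const_mul (c * 2 ^ 2 ^ j : ℝ)
  have t3 := t1.add t2
  rw [mul_zero, mul_zero, add_zero] at t3
  filter_upwards [t3.eventually_lt_const one_pos, eventually_ge_atTop 2] with n hn hn2
  have e1 := up _ n (Nat.le_pow_clog one_lt_two n)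
  have e2 := (sum_small h hj (Nat.clog 2 n)).trans (Nat.add_le_add_left (clog_two hn2) _)
  generalize ∑ i ∈ Finset.range (Nat.clog 2 n), 2 ^ D i = M at e1 e2
  have e3 : (2 : ℝ) ^ M ≤ 2 ^ 2 ^ j * ρ ^ n := by
    refine le_of_pow_le_pow_left₀ (Nat.two_pow_pos K).ne' (by positivity) ?_
    calc ((2 : ℝ) ^ M) ^ 2 ^ K = 2 ^ (M * 2 ^ K) := by rw [pow_mul]
      _ ≤ 2 ^ (2 ^ j * 2 ^ K + 2 * n) := pow_le_pow_right₀ one_le_two e2
      _ = (2 ^ 2 ^ j) ^ 2 ^ K * 4 ^ n := by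
        rw [pow_add, pow_mul, pow_mul]
        norm_num
      _ ≤ (2 ^ 2 ^ j) ^ 2 ^ K * (ρ ^ 2 ^ K) ^ n := by gcongr
      _ = _ := by rw [mul_pow, ← pow_mul ρ, ← pow_mul ρ, mul_comm n]
  have e4 : (f n : ℝ) ≤ c * (n + 1) ^ 2 + c * 2 ^ M := by exact_mod_cast e1
  have e5 : (2 : ℝ) ≤ n := by exact_mod_cast hn2
  have e6 : ((n : ℝ) + 1) ^ 2 ≤ 4 * n ^ 2 := by nlinarith
  have e7 : (0 : ℝ) < r ^ n := by positivity
  rw [div_pow, ← mul_div_assoc, ← mul_div_assoc, ← add_div, div_lt_one e7] at hn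
  have e8 := mul_le_mul_of_nonneg_left e3 (Nat.cast_nonneg (α := ℝ) c)
  have e9 := mul_le_mul_of_nonneg_left e6 (Nat.cast_nonneg (α := ℝ) c)
  linarith

theorem upper {c n t W M : ℕ} (ht : 1 ≤ t) (hn : n ≤ 2 ^ t) (hW : t ≤ W) (hM : M ≤ W) :
    c * (n + 1) ^ 2 + c * 2 ^ M ≤ 2 ^ ((c + 5) * W) := by
  have h1 : n + 1 ≤ 2 ^ (t + 1) := by
    have := Nat.two_pow_pos t
    rw [pow_succ]
    omega
  have h2 : c * (n + 1) ^ 2 ≤ 2 ^ ((c + 4) * W) :=
    calc c * (n + 1) ^ 2 ≤ c * (2 ^ (t + 1)) ^ 2 := by gcongr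
      _ = c * 2 ^ ((t + 1) * 2) := by rw [← pow_mul]
      _ ≤ 2 ^ (c + (t + 1) * 2) := mul_pow_le _ _
      _ ≤ _ := Nat.pow_le_pow_right two_pos (by nlinarith)
  have h3 : c * 2 ^ M ≤ 2 ^ ((c + 4) * W) :=
    (mul_pow_le _ _).trans (Nat.pow_le_pow_right two_pos (by nlinarith))
  have h4 : 2 ^ ((c + 4) * W + 1) ≤ 2 ^ ((c + 5) * W) :=
    Nat.pow_le_pow_right two_pos (by nlinarith)
  rw [pow_succ] at h4
  omega

theorem ratio {p q : ℕ} (h : p ≤ q) : 0 ≤ (p : ℝ) / q ∧ (p : ℝ) / q ≤ 1 :=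
  ⟨by positivity, div_le_one_of_le₀ (by exact_mod_cast h) (Nat.cast_nonneg _)⟩

theorem prim_log : Primrec (Nat.log 2) := by
  have h1 : Primrec₂ fun a b : ℕ => a ^ b := Primrec₂.unpaired'.1 Nat.Primrec.pow
  have h2 : PrimrecRel fun n k : ℕ => 2 ^ k ≤ n :=
    Primrec.nat_le.comp₂ (h1.comp₂ (Primrec₂.const 2) Primrec₂.right) Primrec₂.left
  refine (Primrec.nat_findGreatest Primrec.id h2).of_eq fun n => ?_
  rcases Nat.eq_zero_or_pos n with rfl | hn
  · simp
  · refine Nat.findGreatest_eq_iff.2 ⟨Nat.log_le_self 2 n,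
      fun _ => Nat.pow_log_le_self 2 hn.ne', fun k hk _ h => ?_⟩
    exact absurd ((Nat.le_log_iff_pow_le one_lt_two hn.ne').2 h) (by omega)

end GrowthAux

theorem growth (f D : ℕ → ℕ) (c : ℕ) (h0 : D 0 = 0)
    (hstep : ∀ t, D t ≤ D (t + 1) ∧ D (t + 1) ≤ D t + 1)
    (hD : ∀ K, ∃ t, K ≤ D t) (hD' : ∀ K, ∃ t, D t + K ≤ t)
    (lo : ∀ t n, c * 2 ^ t ≤ n → 2 ^ (∑ j ∈ Finset.range t, 2 ^ D j) ≤ f n)
    (up : ∀ t n, n ≤ 2 ^ t →
      f n ≤ c * (n + 1) ^ 2 + c * 2 ^ (∑ j ∈ Finset.range t, 2 ^ D j)) :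
    Intermediate f ∧
      liminf (expo f) atTop = liminf (fun t => (D t : ℝ) / (t : ℝ)) atTop ∧
      limsup (expo f) atTop = limsup (fun t => (D t : ℝ) / (t : ℝ)) atTop := by
  have hm := D_mono hstep
  have hle : ∀ t, D t ≤ t := fun t => by simpa [h0] using D_add hstep 0 t
  refine ⟨⟨superpoly hm hD lo, subexp hle (fun K => ?_) up⟩, ?_⟩
  · obtain ⟨j, hj⟩ := hD' K
    refine ⟨j, fun t ht => ?_⟩
    obtain ⟨k, rfl⟩ := Nat.exists_eq_add_of_le ht
    have := D_add hstep j k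
    omega
  have hc : Tendsto (Nat.clog 2) atTop atTop := map_clog.le
  have key := expo_sub_tendsto f (fun n => D (Nat.clog 2 n)) (Nat.clog 2) (c + 5) (by
    filter_upwards [hc.eventually_ge_atTop (c + 2), eventually_ge_atTop 2] with n h1 h2
    have h3 := Nat.le_pow_clog one_lt_two n
    have h4 := clog_two h2
    generalize Nat.clog 2 n = t at h1 h3 h4
    refine ⟨?_, ?_, h4, h3, hle t⟩
    · obtain ⟨s, rfl⟩ := Nat.exists_eq_add_of_le' h1
      have h5 := mul_pow_le c (s + 1)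
      rw [show s + (c + 2) = c + (s + 1) + 1 by ring, pow_succ] at h4
      refine le_trans (Nat.pow_le_pow_right two_pos ?_) (lo (s + 1) n (by omega))
      have h6 := D_add hstep s (c + 2)
      rw [Finset.sum_range_succ]
      exact (Nat.pow_le_pow_right two_pos (by omega)).trans (Nat.le_add_left _ _)
    · rw [mul_assoc]
      exact (up t n h3).trans (upper (by omega) h3
        (Nat.le_mul_of_pos_right _ (Nat.two_pow_pos _)) (sum_le hm t)))
  have h1 := lims_eq_of_sub (fun n => ratio (hle (Nat.clog 2 n))) key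
  have h2 := lims_comp map_clog fun t => (D t : ℝ) / (t : ℝ)
  exact ⟨h1.1.trans h2.1, h1.2.trans h2.2⟩

theorem conv (f : ℕ → ℕ) (hc : Computable f) (hm : Monotone f) (hI : Intermediate f) :
    ∃ p q : ℕ → ℕ, Computable p ∧ Computable q ∧ (∀ s, p s ≤ q s ∧ 0 < q s) ∧
      liminf (fun s => (p s : ℝ) / (q s : ℝ)) atTop = liminf (expo f) atTop ∧
      limsup (fun s => (p s : ℝ) / (q s : ℝ)) atTop = limsup (expo f) atTop := by
  have hq : Computable fun n => Nat.log 2 n + 1 := (Primrec.succ.comp prim_log).to_comp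
  have hp : Computable fun n => min (Nat.log 2 (Nat.log 2 (f n))) (Nat.log 2 n + 1) :=
    Primrec.nat_min.to_comp.comp ((prim_log.comp prim_log).to_comp.comp hc) hq
  have h2 : ∀ᶠ n in atTop, 2 ≤ f n := by
    by_contra h
    refine hI.1 0 (Asymptotics.IsBigO.of_bound 2 (Eventually.of_forall fun n => ?_))
    have h3 : f n ≤ 2 := by
      by_contra h4
      exact h (eventually_atTop.2 ⟨n, fun k hk => (not_le.1 h4).le.trans (hm hk)⟩)
    simpa using (by exact_mod_cast h3 : (f n : ℝ) ≤ 2)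
  have key := expo_sub_tendsto f (fun n => min (Nat.log 2 (Nat.log 2 (f n))) (Nat.log 2 n + 1))
    (fun n => Nat.log 2 n + 1) 2 (by
    filter_upwards [h2, hI.2 2 one_lt_two, eventually_ge_atTop 1] with n h3 h4 h5
    have h6 : f n < 2 ^ n := by exact_mod_cast h4
    have h7 : n < 2 ^ (Nat.log 2 n + 1) := Nat.lt_pow_succ_log_self one_lt_two n
    have h8 : 1 ≤ Nat.log 2 (f n) := (Nat.le_log_iff_pow_le one_lt_two (by omega)).2 h3
    refine ⟨?_, ?_, ?_, h7.le, min_le_right _ _⟩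
    · refine le_trans (Nat.pow_le_pow_right two_pos ?_) (Nat.pow_log_le_self 2 (by omega))
      refine le_trans (Nat.pow_le_pow_right two_pos ?_) (Nat.pow_log_le_self 2 (by omega))
      omega
    · rcases le_total (Nat.log 2 (Nat.log 2 (f n))) (Nat.log 2 n + 1) with h | h
      · rw [min_eq_left h]
        have e1 : f n < 2 ^ (Nat.log 2 (f n) + 1) := Nat.lt_pow_succ_log_self one_lt_two _
        have e2 : Nat.log 2 (f n) < 2 ^ (Nat.log 2 (Nat.log 2 (f n)) + 1) :=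
          Nat.lt_pow_succ_log_self one_lt_two _
        refine e1.le.trans (Nat.pow_le_pow_right two_pos ?_)
        rw [pow_succ] at e2
        nlinarith [Nat.zero_le (Nat.log 2 n * 2 ^ Nat.log 2 (Nat.log 2 (f n)))]
      · rw [min_eq_right h]
        refine h6.le.trans (Nat.pow_le_pow_right two_pos (h7.le.trans ?_))
        exact Nat.le_mul_of_pos_left _ (by omega)
    · rw [pow_succ, mul_comm]
      exact Nat.mul_le_mul_left 2 (Nat.pow_log_le_self 2 (by omega)))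
  have h1 := lims_eq_of_sub (fun n => ratio (min_le_right _ _)) key
  exact ⟨_, _, hp, hq, fun s => ⟨min_le_right _ _, Nat.succ_pos _⟩, h1.1.symm, h1.2.symm⟩

end Pool.Agent.Lib.MP_275d83_lc
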