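import Pool.Agent.Lib.MP_275d83_lc.Defs
import Pool.Agent.Lib.MP_a569f2_lc.CF

/-! Paths, cycles and the basic estimates for the rational index. -/

namespace Pool.Agent.Lib.MP_275d83_lc

open Pool.Agent.Lib.MP_a569f2_lc

section paths
variable {S Δ : Type} {E : S → Δ → S → Prop}

theorem path_map {S' Δ' : Type} {E' : S' → Δ' → S' → Prop} (f : S → S') (g : Δ → Δ')
    (h : ∀ s a t, E s a t → E' (f s) (g a) (f t)) {s t : S} {l : List Δ} (hp : Path E s l t) :
    Path E' (f s) (l.map g) (f t) := by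
  induction hp with
  | nil s => exact Path.nil _
  | cons h1 _ ih => exact Path.cons (h _ _ _ h1) ih

theorem path_map_state {S' : Type} {E' : S' → Δ → S' → Prop} (f : S → S')
    (h : ∀ s a t, E s a t → E' (f s) a (f t)) {s t : S} {l : List Δ} (hp : Path E s l t) :
    Path E' (f s) l (f t) := by
  simpa using path_map f id h hp

theorem path_of_state {S' : Type} {E' : S' → Δ → S' → Prop} (f : S → S')
    (h : ∀ s a t', E' (f s) a t' → ∃ t, t' = f t ∧ E s a t) {l : List Δ} :
    ∀ {s : S} {t' : S'}, Path E' (f s) l t' → ∃ t, t' = f t ∧ Path E s l t := by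
  induction l with
  | nil => intro s t' hp; exact ⟨s, (path_nil_iff.1 hp).symm, Path.nil _⟩
  | cons a l ih =>
    intro s t' hp
    obtain ⟨r', h1, h2⟩ := path_cons_iff.1 hp
    obtain ⟨r, rfl, h3⟩ := h _ _ _ h1
    obtain ⟨t, rfl, h4⟩ := ih h2
    exact ⟨t, rfl, Path.cons h3 h4⟩

theorem path_append {s r t : S} {u v : List Δ} (h1 : Path E s u r) (h2 : Path E r v t) :
    Path E s (u ++ v) t := path_append_iff.2 ⟨r, h1, h2⟩

theorem path_pow {r : S} {c : List Δ} (h : Path E r c r) (k : ℕ) :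
    Path E r (List.replicate k c).flatten r := by
  induction k with
  | zero => exact Path.nil _
  | succ k ih => simpa [List.replicate_succ] using path_append h ih

theorem path_cycle_aux [Fintype S] [DecidableEq S] {l : List Δ} :
    ∀ {s t : S} (U : Finset S), Path E s l t → Fintype.card S ≤ l.length + U.card →
      (∃ l₁ l₂, ∃ r ∈ U, l = l₁ ++ l₂ ∧ l₁.length + U.card ≤ Fintype.card S ∧
        Path E s l₁ r ∧ Path E r l₂ t) ∨
      ∃ l₁ c l₂ r, l = l₁ ++ c ++ l₂ ∧ c ≠ [] ∧ (l₁ ++ c).length + U.card ≤ Fintype.card S ∧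
        Path E s l₁ r ∧ Path E r c r ∧ Path E r l₂ t := by
  induction l with
  | nil =>
    intro s t U hp hc
    have hU : U = Finset.univ := Finset.eq_univ_of_card U
      (le_antisymm (Finset.card_le_univ U) (by simpa using hc))
    exact Or.inl ⟨[], [], s, by simp [hU], rfl, by simpa using Finset.card_le_univ U,
      Path.nil _, hp⟩
  | cons a l ih =>
    intro s t U hp hc
    by_cases hs : s ∈ U
    · exact Or.inl ⟨[], _, s, hs, rfl, by simpa using Finset.card_le_univ U, Path.nil _, hp⟩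
    obtain ⟨s', h1, h2⟩ := path_cons_iff.1 hp
    have hcard : (insert s U).card = U.card + 1 := Finset.card_insert_of_notMem hs
    rcases ih (insert s U) h2 (by simp only [List.length_cons] at hc; omega) with
      ⟨l₁, l₂, r, hr, rfl, h3, h4, h5⟩ | ⟨l₁, c, l₂, r, rfl, h3, h4, h5, h6, h7⟩
    · rcases Finset.mem_insert.1 hr with rfl | hr
      · exact Or.inr ⟨[], a :: l₁, l₂, r, by simp, by simp, by simp; omega, Path.nil _,
          Path.cons h1 h4, h5⟩
      · exact Or.inl ⟨a :: l₁, l₂, r, hr, by simp, by simp; omega, Path.cons h1 h4, h5⟩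
    · refine Or.inr ⟨a :: l₁, c, l₂, r, by simp, h3, ?_, Path.cons h1 h5, h6, h7⟩
      simp only [List.length_append, List.length_cons] at h4 ⊢
      omega

theorem path_cycle [Fintype S] {l : List Δ} {s t : S} (hp : Path E s l t)
    (hl : Fintype.card S ≤ l.length) :
    ∃ l₁ c l₂ r, l = l₁ ++ c ++ l₂ ∧ c ≠ [] ∧ (l₁ ++ c).length ≤ Fintype.card S ∧
      Path E s l₁ r ∧ Path E r c r ∧ Path E r l₂ t := by
  classical
  rcases path_cycle_aux ∅ hp (by simpa using hl) with ⟨_, _, r, hr, _⟩ | h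
  · simp at hr
  · simpa using h

theorem path_short [Fintype S] {l : List Δ} {s t : S} (hp : Path E s l t) :
    ∃ l', Path E s l' t ∧ l'.length ≤ Fintype.card S := by
  induction hn : l.length using Nat.strong_induction_on generalizing l with
  | _ n ih =>
    by_cases hl : Fintype.card S ≤ l.length
    · obtain ⟨l₁, c, l₂, r, rfl, h1, -, h3, -, h5⟩ := path_cycle hp hl
      refine ih _ ?_ (path_append h3 h5) rfl
      have := List.length_pos_of_ne_nil h1
      simp only [List.length_append] at hn ⊢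
      omega
    · exact ⟨l, hp, by omega⟩

end paths

section idx
variable {X : Type} {L : Language X}

theorem accepts_iff {Q : Type} (A : NFA X Q) (w : List X) :
    w ∈ A.accepts ↔ ∃ s ∈ A.start, ∃ t ∈ A.accept, Path (fun p a q => q ∈ A.step p a) s w t := by
  have key : ∀ (w : List X) (U : Set Q) (t : Q), t ∈ A.evalFrom U w ↔
      ∃ s ∈ U, Path (fun p a q => q ∈ A.step p a) s w t := by
    intro w
    induction w with
    | nil => intro U t; simp [path_nil_iff]
    | cons a w ih =>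
      intro U t
      rw [NFA.evalFrom_cons, ih]
      simp only [NFA.mem_stepSet, path_cons_iff]
      constructor
      · rintro ⟨s', ⟨s, h1, h2⟩, h3⟩; exact ⟨s, h1, s', h2, h3⟩
      · rintro ⟨s, h1, s', h2, h3⟩; exact ⟨s', ⟨s, h1, h2⟩, h3⟩
  rw [NFA.mem_accepts]
  constructor
  · rintro ⟨t, ht, h⟩
    obtain ⟨s, hs, hp⟩ := (key w _ t).1 h
    exact ⟨s, hs, t, ht, hp⟩
  · rintro ⟨s, hs, t, ht, hp⟩
    exact ⟨t, ht, (key w _ t).2 ⟨s, hs, hp⟩⟩

theorem index_le {n M : ℕ}
    (h : ∀ (E : Fin n → X → Fin n → Prop) (s t : Fin n) (w : List X), w ∈ L → Path E s w t →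
      ∃ w' ∈ L, Path E s w' t ∧ w'.length ≤ M) : index L n ≤ M := by
  refine csSup_le' ?_
  rintro _ ⟨A, rfl⟩
  by_cases hne : ∃ w ∈ L, w ∈ A.accepts
  · obtain ⟨w, hw, hA⟩ := hne
    obtain ⟨s, hs, t, ht, hp⟩ := (accepts_iff A w).1 hA
    obtain ⟨w', hw', hp', hl⟩ := h _ s t w hw hp
    have : w'.length ∈ {k | ∃ w ∈ L, w ∈ A.accepts ∧ w.length = k} :=
      ⟨w', hw', (accepts_iff A w').2 ⟨s, hs, t, ht, hp'⟩, rfl⟩
    exact (Nat.sInf_le this).trans hl
  · have : {k | ∃ w ∈ L, w ∈ A.accepts ∧ w.length = k} = ∅ := by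
      ext k
      simp only [Set.mem_ofPred_eq, Set.mem_empty_iff_false, iff_false]
      rintro ⟨w, h1, h2, -⟩
      exact hne ⟨w, h1, h2⟩
    simp [shortest, this]

theorem finite_nfa [Finite X] (n : ℕ) : Finite (NFA X (Fin n)) :=
  Finite.of_injective (fun A : NFA X (Fin n) => (A.step, A.start, A.accept)) (by
    rintro ⟨a, b, c⟩ ⟨a', b', c'⟩ h
    simp only [Prod.mk.injEq] at h
    obtain ⟨rfl, rfl, rfl⟩ := h
    rfl)

theorem le_index [Finite X] {Q : Type} [Fintype Q] (E : Q → X → Q → Prop) (s t : Q) {n m : ℕ}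
    (hn : Fintype.card Q ≤ n) (hex : ∃ w ∈ L, Path E s w t)
    (hm : ∀ w ∈ L, Path E s w t → m ≤ w.length) : m ≤ index L n := by
  obtain ⟨f⟩ : Nonempty (Q ↪ Fin n) := Function.Embedding.nonempty_of_card_le (by simpa using hn)
  let A : NFA X (Fin n) := ⟨fun p a => {q | ∃ x y, p = f x ∧ q = f y ∧ E x a y}, {f s}, {f t}⟩
  have hA : ∀ w, w ∈ A.accepts ↔ Path E s w t := by
    intro w
    rw [accepts_iff]
    constructor
    · rintro ⟨_, rfl, _, rfl, hp⟩
      obtain ⟨t', h1, h2⟩ := path_of_state (E := E) f (by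
        rintro x a _ ⟨x', y, h1, rfl, h3⟩
        exact ⟨y, rfl, f.injective h1 ▸ h3⟩) hp
      exact f.injective h1 ▸ h2
    · intro hp
      exact ⟨_, rfl, _, rfl, path_map_state f (fun x a y h => ⟨x, y, rfl, rfl, h⟩) hp⟩
  have := finite_nfa (X := X) n
  refine le_trans ?_ (le_csSup (Set.finite_range _).bddAbove ⟨A, rfl⟩)
  obtain ⟨w, hw, hp⟩ := hex
  obtain ⟨w', h1, h2, h3⟩ := Nat.sInf_mem
    (⟨_, w, hw, (hA w).2 hp, rfl⟩ : {k | ∃ w ∈ L, w ∈ A.accepts ∧ w.length = k}.Nonempty)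
  exact (hm w' h1 ((hA w').1 h2)).trans h3.le

/-- The index is attained by a one-source one-target automaton. -/
theorem index_spec [Finite X] (L : Language X) (n : ℕ) :
    index L n = 0 ∨ ∃ (E : Fin n → X → Fin n → Prop) (s t : Fin n),
      (∃ w ∈ L, Path E s w t ∧ w.length = index L n) ∧
        ∀ w ∈ L, Path E s w t → index L n ≤ w.length := by
  by_contra hcon
  push Not at hcon
  obtain ⟨h0, h⟩ := hcon
  have : index L n ≤ index L n - 1 := by
    refine index_le fun E s t w hw hp => ?_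
    have hne : {k | ∃ w ∈ L, Path E s w t ∧ w.length = k}.Nonempty := ⟨_, w, hw, hp, rfl⟩
    obtain ⟨w', h1, h2, h3⟩ := Nat.sInf_mem hne
    refine ⟨w', h1, h2, ?_⟩
    have hmin : ∀ v ∈ L, Path E s v t → w'.length ≤ v.length := fun v hv hp' =>
      h3 ▸ Nat.sInf_le ⟨v, hv, hp', rfl⟩
    have h4 : w'.length ≤ index L n := le_index E s t (by simp) ⟨w, hw, hp⟩ hmin
    rcases h4.eq_or_lt with h5 | h5
    · obtain ⟨v, hv, hp', h6⟩ := h E s t ⟨w', h1, h2, h5⟩
      have := hmin v hv hp'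
      omega
    · omega
  omega

theorem index_mono [Finite X] (L : Language X) : Monotone (index L) := by
  intro n m hnm
  rcases index_spec L n with h | ⟨E, s, t, ⟨w, h1, h2, -⟩, h3⟩
  · omega
  · exact le_index E s t (by simpa using hnm) ⟨w, h1, h2⟩ h3

end idx

end Pool.Agent.Lib.MP_275d83_lc
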