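import Pool.Agent.Lib.MP_275d83_lc.Basic

/-! The rational index of a context-free language is a computable function. -/

namespace Pool.Agent.Lib.MP_275d83_lc

open Pool.Agent.Lib.MP_a569f2_lc

namespace CompIdx

/-- A binary system for a Greibach language: empty-word states and sound binary rules. -/
theorem exists_bin {Δ : Type} {K : Set (List Δ)} (hK : IsGS K) :
    ∃ (S : Type) (_ : Finite S) (Lang : S → Set (List Δ)) (s₀ : S), Lang s₀ = K ∧
      ∀ s a w, a :: w ∈ Lang s → ∃ s₁ s₂ u v, w = u ++ v ∧ u ∈ Lang s₁ ∧ v ∈ Lang s₂ ∧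
        ∀ u' ∈ Lang s₁, ∀ v' ∈ Lang s₂, a :: (u' ++ v') ∈ Lang s := by
  obtain ⟨G, A₀, rfl⟩ := hK
  have := G.fin
  refine ⟨{γ : List G.Γ // γ.length ≤ G.m + 1}, (List.finite_length_le G.Γ (G.m + 1)).to_subtype,
    fun γ => Prd G.Lang γ.1, ⟨[A₀], by simp⟩, ?_, ?_⟩
  · ext w
    exact mem_prd_single
  · rintro ⟨γ, hγ⟩ a w hw
    simp only at hw ⊢
    induction γ with
    | nil => simp at hw
    | cons B γ ih =>
      obtain ⟨u, v, hu, hv, e⟩ := hw
      have hγ' : γ.length ≤ G.m + 1 := by simp only [List.length_cons] at hγ; omega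
      cases u with
      | nil =>
        simp only [List.nil_append] at e
        subst e
        obtain ⟨s₁, s₂, u, v, e1, e2, e3, e4⟩ := ih hγ' hv
        exact ⟨s₁, s₂, u, v, e1, e2, e3, fun u' hu' v' hv' => ⟨[], _, hu, e4 u' hu' v' hv', rfl⟩⟩
      | cons b u =>
        simp only [List.cons_append, List.cons.injEq] at e
        obtain ⟨rfl, rfl⟩ := e
        obtain ⟨γ', h1, h2, h3⟩ := G.step B a u hu
        exact ⟨⟨γ', by omega⟩, ⟨γ, hγ'⟩, u, v, rfl, h2, hv,
          fun u' hu' v' hv' => ⟨a :: u', v', h3 u' hu', hv', rfl⟩⟩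

section prim
variable {α β : Type} [Primcodable α] [Primcodable β]

theorem pex {f : α → List β} {R : α → β → Prop} (hf : Primrec f)
    (hR : PrimrecPred fun x : α × β => R x.1 x.2) : PrimrecPred fun a => ∃ b ∈ f a, R a b :=
  PrimrecRel.comp (PrimrecRel.exists_mem_list (R := fun b a => R a b)
    (hR.comp (Primrec.snd.pair Primrec.fst))) hf Primrec.id

theorem pall {f : α → List β} {R : α → β → Prop} (hf : Primrec f)
    (hR : PrimrecPred fun x : α × β => R x.1 x.2) : PrimrecPred fun a => ∀ b ∈ f a, R a b :=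
  PrimrecRel.comp (PrimrecRel.forall_mem_list (R := fun b a => R a b)
    (hR.comp (Primrec.snd.pair Primrec.fst))) hf Primrec.id

theorem pimp {p q : α → Prop} (hp : PrimrecPred p) (hq : PrimrecPred q) :
    PrimrecPred fun a => p a → q a :=
  (hp.not.or hq).of_eq fun _ => imp_iff_not_or.symm

theorem prim_sublists : Primrec (List.sublists' : List α → List (List α)) := by
  have h : Primrec fun l : List α =>
      l.foldr (fun a acc => acc ++ acc.map (List.cons a)) ([[]] : List (List α)) :=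
    Primrec.list_foldr (h := fun (_ : List α) (x : α × List (List α)) =>
        x.2 ++ x.2.map (List.cons x.1)) Primrec.id (Primrec.const _)
      (Primrec.list_append.comp (Primrec.snd.comp Primrec.snd)
        (Primrec.list_map (Primrec.snd.comp Primrec.snd)
          (Primrec.list_cons.comp (Primrec.fst.comp (Primrec.snd.comp Primrec.fst))
            Primrec.snd).to₂)).to₂
  refine h.of_eq fun l => ?_
  induction l with
  | nil => rfl
  | cons a l ih => rw [List.foldr_cons, ih, List.sublists'_cons]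

/-- A function whose graph has primitive recursive certificates is computable. -/
theorem computable_of_cert {f : ℕ → ℕ} {P : ℕ × ℕ × α → Prop} (hP : PrimrecPred P)
    (h1 : ∀ n, ∃ c, P (n, f n, c)) (h2 : ∀ n k c, P (n, k, c) → k = f n) : Computable f := by
  classical
  let g : ℕ → ℕ → Option ℕ := fun n m =>
    (Encodable.decode (α := ℕ × α) m).bind fun x => if P (n, x) then some x.1 else none
  have hg : Primrec₂ g :=
    (Primrec.option_bind (Primrec.decode.comp Primrec.snd)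
      (Primrec.ite (hP.comp ((Primrec.fst.comp Primrec.fst).pair Primrec.snd))
        (Primrec.option_some.comp (Primrec.fst.comp Primrec.snd)) (Primrec.const none)).to₂).to₂
  refine (Partrec.rfindOpt hg.to_comp).of_eq_tot fun n => ?_
  have hd : (Nat.rfindOpt (g n)).Dom := by
    obtain ⟨c, hc⟩ := h1 n
    exact Nat.rfindOpt_dom.2 ⟨Encodable.encode (f n, c), f n, by simp [g, hc]⟩
  obtain ⟨m, hm⟩ := Nat.rfindOpt_spec (Part.get_mem hd)
  simp only [g, Option.mem_def, Option.bind_eq_some_iff] at hm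
  obtain ⟨⟨k, c⟩, -, hx⟩ := hm
  split_ifs at hx with h
  simp only [Option.some.injEq] at hx
  rw [← h2 n k c h, hx]
  exact Part.get_mem hd

end prim

section defs
variable {X S : Type}

/-- All automata on the states `0, …, n-1`, as lists of edges. -/
def auts (al : List X) (n : ℕ) : List (List (ℕ × X × ℕ)) :=
  ((List.range n).flatMap fun p => al.flatMap fun a =>
    (List.range n).map fun q => (p, a, q)).sublists'

theorem auts_lt {al : List X} {n : ℕ} {E : List (ℕ × X × ℕ)} (h : E ∈ auts al n) :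
    ∀ e ∈ E, e.1 < n ∧ e.2.2 < n := by
  intro e he
  have := (List.mem_sublists'.1 h).subset he
  simp only [List.mem_flatMap, List.mem_range, List.mem_map] at this
  obtain ⟨p, hp, a, -, q, hq, rfl⟩ := this
  exact ⟨hp, hq⟩

theorem auts_ex {al : List X} (hal : ∀ a, a ∈ al) (n : ℕ) (P : ℕ × X × ℕ → Prop) :
    ∃ E ∈ auts al n, ∀ e, e ∈ E ↔ (e.1 < n ∧ e.2.2 < n) ∧ P e := by
  classical
  refine ⟨List.filter (fun e => P e) _, List.mem_sublists'.2 List.filter_sublist, ?_⟩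
  rintro ⟨p, a, q⟩
  simp [hal]

/-- A fact: automaton, state of the system, source, target, and a length. -/
abbrev Fact (X S : Type) := (List (ℕ × X × ℕ) × S × ℕ × ℕ) × ℕ

/-- The facts obtained in one step from the empty word or from two facts of `C`. -/
def next (al : List X) (ep : List S) (T : List (S × X × S × S)) (n : ℕ) (C : List (Fact X S))
    [DecidableEq X] [DecidableEq S] : List (Fact X S) :=
  ((auts al n).flatMap fun E => ep.flatMap fun s => (List.range n).map fun p => ((E, s, p, p), 0)) ++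
    C.flatMap fun c => C.flatMap fun d => c.1.1.flatMap fun e => T.flatMap fun t =>
      if (d.1.1, e.2, c.1.2.2.2, c.1.2.1, d.1.2.1) =
          (c.1.1, (t.2.1, c.1.2.2.1), d.1.2.2.1, t.2.2) then
        [((c.1.1, t.1, e.1, d.1.2.2.2), c.2 + d.2 + 1)] else []

theorem mem_next {al : List X} {ep : List S} {T : List (S × X × S × S)} {n : ℕ}
    {C : List (Fact X S)} [DecidableEq X] [DecidableEq S] {E : List (ℕ × X × ℕ)} {s : S}
    {p q k : ℕ} : ((E, s, p, q), k) ∈ next al ep T n C ↔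
      (E ∈ auts al n ∧ s ∈ ep ∧ p < n ∧ p = q ∧ k = 0) ∨
      ∃ a s₁ s₂ r r' i j, ((E, s₁, r, r'), i) ∈ C ∧ ((E, s₂, r', q), j) ∈ C ∧ (p, a, r) ∈ E ∧
        (s, a, s₁, s₂) ∈ T ∧ k = i + j + 1 := by
  simp only [next, List.mem_append, List.mem_flatMap, List.mem_map, List.mem_range]
  refine or_congr ?_ ?_
  · constructor
    · rintro ⟨E', h1, s', h2, p', h3, h⟩
      simp only [Prod.mk.injEq] at h
      obtain ⟨⟨rfl, rfl, rfl, rfl⟩, rfl⟩ := h
      exact ⟨h1, h2, h3, rfl, rfl⟩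
    · rintro ⟨h1, h2, h3, rfl, rfl⟩
      exact ⟨E, h1, s, h2, p, h3, rfl⟩
  · constructor
    · rintro ⟨⟨⟨E₁, s₁, r, r'⟩, i⟩, h1, ⟨⟨E₂, s₂, r'', q'⟩, j⟩, h2, ⟨p', a, x⟩, h3,
        ⟨s', a', t₁, t₂⟩, h4, h⟩
      split_ifs at h with h5
      · simp only [Prod.mk.injEq, List.mem_singleton] at h h5
        obtain ⟨⟨rfl, rfl, rfl, rfl⟩, rfl⟩ := h
        obtain ⟨rfl, ⟨rfl, rfl⟩, rfl, rfl, rfl⟩ := h5
        exact ⟨_, _, _, _, _, _, _, h1, h2, h3, h4, rfl⟩
      · simp at h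
    · rintro ⟨a, s₁, s₂, r, r', i, j, h1, h2, h3, h4, rfl⟩
      exact ⟨_, h1, _, h2, _, h3, _, h4, by simp⟩

/-- The certificate check. -/
def Check (al : List X) (ep : List S) (T : List (S × X × S × S)) (s₀ : S)
    [DecidableEq X] [DecidableEq S] (x : ℕ × ℕ × List (Fact X S)) : Prop :=
  (∀ c ∈ x.2.2, ∃ d ∈ next al ep T x.1 x.2.2, c = d) ∧
    (∀ d ∈ next al ep T x.1 x.2.2, ∃ c ∈ x.2.2, c.1 = d.1 ∧ c.2 ≤ d.2) ∧
    (∀ c ∈ x.2.2, ∀ d ∈ x.2.2, c.1 = d.1 → c.2 = d.2) ∧
    (∀ c ∈ x.2.2, c.1.2.1 = s₀ → c.2 ≤ x.2.1) ∧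
    (x.2.1 = 0 ∨ ∃ c ∈ x.2.2, c.1.2.1 = s₀ ∧ c.2 = x.2.1)

end defs

section primdefs
variable {X S : Type} [Primcodable X] [Primcodable S]
open Primrec

theorem prim_auts (al : List X) : Primrec (auts al) :=
  prim_sublists.comp (list_flatMap list_range (list_flatMap (const al)
    (list_map (list_range.comp (fst.comp fst))
      ((snd.comp (fst.comp fst)).pair ((snd.comp fst).pair snd)).to₂).to₂).to₂)

theorem prim_next [DecidableEq X] [DecidableEq S] (al : List X) (ep : List S)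
    (T : List (S × X × S × S)) :
    Primrec fun x : ℕ × List (Fact X S) => next al ep T x.1 x.2 := by
  refine list_append.comp ?_ ?_
  · exact list_flatMap ((prim_auts al).comp fst) (list_flatMap (const ep)
      (list_map (list_range.comp (fst.comp (fst.comp fst)))
        (((snd.comp (fst.comp fst)).pair ((snd.comp fst).pair (snd.pair snd))).pair
          (const 0)).to₂).to₂).to₂
  · have hc : Primrec fun y : ((((ℕ × List (Fact X S)) × Fact X S) × Fact X S) × (ℕ × X × ℕ)) ×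
        (S × X × S × S) => y.1.1.1.2 := snd.comp (fst.comp (fst.comp fst))
    have hd : Primrec fun y : ((((ℕ × List (Fact X S)) × Fact X S) × Fact X S) × (ℕ × X × ℕ)) ×
        (S × X × S × S) => y.1.1.2 := snd.comp (fst.comp fst)
    have he : Primrec fun y : ((((ℕ × List (Fact X S)) × Fact X S) × Fact X S) × (ℕ × X × ℕ)) ×
        (S × X × S × S) => y.1.2 := snd.comp fst
    have k1 : Primrec fun c : Fact X S => c.1.1 := fst.comp fst
    have k2 : Primrec fun c : Fact X S => c.1.2.1 := fst.comp (snd.comp fst)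
    have k3 : Primrec fun c : Fact X S => c.1.2.2.1 := fst.comp (snd.comp (snd.comp fst))
    have k4 : Primrec fun c : Fact X S => c.1.2.2.2 := snd.comp (snd.comp (snd.comp fst))
    have a1 := (k1.comp hd).pair ((snd.comp he).pair ((k4.comp hc).pair
        ((k2.comp hc).pair (k2.comp hd))))
    have a2 := (k1.comp hc).pair (((fst.comp (snd.comp snd)).pair (k3.comp hc)).pair
        ((k3.comp hd).pair (snd.comp (snd.comp snd))))
    have a3 := ((k1.comp hc).pair ((fst.comp snd).pair ((fst.comp he).pair (k4.comp hd)))).pair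
        (succ.comp (nat_add.comp (snd.comp hc) (snd.comp hd)))
    have a4 := Primrec.ite (PrimrecRel.comp Primrec.eq a1 a2) (list_cons.comp a3 (const []))
      (const [])
    exact list_flatMap snd (Primrec.to₂ (list_flatMap (snd.comp fst) (Primrec.to₂
      (list_flatMap (fst.comp (fst.comp (snd.comp fst))) (Primrec.to₂
        (list_flatMap (const T) (Primrec.to₂ a4)))))))

theorem prim_check [DecidableEq X] [DecidableEq S] (al : List X) (ep : List S)
    (T : List (S × X × S × S)) (s₀ : S) : PrimrecPred (Check al ep T s₀) := by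
  have hC : Primrec fun x : ℕ × ℕ × List (Fact X S) => x.2.2 := snd.comp snd
  have hN : Primrec fun x : ℕ × ℕ × List (Fact X S) => next al ep T x.1 x.2.2 :=
    (prim_next al ep T).comp (fst.pair hC)
  have k2 : Primrec fun c : Fact X S => c.1.2.1 := fst.comp (snd.comp fst)
  refine PrimrecPred.and (pall hC (pex (hN.comp fst) ?_)) (PrimrecPred.and
    (pall hN (pex (hC.comp fst) ?_)) (PrimrecPred.and (pall hC (pall (hC.comp fst) ?_))
    (PrimrecPred.and (pall hC ?_) (PrimrecPred.or ?_ (pex hC ?_)))))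
  · exact PrimrecRel.comp Primrec.eq (snd.comp fst) snd
  · exact (PrimrecRel.comp Primrec.eq (fst.comp snd) (fst.comp (snd.comp fst))).and
      (PrimrecRel.comp nat_le (snd.comp snd) (snd.comp (snd.comp fst)))
  · exact pimp (PrimrecRel.comp Primrec.eq (fst.comp (snd.comp fst)) (fst.comp snd))
      (PrimrecRel.comp Primrec.eq (snd.comp (snd.comp fst)) (snd.comp snd))
  · exact pimp (PrimrecRel.comp Primrec.eq (k2.comp snd) (const s₀))
      (PrimrecRel.comp nat_le (snd.comp snd) (fst.comp (snd.comp fst)))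
  · exact PrimrecRel.comp Primrec.eq (fst.comp snd) (const 0)
  · exact (PrimrecRel.comp Primrec.eq (k2.comp snd) (const s₀)).and
      (PrimrecRel.comp Primrec.eq (snd.comp snd) (fst.comp (snd.comp fst)))

end primdefs

section sem
variable {X S : Type} (Lang : S → Set (List X)) (al : List X) (n : ℕ)

/-- The edge relation of an edge list. -/
def ed (E : List (ℕ × X × ℕ)) (p : ℕ) (a : X) (q : ℕ) : Prop := (p, a, q) ∈ E

/-- The fact is realised by a word. -/
def Rl (c : Fact X S) : Prop :=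
  c.1.1 ∈ auts al n ∧ c.1.2.2.1 < n ∧
    ∃ w ∈ Lang c.1.2.1, Path (ed c.1.1) c.1.2.2.1 w c.1.2.2.2 ∧ w.length = c.2

/-- The fact records a shortest length. -/
def Mn (c : Fact X S) : Prop := Rl Lang al n c ∧ ∀ k, Rl Lang al n (c.1, k) → c.2 ≤ k

variable {Lang al n}

theorem path_lt {E : List (ℕ × X × ℕ)} (h : E ∈ auts al n) {p q : ℕ} {w : List X}
    (hp : Path (ed E) p w q) : p < n → q < n := by
  induction hp with
  | nil s => exact id
  | cons h1 _ ih => exact fun _ => ih (auts_lt h _ h1).2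

theorem path_fin {E : List (ℕ × X × ℕ)} (h : E ∈ auts al n) {p q : Fin n} {w : List X} :
    Path (fun (p : Fin n) a (q : Fin n) => ed E p a q) p w q ↔ Path (ed E) p w q := by
  constructor
  · exact path_map_state Fin.val fun _ _ _ h => h
  · intro hp
    obtain ⟨t, h1, h2⟩ := path_of_state (E := fun (p : Fin n) a (q : Fin n) => ed E p a q)
      Fin.val (fun s a t' h' => ⟨⟨t', (auts_lt h _ h').2⟩, rfl, h'⟩) hp
    exact Fin.ext h1 ▸ h2

theorem exists_mn {c : Fact X S} (h : Rl Lang al n c) :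
    ∃ k, k ≤ c.2 ∧ Mn Lang al n (c.1, k) := by
  classical
  have hex : ∃ k, Rl Lang al n (c.1, k) := ⟨c.2, h⟩
  exact ⟨Nat.find hex, Nat.find_min' hex h, Nat.find_spec hex, fun k hk => Nat.find_min' hex hk⟩

theorem finite_mn [Finite S] : {c : Fact X S | Mn Lang al n c}.Finite := by
  refine Set.Finite.of_finite_image (f := Prod.fst) ?_ ?_
  · refine (((auts al n).finite_toSet).prod ((Set.finite_univ (α := S)).prod
      ((Set.finite_Iio n).prod (Set.finite_Iio n)))).subset ?_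
    rintro _ ⟨c, ⟨⟨h1, h2, w, -, h3, -⟩, -⟩, rfl⟩
    exact ⟨h1, trivial, h2, path_lt h1 h3 h2⟩
  · rintro ⟨x, k⟩ h ⟨y, l⟩ h' e
    simp only at e
    subst e
    exact Prod.ext rfl (le_antisymm (h.2 l h'.1) (h'.2 k h.1))

theorem mn_le_index [Finite X] {c : Fact X S} (h : Mn Lang al n c) :
    c.2 ≤ index (Lang c.1.2.1) n := by
  obtain ⟨⟨E, s, p, q⟩, k⟩ := c
  obtain ⟨⟨h1, h2, w, hw, h3, -⟩, h4⟩ := h
  refine le_index (fun (p : Fin n) a (q : Fin n) => ed E p a q) ⟨p, h2⟩ ⟨q, path_lt h1 h3 h2⟩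
    (by simp) ⟨w, hw, (path_fin h1).2 h3⟩ fun v hv hp => ?_
  exact h4 _ ⟨h1, h2, v, hv, (path_fin h1).1 hp, rfl⟩

theorem index_mn [Finite X] (hal : ∀ a, a ∈ al) (s : S) : index (Lang s) n = 0 ∨
    ∃ c : Fact X S, Mn Lang al n c ∧ c.1.2.1 = s ∧ c.2 = index (Lang s) n := by
  rcases index_spec (Lang s) n with h | ⟨E', p, q, ⟨w, h1, h2, h3⟩, h4⟩
  · exact Or.inl h
  obtain ⟨E, hE, hm⟩ := auts_ex hal n fun e => ∃ h h', E' ⟨e.1, h⟩ e.2.1 ⟨e.2.2, h'⟩
  have he : (fun (p : Fin n) a (q : Fin n) => ed E p a q) = E' := by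
    funext p a q
    simp [ed, hm]
  subst he
  refine Or.inr ⟨((E, s, p, q), _), ⟨⟨hE, p.2, w, h1, (path_fin hE).1 h2, h3⟩, ?_⟩, rfl, rfl⟩
  rintro k ⟨-, -, v, hv, hp, rfl⟩
  exact h4 v hv ((path_fin hE).2 hp)

variable [DecidableEq X] [DecidableEq S] {ep : List S} {T : List (S × X × S × S)}
  {C : List (Fact X S)}

theorem rl_next (hep : ∀ s, s ∈ ep ↔ [] ∈ Lang s)
    (hT : ∀ s a s₁ s₂, (s, a, s₁, s₂) ∈ T ↔
      ∀ u ∈ Lang s₁, ∀ v ∈ Lang s₂, a :: (u ++ v) ∈ Lang s)
    {d : Fact X S} (hd : d ∈ next al ep T n C) (hC : ∀ c ∈ C, c.2 < d.2 → Rl Lang al n c) :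
    Rl Lang al n d := by
  obtain ⟨⟨E, s, p, q⟩, k⟩ := d
  rcases mem_next.1 hd with ⟨h1, h2, h3, rfl, rfl⟩ | ⟨a, s₁, s₂, r, r', i, j, h1, h2, h3, h4, rfl⟩
  · exact ⟨h1, h3, [], (hep s).1 h2, Path.nil _, rfl⟩
  · obtain ⟨g1, -, u, hu, g2, g3⟩ := hC _ h1 (by simp only; omega)
    obtain ⟨-, -, v, hv, g4, g5⟩ := hC _ h2 (by simp only; omega)
    simp only at g1 hu g2 g3 hv g4 g5
    exact ⟨g1, (auts_lt g1 _ h3).1, a :: (u ++ v), (hT _ _ _ _).1 h4 u hu v hv,
      Path.cons h3 (path_append g2 g4), by simp [g3, g5]⟩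

theorem next_of_rl (hep : ∀ s, s ∈ ep ↔ [] ∈ Lang s)
    (hT : ∀ s a s₁ s₂, (s, a, s₁, s₂) ∈ T ↔
      ∀ u ∈ Lang s₁, ∀ v ∈ Lang s₂, a :: (u ++ v) ∈ Lang s)
    (step : ∀ s a w, a :: w ∈ Lang s → ∃ s₁ s₂ u v, w = u ++ v ∧ u ∈ Lang s₁ ∧ v ∈ Lang s₂ ∧
      ∀ u' ∈ Lang s₁, ∀ v' ∈ Lang s₂, a :: (u' ++ v') ∈ Lang s)
    {d : Fact X S} (hd : Rl Lang al n d)
    (hC : ∀ c, c.2 < d.2 → Rl Lang al n c → ∃ k, k ≤ c.2 ∧ (c.1, k) ∈ C) :
    ∃ k, k ≤ d.2 ∧ (d.1, k) ∈ next al ep T n C := by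
  obtain ⟨⟨E, s, p, q⟩, k⟩ := d
  obtain ⟨h1, h2, w, hw, h3, h4⟩ := hd
  simp only at h1 h2 hw h3 h4 hC ⊢
  subst h4
  cases w with
  | nil => exact ⟨0, le_rfl, mem_next.2 (Or.inl ⟨h1, (hep s).2 hw, h2, path_nil_iff.1 h3, rfl⟩)⟩
  | cons a w =>
    obtain ⟨s₁, s₂, u, v, rfl, hu, hv, hs⟩ := step s a w hw
    obtain ⟨r, g1, g2⟩ := path_cons_iff.1 h3
    obtain ⟨r', g3, g4⟩ := path_append_iff.1 g2
    have hr : r < n := (auts_lt h1 _ g1).2
    obtain ⟨i, hi, g5⟩ := hC ((E, s₁, r, r'), u.length) (by simp) ⟨h1, hr, u, hu, g3, rfl⟩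
    obtain ⟨j, hj, g6⟩ := hC ((E, s₂, r', q), v.length) (by simp)
      ⟨h1, path_lt h1 g3 hr, v, hv, g4, rfl⟩
    refine ⟨i + j + 1, ?_, mem_next.2 (Or.inr
      ⟨a, s₁, s₂, r, r', i, j, g5, g6, g1, (hT _ _ _ _).2 hs, rfl⟩)⟩
    simp only [List.length_cons, List.length_append] at hi hj ⊢
    omega

end sem

end CompIdx

open CompIdx in
theorem computable_index {X : Type} [Fintype X] {L : Language X} (hL : L.IsContextFree) :
    Computable (index L) := by
  classical
  obtain ⟨S, hS, Lang, s₀, hs₀, step⟩ := exists_bin (isGS_of_isContextFree hL)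
  obtain rfl : L = Lang s₀ := hs₀.symm
  have := Fintype.ofFinite S
  let _ : Primcodable X := Primcodable.ofEquiv _ (Fintype.equivFin X)
  let _ : Primcodable S := Primcodable.ofEquiv _ (Fintype.equivFin S)
  obtain ⟨al, hal⟩ : ∃ al : List X, ∀ a, a ∈ al := ⟨Finset.univ.toList, by simp⟩
  obtain ⟨ep, hep⟩ : ∃ ep : List S, ∀ s, s ∈ ep ↔ [] ∈ Lang s :=
    ⟨(Finset.univ.filter fun s => [] ∈ Lang s).toList, by simp⟩
  obtain ⟨T, hT⟩ : ∃ T : List (S × X × S × S), ∀ s a s₁ s₂, (s, a, s₁, s₂) ∈ T ↔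
      ∀ u ∈ Lang s₁, ∀ v ∈ Lang s₂, a :: (u ++ v) ∈ Lang s :=
    ⟨(Finset.univ.filter fun t : S × X × S × S => ∀ u ∈ Lang t.2.2.1, ∀ v ∈ Lang t.2.2.2,
      t.2.1 :: (u ++ v) ∈ Lang t.1).toList, by simp⟩
  refine computable_of_cert (prim_check al ep T s₀) (fun n => ?_) fun n k C h => ?_
  · obtain ⟨C, hC⟩ : ∃ C : List (Fact X S), ∀ c, c ∈ C ↔ Mn Lang al n c :=
      ⟨(finite_mn (Lang := Lang) (al := al) (n := n)).toFinset.toList, by simp⟩
    have h1 : ∀ d ∈ next al ep T n C, Rl Lang al n d := fun d hd =>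
      rl_next hep hT hd fun c hc _ => ((hC c).1 hc).1
    refine ⟨C, fun c hc => ?_, fun d hd => ?_, fun c hc d hd e => ?_, fun c hc e => ?_, ?_⟩
    · have hc' := (hC c).1 hc
      obtain ⟨k, hk, h2⟩ := next_of_rl (C := C) hep hT step hc'.1 fun d _ hd => by
        obtain ⟨k, g1, g2⟩ := exists_mn hd
        exact ⟨k, g1, (hC _).2 g2⟩
      exact ⟨_, h2, Prod.ext rfl (le_antisymm (hc'.2 k (h1 _ h2)) hk)⟩
    · obtain ⟨k, g1, g2⟩ := exists_mn (h1 d hd)
      exact ⟨_, (hC _).2 g2, rfl, g1⟩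
    · refine le_antisymm (((hC c).1 hc).2 _ ?_) (((hC d).1 hd).2 _ ?_)
      · rw [e]; exact ((hC d).1 hd).1
      · rw [← e]; exact ((hC c).1 hc).1
    · exact e ▸ mn_le_index ((hC c).1 hc)
    · rcases index_mn (Lang := Lang) (n := n) hal s₀ with h | ⟨c, g1, g2, g3⟩
      · exact Or.inl h
      · exact Or.inr ⟨c, (hC c).2 g1, g2, g3⟩
  · obtain ⟨hU, hL, hF, hM, hA⟩ := h
    simp only at hU hL hF hM hA
    have h1 : ∀ m, ∀ c ∈ C, c.2 < m → Rl Lang al n c := by
      intro m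
      induction m with
      | zero => intro c _ h; omega
      | succ m ih =>
        intro c hc hm
        obtain ⟨d, hd, rfl⟩ := hU c hc
        exact rl_next hep hT hd fun c' hc' h => ih c' hc' (by omega)
    have h2 : ∀ m, ∀ c, c.2 < m → Rl Lang al n c → ∃ k, k ≤ c.2 ∧ (c.1, k) ∈ C := by
      intro m
      induction m with
      | zero => intro c h; omega
      | succ m ih =>
        intro c hm hc
        obtain ⟨k, hk, g⟩ := next_of_rl (C := C) hep hT step hc
          fun c' h hc' => ih c' (by omega) hc'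
        obtain ⟨⟨x, l⟩, g1, g2, g3⟩ := hL _ g
        simp only at g2 g3
        subst g2
        exact ⟨l, g3.trans hk, g1⟩
    have h3 : ∀ c ∈ C, Mn Lang al n c := fun c hc =>
      ⟨h1 _ c hc (Nat.lt_succ_self _), fun k hk => by
        obtain ⟨l, g1, g2⟩ := h2 _ _ (Nat.lt_succ_self _) hk
        exact (hF c hc _ g2 rfl).trans_le g1⟩
    apply le_antisymm
    · rcases hA with rfl | ⟨c, hc, g1, rfl⟩
      · exact Nat.zero_le _
      · exact g1 ▸ mn_le_index (h3 c hc)
    · rcases index_mn (Lang := Lang) (n := n) hal s₀ with h | ⟨c, g1, g2, g3⟩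
      · exact h.le.trans (Nat.zero_le _)
      · obtain ⟨l, g4, g5⟩ := h2 _ c (Nat.lt_succ_self _) g1.1
        have g6 := hM _ g5 g2
        have g7 := g1.2 l (h3 _ g5).1
        simp only at g6
        exact g3 ▸ g7.trans g6

end Pool.Agent.Lib.MP_275d83_lc
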