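import Mathlib

namespace Pool.Agent.Lib.MP_275d83_lc

open Filter

/-- The length of a shortest word of `L` accepted by `A`, and `0` if there is none. -/
noncomputable def shortest {X : Type} (L : Language X) {n : ℕ} (A : NFA X (Fin n)) : ℕ :=
  sInf {k | ∃ w ∈ L, w ∈ A.accepts ∧ w.length = k}

/-- The rational index: the maximum of `shortest L A` over all automata with `n` states. -/
noncomputable def index {X : Type} (L : Language X) (n : ℕ) : ℕ :=
  sSup (Set.range fun A : NFA X (Fin n) => shortest L A)

/-- Intermediate growth: superpolynomial and subexponential. -/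
def Intermediate (f : ℕ → ℕ) : Prop :=
  (∀ k : ℕ, ¬ Asymptotics.IsBigO atTop (fun n : ℕ => (f n : ℝ)) fun n : ℕ => (n : ℝ) ^ k) ∧
    ∀ c : ℝ, 1 < c → ∀ᶠ n : ℕ in atTop, (f n : ℝ) < c ^ n

/-- The growth exponent `log log f(n) / log n`. -/
noncomputable def expo (f : ℕ → ℕ) (n : ℕ) : ℝ :=
  Real.log (Real.log (f n)) / Real.log n

end Pool.Agent.Lib.MP_275d83_lc
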