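import Pool.Agent.Lib.MP_275d83_lc.Defs

namespace Pool.Agent.Lib.MP_275d83_lc

/-- The image of `L` under the rational transduction given by the finite transducer `T`, an
automaton whose edges read at most one letter and write at most one letter. -/
def transduce {X Y : Type} {m : ℕ} (T : NFA (Option X × Option Y) (Fin m)) (L : Language X) :
    Language Y :=
  {v | ∃ w ∈ T.accepts, w.filterMap Prod.fst ∈ L ∧ w.filterMap Prod.snd = v}

end Pool.Agent.Lib.MP_275d83_lc
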