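import Pool.Agent.Lib.MP_275d83_lc.Defs

/-! A diagonal schedule: long blocks of ones that wait for a computable function. -/

namespace Pool.Agent.Lib.MP_275d83_lc

open Filter

theorem diag_ones {D : ℕ → ℕ} (hstep : ∀ t, D t ≤ D (t + 1))
    (h : ∀ N, ∃ t, N ≤ t ∧ D (t + 1) = D t + 1) (K : ℕ) : ∃ t, K ≤ D t := by
  have hm : Monotone D := monotone_nat_of_le_succ hstep
  induction K with
  | zero => exact ⟨0, Nat.zero_le _⟩
  | succ K ih =>
    obtain ⟨t, ht⟩ := ih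
    obtain ⟨u, h1, h2⟩ := h t
    have := hm h1
    exact ⟨u + 1, by omega⟩

theorem diag_zeros {D : ℕ → ℕ} (h0 : D 0 = 0) (hstep : ∀ t, D (t + 1) ≤ D t + 1)
    (h : ∀ N, ∃ t, N ≤ t ∧ D (t + 1) = D t) (K : ℕ) : ∃ t, D t + K ≤ t := by
  have hadd : ∀ t k, D (t + k) ≤ D t + k := by
    intro t k
    induction k with
    | zero => simp
    | succ k ih => have := hstep (t + k); rw [← Nat.add_assoc]; omega
  induction K with
  | zero => exact ⟨0, by omega⟩
  | succ K ih =>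
    obtain ⟨t, ht⟩ := ih
    obtain ⟨u, h1, h2⟩ := h t
    obtain ⟨k, rfl⟩ := Nat.exists_eq_add_of_le h1
    have := hadd t k
    exact ⟨t + k + 1, by omega⟩

theorem diag_abstract (W : ℕ → ℕ → ℕ) (F : ℕ → ℕ → ℕ → Prop) (D T k b r z : ℕ → ℕ)
    (hF1 : ∀ k b u, F k b u → b + W k b ≤ u) (hF2 : ∀ k b, ∃ u, ∀ v, u ≤ v → F k b v)
    (h0 : D 0 = 0) (hstep : ∀ t, D t ≤ D (t + 1) ∧ D (t + 1) ≤ D t + 1)
    (hT : ∀ s, T s + 1 < T (s + 1))
    (a1 : ∀ s, r s = 0 → F (k s) (b s) (T s) → k (s + 1) = k s + 1 ∧ r (s + 1) = 2 ∧ z s = 1)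
    (a2 : ∀ s, r s = 0 → ¬ F (k s) (b s) (T s) →
      k (s + 1) = k s ∧ b (s + 1) = b s ∧ r (s + 1) = 0 ∧ z s = 0)
    (a3 : ∀ s, r s = 1 → k (s + 1) = k s ∧ b (s + 1) = T s ∧ r (s + 1) = 0 ∧ z s = 0)
    (a4 : ∀ s, 2 ≤ r s → k (s + 1) = k s ∧ r (s + 1) = r s - 1 ∧ z s = 0)
    (hD : ∀ s t, T (s + 1) ≤ t → t < T (s + 2) → D (t + 1) = D t +
      if (t - T (s + 1)) % (0 + 1 + z s) < 0 + 1 then 1 else 0) :
    (∀ K, ∃ t, K ≤ D t) ∧ (∀ K, ∃ t, D t + K ≤ t) ∧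
      ∀ k0, ∃ k b, k0 ≤ k ∧ W k b ≤ D (b + W k b) := by
  have hTm : StrictMono T := strictMono_nat_of_lt_succ fun s => by have := hT s; omega
  have hTs : ∀ s, s ≤ T s := fun s => hTm.le_apply
  have wait : ∀ s, r s = 0 → ∃ s', s ≤ s' ∧ r s' = 0 ∧ k s' = k s ∧ b s' = b s ∧
      F (k s) (b s) (T s') ∧ ∀ j, s ≤ j → j < s' → z j = 0 := by
    intro s hs
    obtain ⟨u, hu⟩ := hF2 (k s) (b s)
    have key : ∀ d, (∃ s', s ≤ s' ∧ r s' = 0 ∧ k s' = k s ∧ b s' = b s ∧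
        F (k s) (b s) (T s') ∧ ∀ j, s ≤ j → j < s' → z j = 0) ∨
        (r (s + d) = 0 ∧ k (s + d) = k s ∧ b (s + d) = b s ∧
          ∀ j, s ≤ j → j < s + d → z j = 0) := by
      intro d
      induction d with
      | zero => exact Or.inr ⟨hs, rfl, rfl, fun j h1 h2 => by omega⟩
      | succ d ih =>
        rcases ih with h | ⟨h1, h2, h3, h4⟩
        · exact Or.inl h
        by_cases hf : F (k s) (b s) (T (s + d))
        · exact Or.inl ⟨s + d, by omega, h1, h2, h3, hf, h4⟩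
        · obtain ⟨e1, e2, e3, e4⟩ := a2 (s + d) h1 (by rwa [h2, h3])
          refine Or.inr ⟨e3, e1.trans h2, e2.trans h3, fun j h5 h6 => ?_⟩
          by_cases h7 : j = s + d
          · rw [h7]; exact e4
          · exact h4 j h5 (by omega)
    rcases key u with h | ⟨h1, h2, h3, h4⟩
    · exact h
    · exact ⟨s + u, by omega, h1, h2, h3, hu _ (by have := hTs (s + u); omega), h4⟩
  have base : ∀ n s, r s = n → ∃ s', r s' = 0 := by
    intro n
    induction n using Nat.strong_induction_on with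
    | _ n ih =>
      intro s hs
      rcases Nat.lt_or_ge n 2 with h | h
      · rcases Nat.eq_zero_or_pos n with h1 | h1
        · exact ⟨s, by omega⟩
        · exact ⟨s + 1, (a3 s (by omega)).2.2.1⟩
      · exact ih (n - 1) (by omega) (s + 1) (by rw [(a4 s (by omega)).2.1, hs])
  have ones : ∀ s s', (∀ j, s ≤ j → j < s' → z j = 0) →
      ∀ d, T (s + 1) + d ≤ T (s' + 1) → d ≤ D (T (s + 1) + d) := by
    intro s s' hz d
    induction d with
    | zero => intro _; exact Nat.zero_le _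
    | succ d ih =>
      intro hd
      have h1 := ih (by omega)
      have h2 : ∃ j, T (s + 1) + d < T (j + 2) := ⟨T (s + 1) + d, by
        have := hTs (T (s + 1) + d + 2); omega⟩
      classical
      have h3 := Nat.find_spec h2
      have h4 : s ≤ Nat.find h2 := by
        by_contra h5
        have := hTm.monotone (show Nat.find h2 + 2 ≤ s + 1 by omega)
        omega
      have h5 : T (Nat.find h2 + 1) ≤ T (s + 1) + d := by
        rcases Nat.eq_or_lt_of_le h4 with h6 | h6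
        · rw [← h6]; omega
        · have h7 := Nat.find_min h2 (show Nat.find h2 - 1 < Nat.find h2 by omega)
          rw [show Nat.find h2 - 1 + 2 = Nat.find h2 + 1 by omega] at h7
          omega
      have h6 : Nat.find h2 < s' := by
        by_contra h7
        have := hTm.monotone (show s' + 1 ≤ Nat.find h2 + 1 by omega)
        omega
      have h7 := hD _ _ h5 h3
      rw [hz _ h4 h6, Nat.mod_one, if_pos (by omega)] at h7
      rw [← Nat.add_assoc]
      omega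
  have next : ∀ s, r s = 0 → ∃ s', s ≤ s' ∧ z s' = 1 ∧ r (s' + 3) = 0 ∧ k (s' + 3) = k s + 1 ∧
      W (k (s' + 3)) (b (s' + 3)) ≤ D (b (s' + 3) + W (k (s' + 3)) (b (s' + 3))) := by
    intro s hs
    obtain ⟨s', h1, h2, h3, h4, h5, -⟩ := wait s hs
    obtain ⟨e1, e2, e3⟩ := a1 s' h2 (by rwa [h3, h4])
    obtain ⟨e4, e5, e6⟩ := a4 (s' + 1) (by omega)
    obtain ⟨e7, e8, e9, e10⟩ := a3 (s' + 1 + 1) (by omega)
    obtain ⟨s'', g1, -, -, -, g5, g6⟩ := wait (s' + 3) e9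
    refine ⟨s', h1, e3, e9, by rw [← h3, ← e1, ← e4, ← e7], ?_⟩
    have g7 := hF1 _ _ _ g5
    have g8 : b (s' + 3) = T (s' + 1 + 1) := e8
    have g9 := hTm.monotone (show s'' ≤ s'' + 1 by omega)
    have g10 := ones (s' + 1) s'' (fun j h6 h7 => by
      rcases Nat.lt_or_ge j (s' + 3) with h8 | h8
      · rcases Nat.eq_or_lt_of_le h6 with h9 | h9
        · rw [← h9]; exact e6
        · rw [show j = s' + 1 + 1 by omega]; exact e10
      · exact g6 j h8 h7) (W (k (s' + 3)) (b (s' + 3))) (by omega)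
    rwa [← g8] at g10
  have often : ∀ N, ∃ s, N ≤ s ∧ r s = 0 ∧ N ≤ k s := by
    intro N
    induction N with
    | zero =>
      obtain ⟨s, hs⟩ := base _ 0 rfl
      exact ⟨s, Nat.zero_le _, hs, Nat.zero_le _⟩
    | succ N ih =>
      obtain ⟨s, h1, h2, h3⟩ := ih
      obtain ⟨s', g1, -, g3, g4, -⟩ := next s h2
      exact ⟨s' + 3, by omega, g3, by omega⟩
  refine ⟨diag_ones (fun t => (hstep t).1) fun N => ?_,
    diag_zeros h0 (fun t => (hstep t).2) fun N => ?_, fun k0 => ?_⟩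
  · refine ⟨T (N + 1), by have := hTs (N + 1); omega, ?_⟩
    have h1 := hD N (T (N + 1)) le_rfl (hTm (by omega))
    rwa [Nat.sub_self, Nat.zero_mod, if_pos (by omega)] at h1
  · obtain ⟨s, h1, h2, -⟩ := often N
    obtain ⟨s', g1, g2, -⟩ := next s h2
    refine ⟨T (s' + 1) + 1, by have := hTs (s' + 1); omega, ?_⟩
    have h3 := hD s' (T (s' + 1) + 1) (by omega) (hT (s' + 1))
    rw [g2, Nat.add_sub_cancel_left, if_neg (by norm_num)] at h3
    exact h3
  · obtain ⟨s, -, h2, h3⟩ := often k0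
    obtain ⟨s', -, -, -, g4, g5⟩ := next s h2
    exact ⟨_, _, by omega, g5⟩

theorem track_diag (W : ℕ → ℕ → ℕ) (hW : Computable₂ W) :
    ∃ FZ FM : ℕ → ℕ → ℕ, Primrec₂ FZ ∧ Primrec₂ FM ∧ ∀ D T m : ℕ → ℕ, D 0 = 0 →
      (∀ t, D t ≤ D (t + 1) ∧ D (t + 1) ≤ D t + 1) → (∀ s, T s + 1 < T (s + 1)) →
      (∀ s, m (s + 1) = FM (m s) (T s)) →
      (∀ s t, T (s + 1) ≤ t → t < T (s + 2) → D (t + 1) = D t +
        if (t - T (s + 1)) % (0 + 1 + FZ (m s) (T s)) < 0 + 1 then 1 else 0) →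
      (∀ K, ∃ t, K ≤ D t) ∧ (∀ K, ∃ t, D t + K ≤ t) ∧
        ∀ k0, ∃ k b, k0 ≤ k ∧ W k b ≤ D (b + W k b) := by
  have hc : Computable fun n : ℕ => n.unpair.2 + W n.unpair.1 n.unpair.2 :=
    Primrec.nat_add.to_comp.comp (Primrec.snd.comp Primrec.unpair).to_comp
      (hW.comp (Primrec.fst.comp Primrec.unpair).to_comp (Primrec.snd.comp Primrec.unpair).to_comp)
  obtain ⟨c, hc'⟩ := Nat.Partrec.Code.exists_code.1 (Partrec.nat_iff.1 hc)
  have hev : ∀ k b, b + W k b ∈ c.eval (Nat.pair k b) := fun k b => by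
    rw [hc']
    simp
  have hE : Primrec₂ fun a u : ℕ => Nat.Partrec.Code.evaln u c a :=
    Nat.Partrec.Code.primrec_evaln.comp
      ((Primrec.snd.pair (Primrec.const c)).pair Primrec.fst)
  let F : ℕ → ℕ → Prop := fun a u => (Nat.Partrec.Code.evaln u c a).getD (u + 1) ≤ u
  have hF : PrimrecPred fun x : ℕ × ℕ => F x.1.unpair.1 x.2 :=
    Primrec.nat_le.comp (Primrec.option_getD.comp
      (hE.comp (Primrec.fst.comp (Primrec.unpair.comp Primrec.fst)) Primrec.snd)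
      (Primrec.succ.comp Primrec.snd)) Primrec.snd
  have pa : Primrec fun x : ℕ × ℕ => x.1.unpair.1 :=
    Primrec.fst.comp (Primrec.unpair.comp Primrec.fst)
  have pr : Primrec fun x : ℕ × ℕ => x.1.unpair.2 :=
    Primrec.snd.comp (Primrec.unpair.comp Primrec.fst)
  have pk : Primrec fun x : ℕ × ℕ => x.1.unpair.1.unpair.1 :=
    Primrec.fst.comp (Primrec.unpair.comp pa)
  have r0 : PrimrecPred fun x : ℕ × ℕ => x.1.unpair.2 = 0 := Primrec.eq.comp pr (Primrec.const 0)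
  have r1 : PrimrecPred fun x : ℕ × ℕ => x.1.unpair.2 = 1 := Primrec.eq.comp pr (Primrec.const 1)
  refine ⟨fun a u => if a.unpair.2 = 0 then (if F a.unpair.1 u then 1 else 0) else 0,
    fun a u => if a.unpair.2 = 0 then
      (if F a.unpair.1 u then Nat.pair (Nat.pair (a.unpair.1.unpair.1 + 1) 0) 2 else a)
      else if a.unpair.2 = 1 then Nat.pair (Nat.pair a.unpair.1.unpair.1 u) 0
      else Nat.pair a.unpair.1 (a.unpair.2 - 1), ?_, ?_, ?_⟩
  · exact Primrec.ite r0 (Primrec.ite hF (Primrec.const 1) (Primrec.const 0)) (Primrec.const 0)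
  · exact Primrec.ite r0 (Primrec.ite hF (Primrec₂.natPair.comp
      (Primrec₂.natPair.comp (Primrec.succ.comp pk) (Primrec.const 0)) (Primrec.const 2))
      Primrec.fst) (Primrec.ite r1
      (Primrec₂.natPair.comp (Primrec₂.natPair.comp pk Primrec.snd) (Primrec.const 0))
      (Primrec₂.natPair.comp pa (Primrec.nat_sub.comp pr (Primrec.const 1))))
  intro D T m h0 hstep hT hm hD
  refine diag_abstract W (fun k b u => F (Nat.pair k b) u) D T (fun s => (m s).unpair.1.unpair.1)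
    (fun s => (m s).unpair.1.unpair.2) (fun s => (m s).unpair.2) _ ?_ ?_ h0 hstep hT
    ?_ ?_ ?_ ?_ hD
  · intro k b u hu
    simp only [F] at hu
    cases h1 : Nat.Partrec.Code.evaln u c (Nat.pair k b) with
    | none => rw [h1] at hu; simp at hu
    | some x =>
      rw [h1] at hu
      have h2 := Part.mem_unique (Nat.Partrec.Code.evaln_sound h1) (hev k b)
      rw [← h2]
      exact hu
  · intro k b
    obtain ⟨u, hu⟩ := Nat.Partrec.Code.evaln_complete.1 (hev k b)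
    refine ⟨u + (b + W k b), fun v hv => ?_⟩
    have h1 : Nat.Partrec.Code.evaln v c (Nat.pair k b) = some (b + W k b) :=
      Nat.Partrec.Code.evaln_mono (by omega) hu
    simp only [F, h1, Option.getD_some]
    omega
  · intro s h1 h2
    simp only [Nat.pair_unpair] at h1 h2
    simp [hm s, h1, h2]
  · intro s h1 h2
    simp only [Nat.pair_unpair] at h1 h2
    simp [hm s, h1, h2]
  · intro s h1
    simp [hm s, h1]
  · intro s h1
    have h2 : (m s).unpair.2 ≠ 0 := by omega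
    have h3 : (m s).unpair.2 ≠ 1 := by omega
    simp [hm s, h2, h3]

theorem diag_small (f : ℕ → ℕ) (hs : ∀ c : ℝ, 1 < c → ∀ᶠ n : ℕ in atTop, (f n : ℝ) < c ^ n)
    (N : ℕ) (hN : 0 < N) : ∃ w, (N * 2 ^ w + 1) * (f (N * 2 ^ w) + 1) < 2 ^ 2 ^ w := by
  have hN' : (0 : ℝ) < N := by exact_mod_cast hN
  set d : ℝ := (2 : ℝ) ^ (1 / (3 * (N : ℝ))) with hd
  have hd1 : 1 < d := Real.one_lt_rpow one_lt_two (by positivity)
  have h1 : ∀ᶠ n : ℕ in atTop, (n : ℝ) ^ 1 / d ^ n < 1 / 2 :=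
    (tendsto_pow_const_div_const_pow_of_one_lt 1 hd1).eventually (Iio_mem_nhds (by norm_num))
  have h2 : Tendsto (fun w : ℕ => N * 2 ^ w) atTop atTop :=
    tendsto_atTop_mono (fun w => (Nat.lt_two_pow_self.le).trans (Nat.le_mul_of_pos_left _ hN))
      tendsto_id
  obtain ⟨w, h3, h4, h5⟩ :=
    (h2.eventually ((hs d hd1).and (h1.and (eventually_ge_atTop 1)))).exists
  refine ⟨w, ?_⟩
  have h6 : (d ^ (N * 2 ^ w)) ^ 3 = (2 : ℝ) ^ 2 ^ w := by
    rw [← pow_mul, hd, ← Real.rpow_natCast, ← Real.rpow_mul (by norm_num), ← Real.rpow_natCast]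
    congr 1
    push_cast
    field_simp
  generalize N * 2 ^ w = n at h3 h4 h5 h6 ⊢
  have h7 : 0 < d ^ n := by positivity
  rw [pow_one, div_lt_iff₀ h7] at h4
  have h8 : (1 : ℝ) ≤ n := by exact_mod_cast h5
  have h9 : ((n : ℝ) + 1) * ((f n : ℝ) + 1) < (2 : ℝ) ^ 2 ^ w := by
    rw [← h6]
    generalize d ^ n = y at h3 h4 h7 ⊢
    have h10 : (0 : ℝ) ≤ f n := Nat.cast_nonneg _
    have h11 : (f n : ℝ) + 1 < y * y := by nlinarith
    calc ((n : ℝ) + 1) * ((f n : ℝ) + 1) ≤ y * ((f n : ℝ) + 1) :=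
          mul_le_mul_of_nonneg_right (by linarith) (by linarith)
      _ < y * (y * y) := mul_lt_mul_of_pos_left h11 h7
      _ = y ^ 3 := by ring
  exact_mod_cast h9

theorem diag_wait (f : ℕ → ℕ) (hf : Computable f)
    (hs : ∀ c : ℝ, 1 < c → ∀ᶠ n : ℕ in atTop, (f n : ℝ) < c ^ n) :
    ∃ W : ℕ → ℕ → ℕ, Computable₂ W ∧ ∀ k b,
      ((k + 1) * (k + 1) * 2 ^ (b + 1) * 2 ^ W k b + 1) *
        (f ((k + 1) * (k + 1) * 2 ^ (b + 1) * 2 ^ W k b) + 1) < 2 ^ 2 ^ W k b := by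
  have hex : ∀ x : ℕ × ℕ, ∃ w, ((x.1 + 1) * (x.1 + 1) * 2 ^ (x.2 + 1) * 2 ^ w + 1) *
      (f ((x.1 + 1) * (x.1 + 1) * 2 ^ (x.2 + 1) * 2 ^ w) + 1) < 2 ^ 2 ^ w :=
    fun x => diag_small f hs _ (by positivity)
  have hpow : Primrec fun n : ℕ => 2 ^ n :=
    (Primrec₂.unpaired'.1 Nat.Primrec.pow).comp (Primrec.const 2) Primrec.id
  have hk : Primrec fun p : (ℕ × ℕ) × ℕ => p.1.1 + 1 :=
    Primrec.succ.comp (Primrec.fst.comp Primrec.fst)
  have hn : Primrec fun p : (ℕ × ℕ) × ℕ =>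
      (p.1.1 + 1) * (p.1.1 + 1) * 2 ^ (p.1.2 + 1) * 2 ^ p.2 :=
    Primrec.nat_mul.comp (Primrec.nat_mul.comp (Primrec.nat_mul.comp hk hk)
      (hpow.comp (Primrec.succ.comp (Primrec.snd.comp Primrec.fst)))) (hpow.comp Primrec.snd)
  have hg : Computable fun p : (ℕ × ℕ) × ℕ =>
      ((p.1.1 + 1) * (p.1.1 + 1) * 2 ^ (p.1.2 + 1) * 2 ^ p.2 + 1) *
      (f ((p.1.1 + 1) * (p.1.1 + 1) * 2 ^ (p.1.2 + 1) * 2 ^ p.2) + 1) :=
    Primrec.nat_mul.to_comp.comp (Primrec.succ.comp hn).to_comp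
      (Computable.succ.comp (hf.comp hn.to_comp))
  have hr : Computable fun p : (ℕ × ℕ) × ℕ => 2 ^ 2 ^ p.2 :=
    (hpow.comp (hpow.comp Primrec.snd)).to_comp
  have hlt : Computable₂ fun a b : ℕ => decide (a < b) := Primrec.nat_lt.decide.to_comp
  have hP : ComputablePred fun p : (ℕ × ℕ) × ℕ =>
      ((p.1.1 + 1) * (p.1.1 + 1) * 2 ^ (p.1.2 + 1) * 2 ^ p.2 + 1) *
      (f ((p.1.1 + 1) * (p.1.1 + 1) * 2 ^ (p.1.2 + 1) * 2 ^ p.2) + 1) < 2 ^ 2 ^ p.2 :=
    Computable.computablePred (hlt.comp hg hr)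
  exact ⟨fun k b => Nat.find (hex (k, b)), Computable.find hP hex,
    fun k b => Nat.find_spec (hex (k, b))⟩

end Pool.Agent.Lib.MP_275d83_lc
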