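import Pool.Agent.Lib.MP_275d83_lc.Defs

/-! Lower and upper limits of bounded real sequences; the affine register condition. -/

namespace Pool.Agent.Lib.MP_275d83_lc

open Filter Topology

/-- Each new register value is an affine function of one old value, and the choice depends only
on the set of empty registers. -/
def Aff {ι : Type} (x : ℕ → ι → ℕ) : Prop :=
  ∀ (z : Set ι) (i : ι), ∃ (j : ι) (a b : ℤ), ∀ t, {l | x t l = 0} = z →
    (x (t + 1) i : ℤ) = a * x t j + b

theorem limsup_le_of_ev {u : ℕ → ℝ} {y : ℝ} (bu : ∃ b, ∀ᶠ n in atTop, b ≤ u n)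
    (h : ∀ ε > 0, ∀ᶠ n in atTop, u n ≤ y + ε) : limsup u atTop ≤ y := by
  obtain ⟨b, hb⟩ := bu
  refine le_of_forall_pos_le_add fun ε hε => limsup_le_of_le ?_ (h ε hε)
  exact isCoboundedUnder_le_of_eventually_le atTop hb

theorem le_liminf_of_ev {u : ℕ → ℝ} {y : ℝ} (bu : ∃ b, ∀ᶠ n in atTop, u n ≤ b)
    (h : ∀ ε > 0, ∀ᶠ n in atTop, y - ε ≤ u n) : y ≤ liminf u atTop := by
  obtain ⟨b, hb⟩ := bu
  refine le_of_forall_sub_le fun ε hε => le_liminf_of_le ?_ (h ε hε)
  exact isCoboundedUnder_ge_of_eventually_le atTop hb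

theorem ev_le_limsup {v : ℕ → ℝ} (bv : ∃ b, ∀ᶠ n in atTop, v n ≤ b) {ε : ℝ} (hε : 0 < ε) :
    ∀ᶠ n in atTop, v n ≤ limsup v atTop + ε := by
  obtain ⟨b, hb⟩ := bv
  exact (eventually_lt_of_limsup_lt (lt_add_of_pos_right _ hε)
    (isBoundedUnder_of_eventually_le hb)).mono fun n h => h.le

theorem ev_liminf_le {v : ℕ → ℝ} (bv : ∃ b, ∀ᶠ n in atTop, b ≤ v n) {ε : ℝ} (hε : 0 < ε) :
    ∀ᶠ n in atTop, liminf v atTop - ε ≤ v n := by
  obtain ⟨b, hb⟩ := bv
  exact (eventually_lt_of_lt_liminf (sub_lt_self _ hε)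
    (isBoundedUnder_of_eventually_ge hb)).mono fun n h => h.le

/-- Sequences whose difference tends to `0` have the same lower and upper limits. -/
theorem lims_eq_of_sub {u v : ℕ → ℝ} (hv : ∀ n, 0 ≤ v n ∧ v n ≤ 1)
    (h : Tendsto (fun n => u n - v n) atTop (𝓝 0)) :
    liminf u atTop = liminf v atTop ∧ limsup u atTop = limsup v atTop := by
  have key : ∀ ε > 0, ∀ᶠ n in atTop, v n - ε ≤ u n ∧ u n ≤ v n + ε := by
    intro ε hε
    filter_upwards [h.eventually (Ioo_mem_nhds (neg_lt_zero.2 hε) hε)] with n hn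
    constructor <;> linarith [hn.1, hn.2]
  have bv1 : ∃ b, ∀ᶠ n in atTop, b ≤ v n := ⟨0, Eventually.of_forall fun n => (hv n).1⟩
  have bv2 : ∃ b, ∀ᶠ n in atTop, v n ≤ b := ⟨1, Eventually.of_forall fun n => (hv n).2⟩
  have bu1 : ∃ b, ∀ᶠ n in atTop, b ≤ u n :=
    ⟨-1, (key 1 one_pos).mono fun n hn => by linarith [hn.1, (hv n).1]⟩
  have bu2 : ∃ b, ∀ᶠ n in atTop, u n ≤ b :=
    ⟨2, (key 1 one_pos).mono fun n hn => by linarith [hn.2, (hv n).2]⟩
  refine ⟨le_antisymm (le_liminf_of_ev bv2 fun ε hε => ?_) (le_liminf_of_ev bu2 fun ε hε => ?_),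
    le_antisymm (limsup_le_of_ev bu1 fun ε hε => ?_) (limsup_le_of_ev bv1 fun ε hε => ?_)⟩
  · filter_upwards [key _ (half_pos hε), ev_liminf_le bu1 (half_pos hε)] with n h1 h2
    linarith [h1.2]
  · filter_upwards [key _ (half_pos hε), ev_liminf_le bv1 (half_pos hε)] with n h1 h2
    linarith [h1.1]
  · filter_upwards [key _ (half_pos hε), ev_le_limsup bv2 (half_pos hε)] with n h1 h2
    linarith [h1.2]
  · filter_upwards [key _ (half_pos hε), ev_le_limsup bu2 (half_pos hε)] with n h1 h2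
    linarith [h1.1]

/-- An unbounded sequence moving up by steps `0` or `1` does not change the filter `atTop`. -/
theorem map_atTop_of_steps {g : ℕ → ℕ} (h : ∀ s, g s ≤ g (s + 1) ∧ g (s + 1) ≤ g s + 1)
    (hu : ∀ K, ∃ s, K ≤ g s) : map g atTop = atTop := by
  have hm : Monotone g := monotone_nat_of_le_succ fun s => (h s).1
  refine le_antisymm (tendsto_atTop_atTop_of_monotone hm hu) ?_
  intro U hU
  rw [mem_map, mem_atTop_sets] at hU
  obtain ⟨N, hN⟩ := hU
  refine mem_atTop_sets.2 ⟨g N, fun k hk => ?_⟩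
  have : ∀ d, k ≤ g (N + d) → ∃ s, N ≤ s ∧ g s = k := by
    intro d
    induction d with
    | zero => intro h1; exact ⟨N, le_rfl, le_antisymm hk h1⟩
    | succ d ih =>
      intro h1
      by_cases h2 : k ≤ g (N + d)
      · exact ih h2
      · have := (h (N + d)).2
        exact ⟨N + d + 1, by omega, by rw [← add_assoc] at h1; omega⟩
  obtain ⟨s, hs⟩ := hu k
  obtain ⟨s', h1, rfl⟩ := this s (hs.trans (hm (by omega)))
  exact hN s' h1

theorem lims_comp {g : ℕ → ℕ} (hg : map g atTop = atTop) (v : ℕ → ℝ) :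
    liminf (fun s => v (g s)) atTop = liminf v atTop ∧
      limsup (fun s => v (g s)) atTop = limsup v atTop := by
  constructor
  · conv_rhs => rw [← hg]
    exact liminf_comp v g atTop
  · conv_rhs => rw [← hg]
    exact limsup_comp v g atTop

end Pool.Agent.Lib.MP_275d83_lc
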