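import Pool.Agent.Lib.MP_275d83_lc.Tree
import Pool.Agent.Lib.MP_275d83_lc.Lim

/-! Unary histories of an affine register system and their errors. -/

namespace Pool.Agent.Lib.MP_275d83_lc

open Pool.Agent.Lib.MP_a569f2_lc Sum

section
variable {k : ℕ} (x : ℕ → Fin (k + 1) → ℕ)

/-- The unary code of the first `i` registers at time `t`. -/
def blk (t : ℕ) : ℕ → List (Fin (k + 1) × Bool)
  | 0 => []
  | i + 1 => blk t i ++ (List.replicate (x t (Fin.ofNat _ i)) (Fin.ofNat _ i, true) ++
      [(Fin.ofNat _ i, false)])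

/-- The history up to time `t`. -/
def hist : ℕ → List (Fin (k + 1) × Bool)
  | 0 => [(Fin.last k, false)]
  | t + 1 => hist t ++ blk x t (k + 1)

/-- Initial segments of the infinite history. -/
def Valid (u : List (Fin (k + 1) × Bool)) : Prop := ∃ t, u <+: hist x t

/-- The initial segment that stops inside register `i` at time `t`. -/
def pos (t : ℕ) (i : Fin (k + 1)) (e : ℕ) : List (Fin (k + 1) × Bool) :=
  hist x t ++ (blk x t i ++ List.replicate e (i, true))

theorem blk_succ (t : ℕ) (i : Fin (k + 1)) : blk x t (i + 1) =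
    blk x t i ++ (List.replicate (x t i) (i, true) ++ [(i, false)]) := by
  simp [blk]

theorem blk_top (t : ℕ) : blk x t (k + 1) =
    (blk x t k ++ List.replicate (x t (Fin.last k)) (Fin.last k, true)) ++
      [(Fin.last k, false)] := by
  simpa using blk_succ x t (Fin.last k)

theorem blk_mono (t : ℕ) {i j : ℕ} (h : i ≤ j) : blk x t i <+: blk x t j := by
  induction h with
  | refl => exact List.prefix_rfl
  | step _ ih => exact ih.trans (List.prefix_append _ _)

theorem hist_mono {s t : ℕ} (h : s ≤ t) : hist x s <+: hist x t := by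
  induction h with
  | refl => exact List.prefix_rfl
  | step _ ih => exact ih.trans (List.prefix_append _ _)

theorem hist_last (t : ℕ) : ∃ p, hist x t = p ++ [(Fin.last k, false)] := by
  cases t with
  | zero => exact ⟨[], rfl⟩
  | succ t => exact ⟨_, by rw [hist, blk_top, ← List.append_assoc]⟩

theorem count_reg_blk (t : ℕ) (j : Fin (k + 1)) : ∀ i, i ≤ k + 1 →
    (blk x t i).count (j, true) = if j.val < i then x t j else 0 := by
  intro i
  induction i with
  | zero => intro _; simp [blk]
  | succ i ih =>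
    intro hi
    have := blk_succ x t ⟨i, hi⟩
    simp only at this
    rw [this, List.count_append, ih (by omega), List.count_append, List.count_replicate]
    by_cases h : j = ⟨i, hi⟩
    · subst h; simp
    · have h' : j.val ≠ i := fun e => h (Fin.ext e)
      simp only [beq_iff_eq, Prod.mk.injEq, Ne.symm h, false_and, if_false, List.count_singleton,
        add_zero]
      split_ifs <;> omega

theorem count_sep_blk (t : ℕ) : ∀ i, i ≤ k → (blk x t i).count (Fin.last k, false) = 0 := by
  intro i
  induction i with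
  | zero => intro _; simp [blk]
  | succ i ih =>
    intro hi
    have := blk_succ x t ⟨i, by omega⟩
    simp only at this
    rw [this, List.count_append, ih (by omega), List.count_append, List.count_replicate]
    simp [List.count_singleton, Fin.ext_iff]
    omega

theorem countP_sep_blk (t i : ℕ) : (blk x t i).countP (fun a => !a.2) = i := by
  induction i with
  | zero => rfl
  | succ i ih => simp [blk, ih, List.countP_replicate]

theorem count_sep_hist (t : ℕ) : (hist x t).count (Fin.last k, false) = t + 1 := by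
  induction t with
  | zero => simp [hist]
  | succ t ih => simp [hist, blk_top, ih, count_sep_blk x t k le_rfl, List.count_replicate]

theorem count_sep_pos (t : ℕ) (i : Fin (k + 1)) (e : ℕ) :
    (pos x t i e).count (Fin.last k, false) = t + 1 := by
  simp [pos, count_sep_hist, count_sep_blk x t i (Nat.lt_succ_iff.1 i.2), List.count_replicate]

theorem count_reg_hist (j : Fin (k + 1)) (t : ℕ) :
    (hist x t).count (j, true) = ∑ s ∈ Finset.range t, x s j := by
  induction t with
  | zero => simp [hist]
  | succ t ih => rw [hist, List.count_append, ih, count_reg_blk x t j _ le_rfl, if_pos j.2,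
      Finset.sum_range_succ]

variable {x}

theorem Valid.pre {u v : List (Fin (k + 1) × Bool)} (h : u <+: v) (hv : Valid x v) :
    Valid x u := hv.imp fun _ ht => h.trans ht

theorem Valid.pre_of_le {u v : List (Fin (k + 1) × Bool)} (hu : Valid x u) (hv : Valid x v)
    (h : u.length ≤ v.length) : u <+: v := by
  obtain ⟨s, hs⟩ := hu
  obtain ⟨t, ht⟩ := hv
  exact List.prefix_of_prefix_length_le (hs.trans (hist_mono x (le_max_left s t)))
    (ht.trans (hist_mono x (le_max_right s t))) h

theorem pos_next {t e : ℕ} {i : Fin (k + 1)} (he : e ≤ x t i) :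
    pos x t i e ++ [(i, decide (e < x t i))] <+: hist x (t + 1) := by
  rw [pos, hist, List.append_assoc, List.prefix_append_right_inj]
  refine List.IsPrefix.trans ?_ (blk_mono x t (show i.val + 1 ≤ k + 1 from i.2))
  rw [blk_succ, List.append_assoc, List.prefix_append_right_inj]
  rcases he.eq_or_lt with rfl | h
  · simp
  · rw [decide_eq_true h, ← List.replicate_succ']
    refine List.IsPrefix.trans ?_ (List.prefix_append _ _)
    exact ⟨List.replicate (x t i - (e + 1)) (i, true), by
      rw [List.replicate_append_replicate]; congr 1; omega⟩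

theorem next_eq {t e : ℕ} {i : Fin (k + 1)} (he : e ≤ x t i) {c : Fin (k + 1) × Bool}
    (h : Valid x (pos x t i e ++ [c])) : c = (i, decide (e < x t i)) := by
  have := (h.pre_of_le ⟨_, pos_next he⟩ (by simp)).eq_of_length (by simp)
  simpa using this

theorem valid_pos {u : List (Fin (k + 1) × Bool)} (hu : Valid x u) (hne : u ≠ []) :
    ∃ t i e, e ≤ x t i ∧ u = pos x t i e := by
  induction u using List.reverseRecOn with
  | nil => exact (hne rfl).elim
  | append_singleton u c ih =>
    by_cases h0 : u = []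
    · subst h0
      refine ⟨0, 0, 0, Nat.zero_le _, ?_⟩
      have := (hu.pre_of_le ⟨0, List.prefix_rfl⟩ (by simp [hist])).eq_of_length (by simp [hist])
      simpa [pos, blk] using this
    · obtain ⟨t, i, e, he, rfl⟩ := ih (hu.pre (List.prefix_append _ _)) h0
      rw [next_eq he hu]
      rcases he.eq_or_lt with rfl | h
      · by_cases hi : i.val < k
        · exact ⟨t, ⟨i + 1, by omega⟩, 0, Nat.zero_le _, by simp [pos, blk_succ]⟩
        · obtain rfl : i = Fin.last k := Fin.ext (by have := i.2; simp; omega)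
          exact ⟨t + 1, 0, 0, Nat.zero_le _, by simp [pos, hist, blk]⟩
      · exact ⟨t, i, e + 1, h, by simp [pos, h, List.replicate_succ']⟩

theorem dec_part {t : ℕ} {b : List (Fin (k + 1) × Bool)} (h : Valid x (hist x t ++ b))
    (hb : (Fin.last k, false) ∉ b) :
    ∃ i e, e ≤ x t i ∧ b = blk x t i ++ List.replicate e (i, true) := by
  obtain ⟨p, hp⟩ := hist_last x t
  obtain ⟨t', i, e, he, h1⟩ := valid_pos h (by simp [hp])
  have := congrArg (List.count (Fin.last k, false)) h1
  rw [count_sep_pos, List.count_append, count_sep_hist, List.count_eq_zero_of_not_mem hb] at this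
  obtain rfl : t = t' := by omega
  exact ⟨i, e, he, List.append_cancel_left h1⟩

theorem sep_next {t e : ℕ} {i : Fin (k + 1)} (he : e ≤ x t i)
    (h : Valid x (pos x t i e ++ [(Fin.last k, false)])) : i = Fin.last k ∧ e = x t i := by
  have := next_eq he h
  simp only [Prod.mk.injEq, false_eq_decide_iff] at this
  exact ⟨this.1.symm, by omega⟩

theorem dec_hist {p : List (Fin (k + 1) × Bool)} (h : Valid x (p ++ [(Fin.last k, false)])) :
    ∃ t, p ++ [(Fin.last k, false)] = hist x t := by
  by_cases h0 : p = []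
  · exact ⟨0, by simp [h0, hist]⟩
  · obtain ⟨t, i, e, he, rfl⟩ := valid_pos (h.pre (List.prefix_append _ _)) h0
    obtain ⟨rfl, rfl⟩ := sep_next he h
    exact ⟨t + 1, by simp [pos, hist, blk_top]⟩

theorem hist_length_ge {i₀ : Fin (k + 1)} (h : ∀ t, x t i₀ = 2 ^ t) (t : ℕ) :
    2 ^ t ≤ (hist x t).length := by
  induction t with
  | zero => simp [hist]
  | succ t ih =>
    have := List.count_le_length (a := (i₀, true)) (l := blk x t (k + 1))
    rw [count_reg_blk x t i₀ _ le_rfl, if_pos i₀.2, h] at this
    rw [hist, List.length_append, pow_succ]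
    omega

theorem hist_length_le (h : ∀ t i, x t i ≤ 2 ^ t) (t : ℕ) :
    (hist x t).length ≤ 2 * (k + 1) * 2 ^ t := by
  have hb : ∀ t i, (blk x t i).length ≤ 2 * i * 2 ^ t := by
    intro t i
    induction i with
    | zero => simp [blk]
    | succ i ih =>
      have := h t (Fin.ofNat _ i)
      have := Nat.one_le_two_pow (n := t)
      simp only [blk, List.length_append, List.length_replicate, List.length_singleton]
      nlinarith
  induction t with
  | zero => simp [hist]; omega
  | succ t ih =>
    have := hb t (k + 1)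
    rw [hist, List.length_append, pow_succ]
    nlinarith

theorem aperiodic {i₀ : Fin (k + 1)} (h : ∀ t, x t i₀ = 2 ^ t)
    (u v : List (Fin (k + 1) × Bool)) (hv : v ≠ []) :
    ∃ n, ¬ Valid x (u ++ (List.replicate n v).flatten) := by
  by_contra hcon
  push Not at hcon
  have hv' := List.length_pos_of_ne_nil hv
  have key : ∀ n, 0 < n → ∃ t, t + 1 = u.count (Fin.last k, false) +
      n * v.count (Fin.last k, false) ∧ 2 ^ t ≤ u.length + n * v.length ∧
      u.length + n * v.length < (hist x (t + 1)).length := by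
    intro n hn
    have hl : (u ++ (List.replicate n v).flatten).length = u.length + n * v.length := by simp
    obtain ⟨t, i, e, he, h1⟩ := valid_pos (hcon n) (List.ne_nil_of_length_pos (by
      rw [hl]; nlinarith))
    refine ⟨t, ?_, ?_, ?_⟩
    · rw [← count_sep_pos x t i e, ← h1]
      simp [List.count_flatten]
    · rw [← hl, h1, pos, List.length_append]
      exact (hist_length_ge h t).trans (Nat.le_add_right _ _)
    · have := (pos_next he).length_le
      rw [List.length_append, List.length_singleton] at this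
      rw [← hl, h1]
      exact this
  by_cases h0 : v.count (Fin.last k, false) = 0
  · obtain ⟨t, h1, -, h2⟩ := key ((hist x (u.count (Fin.last k, false))).length + 1) (by omega)
    rw [h0, mul_zero, add_zero] at h1
    rw [h1] at h2
    nlinarith
  · obtain ⟨m, hm⟩ : ∃ m, m = u.length + 2 * v.length := ⟨_, rfl⟩
    obtain ⟨t, h1, h2, -⟩ := key (2 * m + 1) (by omega)
    have h3 : 2 * m ≤ t := by
      have := Nat.mul_le_mul_left (2 * m + 1) (Nat.pos_of_ne_zero h0)
      omega
    have h4 : 2 ^ (2 * m) ≤ 2 ^ t := Nat.pow_le_pow_right (by norm_num) h3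
    have h5 : m + 1 ≤ 2 ^ m := Nat.lt_two_pow_self
    have h6 : (m + 1) * (m + 1) ≤ 2 ^ (2 * m) := by
      rw [two_mul, pow_add]; exact Nat.mul_le_mul h5 h5
    nlinarith [Nat.zero_le (u.length * m)]

/-- Two consecutive blocks, the first with zero set `z`, the second interrupted by `c`. -/
def Pat (z : Set (Fin (k + 1))) (c : Fin (k + 1) × Bool)
    (φ : List (Fin (k + 1) × Bool) → List (Fin (k + 1) × Bool) → Prop) :
    Set (List (Fin (k + 1) × Bool)) :=
  {e | ∃ p b b', (Fin.last k, false) ∉ b ∧ {j | (j, true) ∉ b} = z ∧ (Fin.last k, false) ∉ b' ∧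
    e = p ++ (Fin.last k, false) :: (b ++ (Fin.last k, false) :: (b' ++ [c])) ∧ φ b b'}

theorem good_pat {Δ : Type} [Finite Δ] (f : Fin (k + 1) × Bool → Δ) (z : Set (Fin (k + 1)))
    (c : Fin (k + 1) × Bool) (w₁ w₂ : Fin (k + 1) × Bool → ℤ) (β : ℤ) :
    Good (Ext f (Pat z c fun b b' => 0 < (b.map w₁).sum + (b'.map w₂).sum + β)) := by
  have := ((((wr_tail f).seg {a | a ≠ (Fin.last k, false)} ∅ w₂ c β).seg
    {a | a ≠ (Fin.last k, false) ∧ ∀ j ∈ z, a ≠ (j, true)} {a | ∃ j, j ∉ z ∧ a = (j, true)} w₁
    (Fin.last k, false) 0).seg Set.univ ∅ (fun _ => 0) (Fin.last k, false) 0).good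
  convert this using 2
  ext e
  constructor
  · rintro ⟨p, b, b', h1, rfl, h3, rfl, h5⟩
    refine ⟨_, ?_, p, _, _, ⟨b, _, _, ⟨b', [], 0, ⟨rfl, rfl⟩, ?_, by simp, rfl, rfl⟩, ?_, ?_,
      rfl, rfl⟩, by simp, by simp, rfl, rfl⟩
    · simp only [List.map_const', List.sum_replicate, smul_zero]
      linarith
    · rintro a ha rfl
      exact h3 ha
    · intro a ha
      refine ⟨?_, ?_⟩
      · rintro rfl
        exact h1 ha
      · rintro j hj rfl
        exact hj ha
    · rintro a ⟨j, hj, rfl⟩
      simpa using hj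
  · rintro ⟨_, h0, p, _, _, ⟨b, _, _, ⟨b', _, _, ⟨rfl, rfl⟩, h1, -, rfl, rfl⟩, h2, h3,
      rfl, rfl⟩, -, -, rfl, rfl⟩
    refine ⟨p, b, b', fun h => (h2 _ h).1 rfl, ?_, fun h => h1 _ h rfl, rfl, ?_⟩
    · ext j
      constructor
      · intro hj
        by_contra hz
        exact hj (h3 _ ⟨j, hz, rfl⟩)
      · exact fun hj h => (h2 _ h).2 j hj rfl
    · simp only [List.map_const', List.sum_replicate, smul_zero] at h0
      linarith

theorem sum_ite {α : Type} (p : α → Bool) (a : ℤ) (l : List α) :
    (l.map fun y => if p y = true then a else 0).sum = a * l.countP p := by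
  induction l with
  | nil => simp
  | cons y l ih =>
    rw [List.map_cons, List.sum_cons, ih, List.countP_cons]
    split_ifs <;> push_cast <;> ring

theorem ext_union {σ Δ : Type} (f : σ → Δ) (A B : Set (List σ)) :
    Ext f (A ∪ B) = Ext f A ∪ Ext f B := by
  ext w
  constructor
  · rintro ⟨e, h | h, z, rfl⟩
    · exact Or.inl ⟨e, h, z, rfl⟩
    · exact Or.inr ⟨e, h, z, rfl⟩
  · rintro (⟨e, h, z, rfl⟩ | ⟨e, h, z, rfl⟩)
    · exact ⟨e, Or.inl h, z, rfl⟩
    · exact ⟨e, Or.inr h, z, rfl⟩

theorem good_ext_biUnion {σ Δ ι : Type} (f : σ → Δ) {I : Set ι} (hI : I.Finite)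
    {A : ι → Set (List σ)} (h : ∀ i ∈ I, Good (Ext f (A i))) : Good (Ext f (⋃ i ∈ I, A i)) := by
  convert good_biUnion hI h using 1
  ext w
  simp only [Ext, Set.mem_iUnion, Set.mem_ofPred_eq]
  constructor
  · rintro ⟨e, ⟨i, hi, he⟩, h⟩; exact ⟨i, hi, e, he, h⟩
  · rintro ⟨i, hi, e, he, h⟩; exact ⟨e, ⟨i, hi, he⟩, h⟩

theorem good_word {σ Δ : Type} [Finite σ] [Finite Δ] (f : σ → Δ) (v : List σ) (hv : v ≠ []) :
    Good (Ext f {v}) := by
  have key : ∀ v : List σ, WR f fun e n => e = v ∧ n = v.length := by
    intro v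
    induction v with
    | nil => exact wr_tail f
    | cons a v ih =>
      convert ih.seg ∅ ∅ (fun _ => 0) a 1 using 3 with e n
      constructor
      · rintro ⟨rfl, rfl⟩
        exact ⟨[], v, _, ⟨rfl, rfl⟩, by simp, by simp, rfl, by simp [add_comm]⟩
      · rintro ⟨b, _, _, ⟨rfl, rfl⟩, h, -, rfl, rfl⟩
        obtain rfl : b = [] := List.eq_nil_iff_forall_not_mem.2 h
        simp [add_comm]
  convert (key v).good using 2
  ext e
  have := List.length_pos_of_ne_nil hv
  simp only [Set.mem_singleton_iff, Set.mem_ofPred_eq]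
  exact ⟨fun h => ⟨_, by exact_mod_cast this, h, rfl⟩, fun ⟨_, _, h, _⟩ => h⟩

/-- The error test: wrong register, or a unary count that contradicts the affine rule. -/
def Bad (c : Fin (k + 1) × Bool) (j : Fin (k + 1)) (a β : ℤ)
    (b b' : List (Fin (k + 1) × Bool)) : Prop :=
  b'.countP (fun y => !y.2) ≠ c.1.val ∨
    if c.2 = true then a * b.count (j, true) + β ≤ b'.count (c.1, true)
    else (b'.count (c.1, true) : ℤ) < a * b.count (j, true) + β

theorem good_bad {Δ : Type} [Finite Δ] (f : Fin (k + 1) × Bool → Δ) (z : Set (Fin (k + 1)))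
    (c : Fin (k + 1) × Bool) (j : Fin (k + 1)) (a β : ℤ) :
    Good (Ext f (Pat z c (Bad c j a β))) := by
  let s : ℤ := if c.2 = true then 1 else -1
  have := ((good_pat f z c (fun _ => 0) (fun y => if (!y.2) = true then 1 else 0) (-c.1.val)).union
    (good_pat f z c (fun _ => 0) (fun y => if (!y.2) = true then -1 else 0) c.1.val)).union
    (good_pat f z c (fun y => if (y == (j, true)) = true then -s * a else 0)
      (fun y => if (y == (c.1, true)) = true then s else 0) (-s * β + if c.2 = true then 1 else 0))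
  rw [← ext_union, ← ext_union] at this
  convert this using 2
  ext e
  simp only [Pat, Set.mem_union, Set.mem_ofPred_eq, sum_ite, List.map_const', List.sum_replicate,
    smul_zero, ← List.count_eq_countP, ← exists_or, ← and_or_left, Bad]
  refine exists₃_congr fun p b b' => and_congr_right' (and_congr_right' (and_congr_right'
    (and_congr_right' ?_)))
  simp only [s]
  split_ifs
  · constructor
    · rintro (h | h)
      · left; omega
      · right; linarith
    · rintro (h | h)
      · left; omega
      · right; linarith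
  · constructor
    · rintro (h | h)
      · left; omega
      · right; linarith
    · rintro (h | h)
      · left; omega
      · right; linarith

theorem zero_set (t : ℕ) {b : List (Fin (k + 1) × Bool)}
    (h : b ++ [(Fin.last k, false)] = blk x t (k + 1)) :
    (∀ j, b.count (j, true) = x t j) ∧ {j | (j, true) ∉ b} = {j | x t j = 0} := by
  have h1 : ∀ j, b.count (j, true) = x t j := by
    intro j
    have := count_reg_blk x t j _ le_rfl
    rw [← h, if_pos j.2] at this
    simpa using this
  refine ⟨h1, ?_⟩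
  ext j
  simp only [Set.mem_ofPred_eq, ← h1, List.count_eq_zero]

theorem bad_iff {t e : ℕ} {i : Fin (k + 1)} (c : Fin (k + 1) × Bool)
    {j : Fin (k + 1)} {a β : ℤ} {b : List (Fin (k + 1) × Bool)} (hb : b.count (j, true) = x t j)
    (hR : (x (t + 1) c.1 : ℤ) = a * x t j + β) :
    Bad c j a β b (blk x (t + 1) i ++ List.replicate e (i, true)) ↔
      c ≠ (i, decide (e < x (t + 1) i)) := by
  obtain ⟨i', d⟩ := c
  simp only [Bad, List.countP_append, countP_sep_blk, List.countP_replicate, hb, ← hR,
    List.count_append, count_reg_blk x (t + 1) i' i i.2.le, List.count_replicate]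
  by_cases h : i = i'
  · subst h
    cases d <;> simp
  · simp [Fin.val_inj, h, Ne.symm h]

theorem exists_err (hA : Aff x) {Δ : Type} [Finite Δ] (f : Fin (k + 1) × Bool → Δ) :
    ∃ A : Set (List (Fin (k + 1) × Bool)), Good (Ext f A) ∧ (∀ e ∈ A, ¬ Valid x e) ∧
      ∀ u, ¬ Valid x u → ∃ e ∈ A, e <+: u := by
  choose J a β hR using hA
  refine ⟨(⋃ v ∈ {v | v.length ≤ (hist x 1).length ∧ ¬ Valid x v}, {v}) ∪
    ⋃ θ ∈ (Set.univ : Set (Set (Fin (k + 1)) × (Fin (k + 1) × Bool))),
      Pat θ.1 θ.2 (Bad θ.2 (J θ.1 θ.2.1) (a θ.1 θ.2.1) (β θ.1 θ.2.1)), ?_, ?_, ?_⟩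
  · rw [ext_union]
    refine (good_ext_biUnion f ((List.finite_length_le _ _).subset fun v hv => hv.1)
      fun v hv => good_word f v ?_).union
      (good_ext_biUnion f Set.finite_univ fun θ _ => good_bad f _ _ _ _ _)
    rintro rfl
    exact hv.2 ⟨0, List.nil_prefix⟩
  · rintro e (h | h) hv
    · simp only [Set.mem_iUnion, Set.mem_singleton_iff] at h
      obtain ⟨v, h1, rfl⟩ := h
      exact h1.2 hv
    · simp only [Set.mem_iUnion] at h
      obtain ⟨⟨z, c⟩, -, p, b, b', h1, h2, h3, rfl, h4⟩ := h
      obtain ⟨t, ht⟩ := dec_hist (hv.pre (u := p ++ [(Fin.last k, false)]) ⟨_, by simp; rfl⟩)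
      replace hv : Valid x (hist x t ++ b ++ [(Fin.last k, false)] ++ b' ++ [c]) := by
        simpa [← ht] using hv
      have hv1 := hv.pre (List.prefix_append _ _)
      have hv2 := hv1.pre (List.prefix_append _ _)
      obtain ⟨i, e, he, hb⟩ := dec_part (hv2.pre (List.prefix_append _ _)) h1
      obtain ⟨rfl, rfl⟩ := sep_next he (by rwa [pos, ← hb])
      have hb' : b ++ [(Fin.last k, false)] = blk x t (k + 1) := by rw [hb, blk_top]; rfl
      rw [List.append_assoc (hist x t), hb', ← hist] at hv hv1
      obtain ⟨i, e, he', rfl⟩ := dec_part hv1 h3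
      obtain ⟨h5, h6⟩ := zero_set t hb'
      exact (bad_iff c (h5 _) (hR z c.1 t (h6 ▸ h2))).1 h4 (next_eq he' hv)
  · intro u hu
    induction u using List.reverseRecOn with
    | nil => exact (hu ⟨0, List.nil_prefix⟩).elim
    | append_singleton u c ih =>
      by_cases hv : Valid x u
      swap
      · obtain ⟨e, h1, h2⟩ := ih hv
        exact ⟨e, h1, h2.trans (List.prefix_append _ _)⟩
      refine ⟨_, ?_, List.prefix_rfl⟩
      by_cases hl : (u ++ [c]).length ≤ (hist x 1).length
      · exact Or.inl (Set.mem_biUnion (x := u ++ [c]) ⟨hl, hu⟩ rfl)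
      obtain ⟨t, i, e, he, rfl⟩ := valid_pos hv (by
        rintro rfl
        simp [hist] at hl)
      cases t with
      | zero => exact (hl (by simpa using (pos_next he).length_le)).elim
      | succ t =>
        obtain ⟨p, hp⟩ := hist_last x t
        obtain ⟨h5, h6⟩ := zero_set t (blk_top x t).symm
        refine Or.inr (Set.mem_biUnion (x := ({j | x t j = 0}, c)) trivial
          ⟨p, _, blk x (t + 1) i ++ List.replicate e (i, true), ?_, h6, ?_,
          by simp [pos, hist, hp, blk_top], (bad_iff c (h5 _) (hR _ c.1 t rfl)).2 ?_⟩)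
        · rw [← List.count_eq_zero]
          simp [count_sep_blk x t k le_rfl, List.count_replicate]
        · rw [← List.count_eq_zero]
          simp [count_sep_blk x (t + 1) i (Nat.lt_succ_iff.1 i.2), List.count_replicate]
        · rintro rfl
          exact hu ⟨_, pos_next he⟩

end

theorem exists_lang {ι : Type} [Finite ι] (x : ℕ → ι → ℕ) (i₀ i₁ : ι) (hA : Aff x)
    (hb : ∀ t i, x t i ≤ 2 ^ t) (h₀ : ∀ t, x t i₀ = 2 ^ t) :
    ∃ (X : Type) (_ : Fintype X) (L : Language X) (c : ℕ), L.IsContextFree ∧
      (∀ t n, c * 2 ^ t ≤ n → 2 ^ (∑ j ∈ Finset.range t, x j i₁) ≤ index L n) ∧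
      ∀ t n, n ≤ 2 ^ t →
        index L n ≤ c * (n + 1) ^ 2 + c * 2 ^ (∑ j ∈ Finset.range t, x j i₁) := by
  obtain ⟨k', ⟨g⟩⟩ := Finite.exists_equiv_fin ι
  obtain ⟨k, rfl⟩ : ∃ k, k' = k + 1 := ⟨k' - 1, by have := (g i₀).2; omega⟩
  let y : ℕ → Fin (k + 1) → ℕ := fun t i => x t (g.symm i)
  have hA' : Aff y := by
    intro z i
    obtain ⟨j, a, b, h⟩ := hA (g ⁻¹' z) (g.symm i)
    refine ⟨g j, a, b, fun t ht => ?_⟩
    simp only [y, Equiv.symm_apply_apply]
    refine h t ?_
    rw [← ht]
    ext l
    simp [y]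
  have h₀' : ∀ t, y t (g i₀) = 2 ^ t := fun t => by simp [y, h₀]
  obtain ⟨A, h1, h2, h3⟩ := exists_err hA' (inl : _ → (Fin (k + 1) × Bool) ⊕ Br)
  obtain ⟨L, c, h4, h5, h6⟩ := core (Valid y) (fun a => a == (g i₁, true)) A h1
    (fun _ _ => Valid.pre) h2 h3 (aperiodic h₀')
  have hm : ∀ t, (hist y t).countP (fun a => a == (g i₁, true)) =
      ∑ j ∈ Finset.range t, x j i₁ := by
    intro t
    rw [← List.count_eq_countP, count_reg_hist]
    simp [y]
  refine ⟨_, inferInstance, L, c + 4 * (k + 1) + 3, h4, fun t n hn => ?_, fun t n hn => ?_⟩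
  · rw [← hm]
    refine h5 _ n ⟨t, List.prefix_rfl⟩ ?_
    have := hist_length_le (x := y) (fun t i => hb t _) t
    have := Nat.one_le_two_pow (n := t)
    nlinarith [Nat.zero_le (c * 2 ^ t)]
  · refine (h6 n _ fun u hu hl => ?_).trans (Nat.add_le_add (Nat.mul_le_mul_right _ (by omega))
      (Nat.mul_le_mul_right _ (by omega)))
    rw [← hm]
    exact (hu.pre_of_le ⟨t, List.prefix_rfl⟩
      (hl.trans (hn.trans (hist_length_ge h₀' t)))).sublist.countP_le

end Pool.Agent.Lib.MP_275d83_lc
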