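import Pool.Agent.Lib.MP_275d83_lc.Lim
import Pool.Agent.Lib.MP_1ebeae_al.Machine

/-! A register system that runs a slow program and doubles a mark register periodically. -/

namespace Pool.Agent.Lib.MP_275d83_lc

open Pool.Agent.Lib.MP_1ebeae_al Function

theorem aff_of_mode {ι K : Type} (x : ℕ → ι → ℕ) (κ : ℕ → K)
    (h1 : ∀ t t', {l | x t l = 0} = {l | x t' l = 0} → κ t = κ t')
    (h2 : ∀ (k : K) (i : ι), ∃ (j : ι) (a b : ℤ), ∀ t, κ t = k →
      (x (t + 1) i : ℤ) = a * x t j + b) : Aff x := by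
  intro z i
  by_cases hz : ∃ t₀, {l | x t₀ l = 0} = z
  · obtain ⟨t₀, ht₀⟩ := hz
    obtain ⟨j, a, b, h⟩ := h2 (κ t₀) i
    exact ⟨j, a, b, fun t ht => h t (h1 t t₀ (ht.trans ht₀.symm))⟩
  · exact ⟨i, 0, 0, fun t ht => absurd ⟨t, ht⟩ hz⟩

theorem exists_call (f : ℕ → ℕ → ℕ) (hf : Primrec₂ f) (o : ℕ) (h2 : 2 ≤ o) (ho : o < 6) :
    ∃ P : Prog, ∀ σ : ℕ → ℕ, (∀ j, 6 ≤ j → σ j = 0) →
      Exec P σ (update σ o (σ o + f (σ 0) (σ 1))) := by
  obtain ⟨G, hG⟩ := computes_of_prim (Nat.Primrec'.prim_iff₂.2 hf) ![0, 1] o 6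
    (by decide) ho (by
      intro i
      fin_cases i
      · show 0 ≠ o
        omega
      · show 1 ≠ o
        omega)
  exact ⟨G, fun σ hσ => (hG σ hσ).of_eq (by simp [List.Vector.head_ofFn, List.Vector.tail_ofFn])⟩

/-- The registers at the start of a phase. -/
def initReg (a b : ℕ) : ℕ → ℕ := fun j => if j = 0 then a else if j = 1 then b else 0

theorem exists_prog4 (FP FZ FM V : ℕ → ℕ → ℕ) (hP : Primrec₂ FP) (hZ : Primrec₂ FZ)
    (hM : Primrec₂ FM) (hV : Primrec₂ V) :
    ∃ G : Prog, ∀ a b, ∃ σ', Exec G (initReg a b) σ' ∧ σ' 2 = FP a b ∧ σ' 3 = FZ a b ∧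
      σ' 4 = FM a b ∧ σ' 5 = V a b := by
  obtain ⟨P1, h1⟩ := exists_call FP hP 2 (by omega) (by omega)
  obtain ⟨P2, h2⟩ := exists_call FZ hZ 3 (by omega) (by omega)
  obtain ⟨P3, h3⟩ := exists_call FM hM 4 (by omega) (by omega)
  obtain ⟨P4, h4⟩ := exists_call V hV 5 (by omega) (by omega)
  refine ⟨.seq P1 (.seq P2 (.seq P3 P4)), fun a b => ?_⟩
  have h0 : ∀ j, 6 ≤ j → initReg a b j = 0 := fun j hj => by
    simp only [initReg]
    rw [if_neg (by omega), if_neg (by omega)]
  refine ⟨_, Exec.seq (h1 _ h0) (.seq (h2 _ fun j hj => ?_) (.seq (h3 _ fun j hj => ?_)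
    (h4 _ fun j hj => ?_))), ?_, ?_, ?_, ?_⟩
  · rw [update_of_ne (by omega), h0 j hj]
  · rw [update_of_ne (by omega), update_of_ne (by omega), h0 j hj]
  · rw [update_of_ne (by omega), update_of_ne (by omega), update_of_ne (by omega), h0 j hj]
  all_goals simp [initReg]

theorem step_nil (G : Prog) (σ : ℕ → ℕ) : (cmach G).step ([], σ) = ([], σ) := by
  simp [Mach.step, cmach, cinc, cdec, cnext]

theorem iter_nil (G : Prog) (σ : ℕ → ℕ) (n : ℕ) : (cmach G).step^[n] ([], σ) = ([], σ) :=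
  iterate_fixed (step_nil G σ) n

theorem step_le (G : Prog) (y : List Prog × (ℕ → ℕ)) (j : ℕ) :
    ((cmach G).step y).2 j ≤ y.2 j + 1 := by
  simp only [Mach.step]
  split_ifs <;> omega

theorem iter_le (G : Prog) (y : List Prog × (ℕ → ℕ)) (j n : ℕ) :
    ((cmach G).step^[n] y).2 j ≤ y.2 j + n := by
  induction n with
  | zero => simp
  | succ n ih =>
    rw [iterate_succ_apply']
    have := step_le G ((cmach G).step^[n] y) j
    omega

theorem exists_halt (G : Prog) {σ σ' : ℕ → ℕ} (h : Exec G σ σ') :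
    ∃ H, (cmach G).step^[H] ([G], σ) = ([], σ') ∧
      ∀ r < H, ((cmach G).step^[r] ([G], σ)).1 ≠ [] := by
  classical
  obtain ⟨t, ht⟩ := h.steps G []
  have hex : ∃ r, ((cmach G).step^[r] ([G], σ)).1 = [] := ⟨t, congrArg Prod.fst ht⟩
  refine ⟨Nat.find hex, ?_, fun r hr => Nat.find_min hex hr⟩
  have hle : Nat.find hex ≤ t := Nat.find_min' hex (congrArg Prod.fst ht)
  have h1 := Nat.find_spec hex
  obtain ⟨d, hd⟩ := Nat.exists_eq_add_of_le' hle
  have h2 : (cmach G).step^[Nat.find hex] ([G], σ) =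
      ([], ((cmach G).step^[Nat.find hex] ([G], σ)).2) := Prod.ext h1 rfl
  rw [hd, iterate_add_apply, h2, iter_nil] at ht
  rw [h2, ht]

/-- The state of the register system. -/
structure St where
  c : List Prog
  σ : ℕ → ℕ
  D : ℕ
  P : ℕ
  Z : ℕ
  u : ℕ
  v : ℕ

/-- One tick at time `t`. -/
def tick (G : Prog) (t : ℕ) (s : St) : St :=
  if s.c = [] then
    ⟨[G], initReg (s.σ 4) (t + 1), if s.u ≠ 0 ∨ s.v = 0 then s.D + 1 else s.D,
      s.σ 2, s.σ 3, 0, 0⟩
  else
    ⟨((cmach G).step (s.c, s.σ)).1, ((cmach G).step (s.c, s.σ)).2,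
      if s.u ≠ 0 ∨ s.v = 0 then s.D + 1 else s.D, s.P, s.Z,
      if s.u ≠ 0 then s.u - 1 else if s.v ≠ 0 then 0 else s.P,
      if s.u ≠ 0 then s.v else if s.v ≠ 0 then s.v - 1 else s.Z⟩

/-- The run of the register system. -/
def st (G : Prog) : ℕ → St
  | 0 => ⟨[G], initReg 0 0, 0, 0, 0, 0, 0⟩
  | t + 1 => tick G t (st G t)

theorem st_D (G : Prog) (t : ℕ) : (st G (t + 1)).D =
    if (st G t).u ≠ 0 ∨ (st G t).v = 0 then (st G t).D + 1 else (st G t).D := by
  simp only [st, tick]
  split_ifs <;> rfl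

theorem st_nil (G : Prog) (t : ℕ) (h : (st G t).c = []) : st G (t + 1) =
    ⟨[G], initReg ((st G t).σ 4) (t + 1),
      if (st G t).u ≠ 0 ∨ (st G t).v = 0 then (st G t).D + 1 else (st G t).D,
      (st G t).σ 2, (st G t).σ 3, 0, 0⟩ := by
  simp only [st, tick, if_pos h]

theorem st_cons (G : Prog) (t : ℕ) (h : (st G t).c ≠ []) : st G (t + 1) =
    ⟨((cmach G).step ((st G t).c, (st G t).σ)).1, ((cmach G).step ((st G t).c, (st G t).σ)).2,
      if (st G t).u ≠ 0 ∨ (st G t).v = 0 then (st G t).D + 1 else (st G t).D,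
      (st G t).P, (st G t).Z,
      if (st G t).u ≠ 0 then (st G t).u - 1 else if (st G t).v ≠ 0 then 0 else (st G t).P,
      if (st G t).u ≠ 0 then (st G t).v else if (st G t).v ≠ 0 then (st G t).v - 1
        else (st G t).Z⟩ := by
  simp only [st, tick, if_neg h]

theorem st_mem (G : Prog) (t : ℕ) : (st G t).c ∈ [] :: conts G [] := by
  induction t with
  | zero => exact List.mem_cons_of_mem _ (self_mem_conts G [])
  | succ t ih =>
    by_cases h : (st G t).c = []
    · rw [st_nil G t h]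
      exact List.mem_cons_of_mem _ (self_mem_conts G [])
    · rw [st_cons G t h]
      rcases List.mem_cons.1 ih with h' | h'
      · exact absurd h' h
      · exact List.mem_cons.2 (conts_closed G [] _ h' _).symm

theorem st_bound (G : Prog) (t : ℕ) : (∀ j, (st G t).σ j ≤ 2 ^ t) ∧ (st G t).D ≤ t ∧
    (st G t).P ≤ 2 ^ t ∧ (st G t).Z ≤ 2 ^ t ∧ (st G t).u ≤ 2 ^ t ∧ (st G t).v ≤ 2 ^ t := by
  induction t with
  | zero =>
    refine ⟨fun j => ?_, ?_⟩
    · simp only [st, initReg]
      split_ifs <;> omega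
    · simp [st]
  | succ t ih =>
    obtain ⟨h1, h2, h3, h4, h5, h6⟩ := ih
    have e1 : 2 ^ (t + 1) = 2 * 2 ^ t := by ring
    have e2 : t < 2 ^ t := Nat.lt_two_pow_self
    by_cases h : (st G t).c = []
    · rw [st_nil G t h]
      have := h1 2
      have := h1 3
      have := h1 4
      refine ⟨fun j => ?_, ?_, ?_, ?_, ?_, ?_⟩
      · simp only [initReg]
        split_ifs <;> omega
      · simp only
        split_ifs <;> omega
      all_goals simp only; omega
    · rw [st_cons G t h]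
      refine ⟨fun j => ?_, ?_, ?_, ?_, ?_, ?_⟩
      · have h7 := step_le G ((st G t).c, (st G t).σ) j
        have := h1 j
        simp only at h7 ⊢
        omega
      · simp only
        split_ifs <;> omega
      · simp only; omega
      · simp only; omega
      · simp only
        split_ifs <;> omega
      · simp only
        split_ifs <;> omega

theorem succ_mod_cases (n L : ℕ) (hL : 0 < L) :
    (n % L + 1 = L ∧ (n + 1) % L = 0) ∨ (n % L + 1 < L ∧ (n + 1) % L = n % L + 1) := by
  have h1 := Nat.mod_lt n hL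
  have h2 : (n + 1) % L = (n % L + 1) % L := (Nat.mod_add_mod n L 1).symm
  rcases Nat.lt_or_ge (n % L + 1) L with h | h
  · exact Or.inr ⟨h, by rw [h2, Nat.mod_eq_of_lt h]⟩
  · have h3 : n % L + 1 = L := by omega
    exact Or.inl ⟨h3, by rw [h2, h3, Nat.mod_self]⟩

theorem uv_step (p z e e' u v : ℕ)
    (h : (e + 1 = p + 1 + z ∧ e' = 0) ∨ (e + 1 < p + 1 + z ∧ e' = e + 1))
    (hu : u = if e = 0 then 0 else p + 1 - e)
    (hv : v = if e = 0 then 0 else min z (p + 1 + z - e)) :
    ((if u ≠ 0 then u - 1 else if v ≠ 0 then 0 else p) = if e' = 0 then 0 else p + 1 - e') ∧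
    ((if u ≠ 0 then v else if v ≠ 0 then v - 1 else z) =
      if e' = 0 then 0 else min z (p + 1 + z - e')) := by
  constructor <;> split_ifs at hu hv ⊢ <;> omega

/-- The course of one phase. -/
theorem st_phase (G : Prog) (t₀ H p z : ℕ) (σ : ℕ → ℕ) (hc : (st G t₀).c = [G])
    (hσ : (st G t₀).σ = σ) (hp : (st G t₀).P = p) (hz : (st G t₀).Z = z)
    (hu : (st G t₀).u = 0) (hv : (st G t₀).v = 0)
    (hH : ∀ r < H, ((cmach G).step^[r] ([G], σ)).1 ≠ []) (n : ℕ) (hn : n ≤ H) :
    ((st G (t₀ + n)).c, (st G (t₀ + n)).σ) = (cmach G).step^[n] ([G], σ) ∧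
      (st G (t₀ + n)).P = p ∧ (st G (t₀ + n)).Z = z ∧
      (st G (t₀ + n)).u = (if n % (p + 1 + z) = 0 then 0 else p + 1 - n % (p + 1 + z)) ∧
      (st G (t₀ + n)).v =
        if n % (p + 1 + z) = 0 then 0 else min z (p + 1 + z - n % (p + 1 + z)) := by
  induction n with
  | zero => simp [hc, hσ, hp, hz, hu, hv]
  | succ n ih =>
    obtain ⟨h1, h2, h3, h4, h5⟩ := ih (by omega)
    have hne : (st G (t₀ + n)).c ≠ [] := by
      have := hH n (by omega)
      rw [← h1] at this
      exact this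
    rw [← add_assoc, st_cons G _ hne, iterate_succ_apply', ← h1]
    have := uv_step p z _ _ _ _ (succ_mod_cases n (p + 1 + z) (by omega)) h4 h5
    refine ⟨rfl, h2, h3, ?_, ?_⟩
    · rw [← this.1, ← h2]
    · rw [← this.2, ← h3]

/-- The registers. -/
noncomputable def regs (G : Prog) (S : Finset (List Prog)) (B : ℕ) (t : ℕ) : S ⊕ Fin B ⊕ Fin 7 → ℕ
  | .inl c => by classical exact if (st G t).c = c.1 then 1 else 0
  | .inr (.inl j) => (st G t).σ j
  | .inr (.inr i) =>
    ![2 ^ t, 2 ^ (st G t).D, t, (st G t).P, (st G t).Z, (st G t).u, (st G t).v] i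

theorem regs_le (G : Prog) (S : Finset (List Prog)) (B t : ℕ) (i : S ⊕ Fin B ⊕ Fin 7) :
    regs G S B t i ≤ 2 ^ t := by
  obtain ⟨h1, h2, h3, h4, h5, h6⟩ := st_bound G t
  rcases i with c | j | i
  · have : 0 < 2 ^ t := by positivity
    simp only [regs]
    split_ifs <;> omega
  · exact h1 j
  · have h7 : 2 ^ (st G t).D ≤ 2 ^ t := Nat.pow_le_pow_right (by omega) h2
    have h8 : t ≤ 2 ^ t := Nat.lt_two_pow_self.le
    fin_cases i
    · exact le_rfl
    · exact h7
    · exact h8
    · exact h3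
    · exact h4
    · exact h5
    · exact h6

theorem regs_aff (G : Prog) (S : Finset (List Prog)) (B : ℕ) (hS : ∀ t, (st G t).c ∈ S)
    (hB : 5 < B) (hB' : ∀ c ∈ S, creg c < B) : Aff (regs G S B) := by
  classical
  refine aff_of_mode (K := List Prog × Prop × Prop × Prop) _
    (fun t => ((st G t).c, (st G t).σ (creg (st G t).c) = 0, (st G t).u = 0, (st G t).v = 0))
    ?_ ?_
  · intro t t' h
    have h' : ∀ l, regs G S B t l = 0 ↔ regs G S B t' l = 0 := fun l => Set.ext_iff.1 h l
    have hc : (st G t').c = (st G t).c := by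
      have := h' (.inl ⟨_, hS t⟩)
      simp only [regs, if_true, one_ne_zero, false_iff] at this
      by_contra hne
      exact this (if_neg hne)
    have h1 := h' (.inr (.inl ⟨_, hB' _ (hS t)⟩))
    have h2 := h' (.inr (.inr 5))
    have h3 := h' (.inr (.inr 6))
    simp only [hc, Prod.mk.injEq, true_and, eq_iff_iff]
    exact ⟨h1, h2, h3⟩
  · rintro ⟨c, b, bu, bv⟩ i
    have key : ∀ (j : S ⊕ Fin B ⊕ Fin 7) (a a' : ℤ),
        (∀ t, (st G t).c = c → ((st G t).σ (creg c) = 0 ↔ b) → ((st G t).u = 0 ↔ bu) →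
          ((st G t).v = 0 ↔ bv) → (regs G S B (t + 1) i : ℤ) = a * regs G S B t j + a') →
        ∃ (j : S ⊕ Fin B ⊕ Fin 7) (a a' : ℤ), ∀ t,
          ((st G t).c, (st G t).σ (creg (st G t).c) = 0, (st G t).u = 0, (st G t).v = 0) =
            (c, b, bu, bv) → (regs G S B (t + 1) i : ℤ) = a * regs G S B t j + a' := by
      intro j a a' h
      refine ⟨j, a, a', fun t ht => ?_⟩
      simp only [Prod.mk.injEq, eq_iff_iff] at ht
      obtain ⟨e1, e2, e3, e4⟩ := ht
      exact h t e1 (e1 ▸ e2) e3 e4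
    rcases i with c' | j | i
    · by_cases hc : c = []
      · refine key (.inl c') 0 (if [G] = c'.1 then 1 else 0) fun t e1 _ _ _ => ?_
        simp only [regs, st_nil G t (e1.trans hc)]
        split_ifs <;> simp
      · refine key (.inl c') 0 (if cnext c (decide b) = c'.1 then 1 else 0) fun t e1 e2 _ _ => ?_
        have e : (st G (t + 1)).c = cnext c (decide b) := by
          rw [st_cons G t (e1 ▸ hc)]
          simp only [Mach.step, cmach, e1, e2]
        simp only [regs, e]
        split_ifs <;> simp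
    · by_cases hc : c = []
      · by_cases hj0 : j.1 = 0
        · refine key (.inr (.inl ⟨4, by omega⟩)) 1 0 fun t e1 _ _ _ => ?_
          simp [regs, st_nil G t (e1.trans hc), initReg, hj0]
        · by_cases hj1 : j.1 = 1
          · refine key (.inr (.inr 2)) 1 1 fun t e1 _ _ _ => ?_
            simp [regs, st_nil G t (e1.trans hc), initReg, hj1]
          · refine key (.inr (.inr 2)) 0 0 fun t e1 _ _ _ => ?_
            simp [regs, st_nil G t (e1.trans hc), initReg, hj0, hj1]
      · have e : ∀ t, (st G t).c = c → (st G (t + 1)).σ j =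
            if j.1 = creg c ∧ cinc c = true then (st G t).σ j + 1
            else if j.1 = creg c ∧ cdec c = true then (st G t).σ j - 1 else (st G t).σ j := by
          intro t e1
          rw [st_cons G t (e1 ▸ hc)]
          simp only [Mach.step, cmach, e1]
        by_cases h1 : j.1 = creg c ∧ cinc c = true
        · refine key (.inr (.inl j)) 1 1 fun t e1 _ _ _ => ?_
          simp only [regs, e t e1, if_pos h1]
          push_cast
          ring
        · by_cases h2 : j.1 = creg c ∧ cdec c = true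
          · by_cases hb : b
            · refine key (.inr (.inl j)) 0 0 fun t e1 e2 _ _ => ?_
              have := e2.2 hb
              rw [← h2.1] at this
              simp only [regs, e t e1, if_neg h1, if_pos h2]
              omega
            · refine key (.inr (.inl j)) 1 (-1) fun t e1 e2 _ _ => ?_
              have : (st G t).σ (creg c) ≠ 0 := fun h => hb (e2.1 h)
              rw [← h2.1] at this
              simp only [regs, e t e1, if_neg h1, if_pos h2]
              omega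
          · refine key (.inr (.inl j)) 1 0 fun t e1 _ _ _ => ?_
            simp only [regs, e t e1, if_neg h1, if_neg h2]
            omega
    · have r0 : ∀ t, regs G S B t (.inr (.inr 0)) = 2 ^ t := fun _ => rfl
      have r1 : ∀ t, regs G S B t (.inr (.inr 1)) = 2 ^ (st G t).D := fun _ => rfl
      have r2 : ∀ t, regs G S B t (.inr (.inr 2)) = t := fun _ => rfl
      have r3 : ∀ t, regs G S B t (.inr (.inr 3)) = (st G t).P := fun _ => rfl
      have r4 : ∀ t, regs G S B t (.inr (.inr 4)) = (st G t).Z := fun _ => rfl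
      have r5 : ∀ t, regs G S B t (.inr (.inr 5)) = (st G t).u := fun _ => rfl
      have r6 : ∀ t, regs G S B t (.inr (.inr 6)) = (st G t).v := fun _ => rfl
      have rs : ∀ t (j : Fin B), regs G S B t (.inr (.inl j)) = (st G t).σ j := fun _ _ => rfl
      have hi : i = 0 ∨ i = 1 ∨ i = 2 ∨ i = 3 ∨ i = 4 ∨ i = 5 ∨ i = 6 := by
        fin_cases i <;> simp
      rcases hi with rfl | rfl | rfl | rfl | rfl | rfl | rfl
      · refine key (.inr (.inr 0)) 2 0 fun t _ _ _ _ => ?_
        rw [r0, r0]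
        push_cast
        ring
      · by_cases hb : ¬ bu ∨ bv
        · refine key (.inr (.inr 1)) 2 0 fun t _ _ e3 e4 => ?_
          rw [r1, r1, st_D, if_pos (by rw [ne_eq, e3, e4]; exact hb)]
          push_cast
          ring
        · refine key (.inr (.inr 1)) 1 0 fun t _ _ e3 e4 => ?_
          rw [r1, r1, st_D, if_neg (by rw [ne_eq, e3, e4]; exact hb)]
          ring
      · refine key (.inr (.inr 2)) 1 1 fun t _ _ _ _ => ?_
        rw [r2, r2]
        push_cast
        ring
      · by_cases hc : c = []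
        · refine key (.inr (.inl ⟨2, by omega⟩)) 1 0 fun t e1 _ _ _ => ?_
          rw [r3, rs, st_nil G t (e1.trans hc)]
          simp
        · refine key (.inr (.inr 3)) 1 0 fun t e1 _ _ _ => ?_
          rw [r3, r3, st_cons G t (e1 ▸ hc)]
          simp
      · by_cases hc : c = []
        · refine key (.inr (.inl ⟨3, by omega⟩)) 1 0 fun t e1 _ _ _ => ?_
          rw [r4, rs, st_nil G t (e1.trans hc)]
          simp
        · refine key (.inr (.inr 4)) 1 0 fun t e1 _ _ _ => ?_
          rw [r4, r4, st_cons G t (e1 ▸ hc)]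
          simp
      · by_cases hc : c = []
        · refine key (.inr (.inr 0)) 0 0 fun t e1 _ _ _ => ?_
          rw [r5, st_nil G t (e1.trans hc)]
          simp
        · by_cases hu : bu
          · by_cases hv : bv
            · refine key (.inr (.inr 3)) 1 0 fun t e1 _ e3 e4 => ?_
              rw [r5, r3, st_cons G t (e1 ▸ hc)]
              simp [e3.2 hu, e4.2 hv]
            · refine key (.inr (.inr 3)) 0 0 fun t e1 _ e3 e4 => ?_
              have : (st G t).v ≠ 0 := fun h => hv (e4.1 h)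
              rw [r5, st_cons G t (e1 ▸ hc)]
              simp [e3.2 hu, this]
          · refine key (.inr (.inr 5)) 1 (-1) fun t e1 _ e3 _ => ?_
            have : (st G t).u ≠ 0 := fun h => hu (e3.1 h)
            rw [r5, r5, st_cons G t (e1 ▸ hc)]
            simp only [if_pos this]
            omega
      · by_cases hc : c = []
        · refine key (.inr (.inr 0)) 0 0 fun t e1 _ _ _ => ?_
          rw [r6, st_nil G t (e1.trans hc)]
          simp
        · by_cases hu : bu
          · by_cases hv : bv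
            · refine key (.inr (.inr 4)) 1 0 fun t e1 _ e3 e4 => ?_
              rw [r6, r4, st_cons G t (e1 ▸ hc)]
              simp [e3.2 hu, e4.2 hv]
            · refine key (.inr (.inr 6)) 1 (-1) fun t e1 _ e3 e4 => ?_
              have h1 : (st G t).v ≠ 0 := fun h => hv (e4.1 h)
              have h2 : ¬ (st G t).u ≠ 0 := fun h => h (e3.2 hu)
              rw [r6, r6, st_cons G t (e1 ▸ hc)]
              simp only [if_pos h1, if_neg h2]
              omega
          · refine key (.inr (.inr 6)) 1 0 fun t e1 _ e3 _ => ?_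
            have : (st G t).u ≠ 0 := fun h => hu (e3.1 h)
            rw [r6, r6, st_cons G t (e1 ▸ hc)]
            simp only [if_pos this]
            omega

theorem exists_run (FP FZ FM V : ℕ → ℕ → ℕ) (hP : Primrec₂ FP) (hZ : Primrec₂ FZ)
    (hM : Primrec₂ FM) (hV : Primrec₂ V) :
    ∃ (ι : Type) (_ : Finite ι) (x : ℕ → ι → ℕ) (i₀ i₁ : ι) (D T m : ℕ → ℕ),
      Aff x ∧ (∀ t i, x t i ≤ 2 ^ t) ∧ (∀ t, x t i₀ = 2 ^ t) ∧ (∀ t, x t i₁ = 2 ^ D t) ∧
      D 0 = 0 ∧ (∀ t, D t ≤ D (t + 1) ∧ D (t + 1) ≤ D t + 1) ∧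
      (∀ s, T s + V (m s) (T s) < T (s + 1)) ∧ (∀ s, m (s + 1) = FM (m s) (T s)) ∧
      ∀ s t, T (s + 1) ≤ t → t < T (s + 2) → D (t + 1) = D t +
        if (t - T (s + 1)) % (FP (m s) (T s) + 1 + FZ (m s) (T s)) < FP (m s) (T s) + 1
        then 1 else 0 := by
  classical
  obtain ⟨G, hG⟩ := exists_prog4 FP FZ FM V hP hZ hM hV
  have hH : ∀ a b, ∃ H, (∃ σ', (cmach G).step^[H] ([G], initReg a b) = ([], σ') ∧
      σ' 2 = FP a b ∧ σ' 3 = FZ a b ∧ σ' 4 = FM a b) ∧ V a b ≤ H ∧
      ∀ r < H, ((cmach G).step^[r] ([G], initReg a b)).1 ≠ [] := by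
    intro a b
    obtain ⟨σ', h0, h2, h3, h4, h5⟩ := hG a b
    obtain ⟨H, h6, h7⟩ := exists_halt G h0
    refine ⟨H, ⟨σ', h6, h2, h3, h4⟩, ?_, h7⟩
    have := iter_le G ([G], initReg a b) 5 H
    rw [h6] at this
    simpa [initReg, h5] using this
  choose H hH1 hH2 hH3 using hH
  let TM : ℕ → ℕ × ℕ := fun s => Nat.rec (0, 0)
    (fun _ y => (y.1 + H y.2 y.1 + 1, FM y.2 y.1)) s
  let T : ℕ → ℕ := fun s => (TM s).1
  let m : ℕ → ℕ := fun s => (TM s).2
  have hT : ∀ s, T (s + 1) = T s + H (m s) (T s) + 1 := fun _ => rfl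
  have hm : ∀ s, m (s + 1) = FM (m s) (T s) := fun _ => rfl
  have next : ∀ s, (st G (T s)).c = [G] → (st G (T s)).σ = initReg (m s) (T s) →
      (st G (T s)).u = 0 → (st G (T s)).v = 0 →
      (st G (T (s + 1))).c = [G] ∧ (st G (T (s + 1))).σ = initReg (m (s + 1)) (T (s + 1)) ∧
        (st G (T (s + 1))).u = 0 ∧ (st G (T (s + 1))).v = 0 ∧
        (st G (T (s + 1))).P = FP (m s) (T s) ∧ (st G (T (s + 1))).Z = FZ (m s) (T s) := by
    intro s h1 h2 h3 h4
    obtain ⟨σ', h5, h6, h7, h8⟩ := hH1 (m s) (T s)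
    have h9 := (st_phase G (T s) _ _ _ _ h1 h2 rfl rfl h3 h4 (hH3 (m s) (T s)) _ le_rfl).1
    rw [h5, Prod.mk.injEq] at h9
    rw [hm, hT, st_nil G _ h9.1, h9.2, h6, h7, h8]
    exact ⟨rfl, rfl, rfl, rfl, rfl, rfl⟩
  have start : ∀ s, (st G (T s)).c = [G] ∧ (st G (T s)).σ = initReg (m s) (T s) ∧
      (st G (T s)).u = 0 ∧ (st G (T s)).v = 0 := by
    intro s
    induction s with
    | zero => exact ⟨rfl, rfl, rfl, rfl⟩
    | succ s ih =>
      obtain ⟨h1, h2, h3, h4, -⟩ := next s ih.1 ih.2.1 ih.2.2.1 ih.2.2.2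
      exact ⟨h1, h2, h3, h4⟩
  let S : Finset (List Prog) := ([] :: conts G []).toFinset
  let B : ℕ := S.sup creg + 6
  refine ⟨S ⊕ Fin B ⊕ Fin 7, inferInstance, regs G S B, .inr (.inr 0), .inr (.inr 1),
    fun t => (st G t).D, T, m, ?_, regs_le G S B, fun _ => rfl, fun _ => rfl, rfl, ?_, ?_, hm, ?_⟩
  · refine regs_aff G S B (fun t => List.mem_toFinset.2 (st_mem G t)) (by omega) fun c hc => ?_
    have := Finset.le_sup (f := creg) hc
    omega
  · intro t
    simp only [st_D]
    split_ifs <;> omega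
  · intro s
    have := hH2 (m s) (T s)
    rw [hT]
    omega
  · intro s t h1 h2
    obtain ⟨a1, a2, a3, a4⟩ := start s
    obtain ⟨b1, b2, b3, b4, b5, b6⟩ := next s a1 a2 a3 a4
    rw [hT (s + 1)] at h2
    obtain ⟨-, -, -, c1, c2⟩ := st_phase G (T (s + 1)) _ _ _ _ b1 b2 b5 b6 b3 b4
      (hH3 (m (s + 1)) (T (s + 1))) (t - T (s + 1)) (by omega)
    rw [show T (s + 1) + (t - T (s + 1)) = t by omega] at c1 c2
    have hlt := Nat.mod_lt (t - T (s + 1))
      (show 0 < FP (m s) (T s) + 1 + FZ (m s) (T s) by omega)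
    simp only [st_D, c1, c2]
    generalize (t - T (s + 1)) % (FP (m s) (T s) + 1 + FZ (m s) (T s)) = e at *
    split_ifs <;> omega

end Pool.Agent.Lib.MP_275d83_lc
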