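import Pool.Agent.Lib.MP_275d83_lc.Lim

/-! The density of doublings follows a prescribed computable sequence of rationals. -/

namespace Pool.Agent.Lib.MP_275d83_lc

open Filter Topology

/-- Number of `i < e` with `i % (P + Z) < P`. -/
def tkCnt (P Z e : ℕ) : ℕ := P * (e / (P + Z)) + min (e % (P + Z)) P

theorem tkCnt_succ {P Z : ℕ} (hZ : 0 < Z) (e : ℕ) :
    tkCnt P Z (e + 1) = tkCnt P Z e + if e % (P + Z) < P then 1 else 0 := by
  have hN : 0 < P + Z := by omega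
  have hr := Nat.mod_lt e hN
  have he := Nat.div_add_mod e (P + Z)
  unfold tkCnt
  by_cases h : e % (P + Z) + 1 < P + Z
  · have h1 : (e + 1) / (P + Z) = e / (P + Z) ∧ (e + 1) % (P + Z) = e % (P + Z) + 1 :=
      (Nat.div_mod_unique hN).2 ⟨by omega, h⟩
    rw [h1.1, h1.2]
    split_ifs <;> omega
  · have h1 : (e + 1) / (P + Z) = e / (P + Z) + 1 ∧ (e + 1) % (P + Z) = 0 :=
      (Nat.div_mod_unique hN).2 ⟨by rw [Nat.mul_succ]; omega, hN⟩
    rw [h1.1, h1.2, Nat.mul_succ]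
    split_ifs <;> omega

theorem tkCnt_period {P Z : ℕ} (hZ : 0 < Z) : tkCnt P Z (P + Z) = P := by
  have hN : 0 < P + Z := by omega
  unfold tkCnt
  rw [Nat.div_self hN, Nat.mod_self]
  omega

theorem tkCnt_near {P Z : ℕ} (hZ : 0 < Z) (e : ℕ) :
    |(tkCnt P Z e : ℝ) - (P : ℝ) / ((P : ℝ) + (Z : ℝ)) * e| ≤ (P : ℝ) + Z := by
  have hN : 0 < P + Z := by omega
  have hr : ((e % (P + Z) : ℕ) : ℝ) ≤ (P : ℝ) + Z := by exact_mod_cast (Nat.mod_lt e hN).le
  have he : (e : ℝ) = ((P : ℝ) + Z) * (e / (P + Z) : ℕ) + (e % (P + Z) : ℕ) := by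
    exact_mod_cast (Nat.div_add_mod e (P + Z)).symm
  have hZ' : (0 : ℝ) < Z := by exact_mod_cast hZ
  have hP' : (0 : ℝ) ≤ P := Nat.cast_nonneg P
  have hN' : (0 : ℝ) < (P : ℝ) + Z := by linarith
  have hρ0 : 0 ≤ (P : ℝ) / ((P : ℝ) + Z) := div_nonneg hP' hN'.le
  have hρ1 : (P : ℝ) / ((P : ℝ) + Z) ≤ 1 := (div_le_one hN').2 (by linarith)
  have hm0 : (0 : ℝ) ≤ (min (e % (P + Z)) P : ℕ) := Nat.cast_nonneg _
  have hm1 : ((min (e % (P + Z)) P : ℕ) : ℝ) ≤ P := by exact_mod_cast min_le_right _ _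
  have hr0 : (0 : ℝ) ≤ (e % (P + Z) : ℕ) := Nat.cast_nonneg _
  have key : (tkCnt P Z e : ℝ) - (P : ℝ) / ((P : ℝ) + (Z : ℝ)) * e =
      (min (e % (P + Z)) P : ℕ) - (P : ℝ) / ((P : ℝ) + Z) * (e % (P + Z) : ℕ) := by
    unfold tkCnt
    rw [Nat.cast_add, Nat.cast_mul]
    conv_lhs => rw [he]
    field_simp
    ring
  rw [key, abs_le]
  constructor <;> nlinarith [mul_nonneg hρ0 hr0, mul_le_mul_of_nonneg_right hρ1 hr0]

theorem tk_find {T : ℕ → ℕ} (hT : StrictMono T) (S t : ℕ) (h : T S ≤ t) :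
    ∃ s, S ≤ s ∧ T s ≤ t ∧ t < T (s + 1) := by
  have : ∀ d, t < T (S + d) → ∃ s, S ≤ s ∧ T s ≤ t ∧ t < T (s + 1) := by
    intro d
    induction d with
    | zero => intro h1; exact absurd h (by simpa using h1)
    | succ d ih =>
      intro h1
      by_cases h2 : t < T (S + d)
      · exact ih h2
      · exact ⟨S + d, by omega, by omega, h1⟩
  have h3 : S + (t + 1) ≤ T (S + (t + 1)) := hT.le_apply
  exact this (t + 1) (by omega)

theorem tk_small {ε : ℝ} (hε : 0 < ε) : ∀ᶠ s : ℕ in atTop, 3 / ((s : ℝ) + 1) ≤ ε := by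
  have h := tendsto_one_div_add_atTop_nhds_zero_nat (𝕜 := ℝ)
  filter_upwards [h.eventually (Iio_mem_nhds (show (0 : ℝ) < ε / 3 by positivity))] with s hs
  have h1 : 1 / ((s : ℝ) + 1) < ε / 3 := hs
  have h2 : 3 / ((s : ℝ) + 1) = 3 * (1 / ((s : ℝ) + 1)) := by ring
  linarith

/-- Periodic patterns on long phases. -/
theorem track_phases (D T P Z : ℕ → ℕ) (h0 : D 0 = 0)
    (hstep : ∀ t, D t ≤ D (t + 1) ∧ D (t + 1) ≤ D t + 1)
    (hP : ∀ s, 0 < P s) (hZ : ∀ s, 0 < Z s)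
    (hT : ∀ s, (T s + 1) * (T s + P s + Z s) < T (s + 1))
    (hD : ∀ s t, T (s + 1) ≤ t → t < T (s + 2) → D (t + 1) = D t +
      if (t - T (s + 1)) % (P s + Z s) < P s then 1 else 0) :
    (∀ K, ∃ t, K ≤ D t) ∧ (∀ K, ∃ t, D t + K ≤ t) ∧
      liminf (fun t => (D t : ℝ) / (t : ℝ)) atTop =
        liminf (fun s => (P s : ℝ) / ((P s : ℝ) + (Z s : ℝ))) atTop ∧
      limsup (fun t => (D t : ℝ) / (t : ℝ)) atTop =
        limsup (fun s => (P s : ℝ) / ((P s : ℝ) + (Z s : ℝ))) atTop := by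
  have hmono : StrictMono T := by
    refine strictMono_nat_of_lt_succ fun s => ?_
    have := hT s
    nlinarith [hP s, hZ s]
  have hTs : ∀ s, s ≤ T s := fun s => hmono.le_apply
  have hDm : Monotone D := monotone_nat_of_le_succ fun t => (hstep t).1
  have hDk : ∀ t k, D (t + k) ≤ D t + k := by
    intro t k
    induction k with
    | zero => simp
    | succ k ih => have := (hstep (t + k)).2; rw [← add_assoc]; omega
  have hDt : ∀ t, D t ≤ t := fun t => by simpa [h0] using hDk 0 t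
  have phase : ∀ s e, T (s + 1) + e ≤ T (s + 2) →
      D (T (s + 1) + e) = D (T (s + 1)) + tkCnt (P s) (Z s) e := by
    intro s e
    induction e with
    | zero => intro _; simp [tkCnt]
    | succ e ih =>
      intro h
      rw [← add_assoc, hD s _ (by omega) (by omega), ih (by omega), tkCnt_succ (hZ s),
        Nat.add_sub_cancel_left, add_assoc]
  have hlong : ∀ s, T (s + 1) + (P s + Z s) ≤ T (s + 2) := by
    intro s
    have h1 := hT s
    have h2 := hT (s + 1)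
    have h3 : P s + Z s < T (s + 1) := by nlinarith
    have h4 : T (s + 1 + 1) = T (s + 2) := rfl
    nlinarith [hP (s + 1), hZ (s + 1)]
  have hgrow : ∀ s, s ≤ D (T (s + 1)) ∧ D (T (s + 1)) + s ≤ T (s + 1) := by
    intro s
    induction s with
    | zero => simpa using hDt _
    | succ s ih =>
      have h1 := phase s _ (hlong s)
      rw [tkCnt_period (hZ s)] at h1
      have h2 := hDm (hlong s)
      obtain ⟨k, hk⟩ := Nat.exists_eq_add_of_le (hlong s)
      have h3 := hDk (T (s + 1) + (P s + Z s)) k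
      have h4 : T (s + 1 + 1) = T (s + 2) := rfl
      rw [← hk] at h3
      have := hP s
      have := hZ s
      rw [h4]
      omega
  set ρ : ℕ → ℝ := fun s => (P s : ℝ) / ((P s : ℝ) + (Z s : ℝ)) with hρ
  have hρ01 : ∀ s, 0 ≤ ρ s ∧ ρ s ≤ 1 := by
    intro s
    have h1 : (0 : ℝ) < Z s := by exact_mod_cast hZ s
    have h2 : (0 : ℝ) ≤ P s := Nat.cast_nonneg _
    exact ⟨div_nonneg h2 (by linarith), (div_le_one (by linarith)).2 (by linarith)⟩
  have hA : ∀ s t, T (s + 1) ≤ t → t ≤ T (s + 2) →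
      |(D t : ℝ) - D (T (s + 1)) - ρ s * ((t : ℝ) - T (s + 1))| ≤ (P s : ℝ) + Z s := by
    intro s t h1 h2
    obtain ⟨e, rfl⟩ := Nat.exists_eq_add_of_le h1
    rw [phase s e h2]
    have := tkCnt_near (P := P s) (hZ s) e
    push_cast
    rw [add_sub_cancel_left, add_sub_cancel_left]
    exact this
  have hN : ∀ s : ℕ, ((s : ℝ) + 1) * ((P s : ℝ) + Z s) ≤ T (s + 1) ∧
      ((s : ℝ) + 1) * (T s : ℝ) ≤ T (s + 1) := by
    intro s
    have h1 := hT s
    have h2 := hTs s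
    have h3 : (s + 1) * (P s + Z s) ≤ T (s + 1) := by nlinarith
    have h4 : (s + 1) * T s ≤ T (s + 1) := by nlinarith
    exact ⟨by exact_mod_cast h3, by exact_mod_cast h4⟩
  have hB : ∀ s : ℕ, ((s : ℝ) + 1) * |(D (T (s + 2)) : ℝ) - ρ s * T (s + 2)| ≤ 2 * T (s + 2) := by
    intro s
    have h1 := abs_le.1 (hA s (T (s + 2)) (hmono.monotone (by omega)) le_rfl)
    have h2 := (hN s).1
    have h3 := (hN (s + 1)).2
    have h4 : (D (T (s + 1)) : ℝ) ≤ T (s + 1) := by exact_mod_cast hDt _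
    have h5 : (0 : ℝ) ≤ D (T (s + 1)) := Nat.cast_nonneg _
    have h6 : (0 : ℝ) ≤ T (s + 1) := Nat.cast_nonneg _
    have h7 := hρ01 s
    have h8 : (0 : ℝ) ≤ s := Nat.cast_nonneg _
    have h9 : (T (s + 1) : ℝ) ≤ T (s + 2) := by exact_mod_cast hmono.monotone (by omega)
    have h10 : T (s + 1 + 1) = T (s + 2) := rfl
    rw [h10] at h3
    push_cast at h3
    have h11 : |(D (T (s + 2)) : ℝ) - ρ s * T (s + 2)| ≤ T (s + 1) + ((P s : ℝ) + Z s) := by
      rw [abs_le]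
      constructor <;> nlinarith [mul_nonneg h7.1 h6, mul_le_mul_of_nonneg_right h7.2 h6]
    nlinarith [mul_le_mul_of_nonneg_left h11 (show (0 : ℝ) ≤ (s : ℝ) + 1 by linarith)]
  have hpos : ∀ s, (0 : ℝ) < T (s + 2) := fun s => by
    have := hTs (s + 2)
    exact_mod_cast (show 0 < T (s + 2) by omega)
  have hB' : ∀ s, |(D (T (s + 2)) : ℝ) / T (s + 2) - ρ s| ≤ 3 / ((s : ℝ) + 1) := by
    intro s
    have h1 := hB s
    have h2 := hpos s
    have h3 : (0 : ℝ) < (s : ℝ) + 1 := by positivity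
    have h4 : (D (T (s + 2)) : ℝ) / T (s + 2) - ρ s =
        ((D (T (s + 2)) : ℝ) - ρ s * T (s + 2)) / T (s + 2) := by field_simp
    rw [h4, abs_div, abs_of_pos h2, div_le_div_iff₀ h2 h3]
    linarith
  have hC : ∀ s t, T (s + 2) ≤ t → t ≤ T (s + 3) →
      (∀ y, ρ s ≤ y → ρ (s + 1) ≤ y → (D t : ℝ) / t ≤ y + 3 / ((s : ℝ) + 1)) ∧
      (∀ y, y ≤ ρ s → y ≤ ρ (s + 1) → y - 3 / ((s : ℝ) + 1) ≤ (D t : ℝ) / t) := by
    intro s t h1 h2
    have h3 := abs_le.1 (hA (s + 1) t h1 h2)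
    have h4 := hB s
    have h5 := (hN (s + 1)).1
    have h6 := hpos s
    have h7 : (T (s + 2) : ℝ) ≤ t := by exact_mod_cast h1
    have h8 : (0 : ℝ) < (s : ℝ) + 1 := by positivity
    have h10 : T (s + 1 + 1) = T (s + 2) := rfl
    rw [h10] at h3 h5
    push_cast at h5
    have ht : (0 : ℝ) < t := by linarith
    have hPZ : (0 : ℝ) ≤ (P (s + 1) : ℝ) + Z (s + 1) := by positivity
    have h11 : (P (s + 1) : ℝ) + Z (s + 1) ≤ 1 / ((s : ℝ) + 1) * t := by
      rw [div_mul_eq_mul_div, le_div_iff₀ h8]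
      nlinarith
    have h12 : |(D (T (s + 2)) : ℝ) - ρ s * T (s + 2)| ≤ 2 / ((s : ℝ) + 1) * t := by
      rw [div_mul_eq_mul_div 2, le_div_iff₀ h8]
      nlinarith
    have h13 := abs_le.1 h12
    have h14 : 3 / ((s : ℝ) + 1) * t = 1 / ((s : ℝ) + 1) * t + 2 / ((s : ℝ) + 1) * t := by ring
    constructor
    · intro y hy1 hy2
      rw [div_le_iff₀ ht]
      nlinarith [mul_le_mul_of_nonneg_right hy1 h6.le,
        mul_le_mul_of_nonneg_right hy2 (sub_nonneg.2 h7)]
    · intro y hy1 hy2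
      rw [le_div_iff₀ ht]
      nlinarith [mul_le_mul_of_nonneg_right hy1 h6.le,
        mul_le_mul_of_nonneg_right hy2 (sub_nonneg.2 h7)]
  have hu01 : ∀ t, 0 ≤ (D t : ℝ) / (t : ℝ) ∧ (D t : ℝ) / (t : ℝ) ≤ 1 := fun t =>
    ⟨by positivity, div_le_one_of_le₀ (by exact_mod_cast hDt t) (Nat.cast_nonneg _)⟩
  have bu1 : ∃ b, ∀ᶠ t in atTop, b ≤ (D t : ℝ) / (t : ℝ) :=
    ⟨0, Eventually.of_forall fun t => (hu01 t).1⟩
  have bu2 : ∃ b, ∀ᶠ t in atTop, (D t : ℝ) / (t : ℝ) ≤ b :=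
    ⟨1, Eventually.of_forall fun t => (hu01 t).2⟩
  have bv1 : ∃ b, ∀ᶠ s in atTop, b ≤ ρ s := ⟨0, Eventually.of_forall fun s => (hρ01 s).1⟩
  have bv2 : ∃ b, ∀ᶠ s in atTop, ρ s ≤ b := ⟨1, Eventually.of_forall fun s => (hρ01 s).2⟩
  have hT2 : Tendsto (fun s => T (s + 2)) atTop atTop :=
    tendsto_atTop_mono (fun s => (Nat.le_add_right s 2).trans (hTs (s + 2))) tendsto_id
  have hfind : ∀ S t, T (S + 2) ≤ t → ∃ s, S ≤ s ∧ T (s + 2) ≤ t ∧ t ≤ T (s + 3) := by
    intro S t h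
    obtain ⟨s, h1, h2, h3⟩ := tk_find hmono (S + 2) t h
    obtain ⟨s', rfl⟩ : ∃ s', s = s' + 2 := ⟨s - 2, by omega⟩
    exact ⟨s', by omega, h2, h3.le⟩
  refine ⟨fun K => ⟨_, (hgrow K).1⟩, fun K => ⟨_, (hgrow K).2⟩,
    le_antisymm (le_liminf_of_ev bv2 fun ε hε => ?_) (le_liminf_of_ev bu2 fun ε hε => ?_),
    le_antisymm (limsup_le_of_ev bu1 fun ε hε => ?_) (limsup_le_of_ev bv1 fun ε hε => ?_)⟩
  · filter_upwards [tk_small (half_pos hε), hT2.eventually (ev_liminf_le bu1 (half_pos hε))]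
      with s h1 h2
    linarith [(abs_le.1 (hB' s)).2]
  · obtain ⟨S, hS⟩ := eventually_atTop.1
      ((tk_small (half_pos hε)).and (ev_liminf_le bv1 (half_pos hε)))
    refine eventually_atTop.2 ⟨T (S + 2), fun t ht => ?_⟩
    obtain ⟨s, h1, h2, h3⟩ := hfind S t ht
    have := (hC s t h2 h3).2 _ (hS s h1).2 (hS (s + 1) (by omega)).2
    linarith [(hS s h1).1]
  · obtain ⟨S, hS⟩ := eventually_atTop.1
      ((tk_small (half_pos hε)).and (ev_le_limsup bv2 (half_pos hε)))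
    refine eventually_atTop.2 ⟨T (S + 2), fun t ht => ?_⟩
    obtain ⟨s, h1, h2, h3⟩ := hfind S t ht
    have := (hC s t h2 h3).1 _ (hS s h1).2 (hS (s + 1) (by omega)).2
    linarith [(hS s h1).1]
  · filter_upwards [tk_small (half_pos hε), hT2.eventually (ev_le_limsup bu2 (half_pos hε))]
      with s h1 h2
    linarith [(abs_le.1 (hB' s)).1]

/-- A computable sequence of rationals is delayed to a primitive recursive one. -/
theorem track_delay (p q : ℕ → ℕ) (hp : Computable p) (hq : Computable q)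
    (hpq : ∀ s, p s ≤ q s ∧ 0 < q s) :
    ∃ FP FZ FM : ℕ → ℕ → ℕ, Primrec₂ FP ∧ Primrec₂ FZ ∧ Primrec₂ FM ∧ (∀ a b, 0 < FZ a b) ∧
      ∀ T m : ℕ → ℕ, StrictMono T → (∀ s, m (s + 1) = FM (m s) (T s)) →
        liminf (fun s => ((FP (m s) (T s) + 1 : ℕ) : ℝ) /
            (((FP (m s) (T s) + 1 : ℕ) : ℝ) + (FZ (m s) (T s) : ℝ))) atTop =
          liminf (fun s => (p s : ℝ) / (q s : ℝ)) atTop ∧
        limsup (fun s => ((FP (m s) (T s) + 1 : ℕ) : ℝ) /
            (((FP (m s) (T s) + 1 : ℕ) : ℝ) + (FZ (m s) (T s) : ℝ))) atTop =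
          limsup (fun s => (p s : ℝ) / (q s : ℝ)) atTop := by
  have hc : Computable fun n => Nat.pair (p n) (q n) := Primrec₂.natPair.to_comp.comp hp hq
  obtain ⟨c, hc'⟩ := Nat.Partrec.Code.exists_code.1 (Partrec.nat_iff.1 hc)
  have hev : ∀ n, Nat.pair (p n) (q n) ∈ c.eval n := fun n => by
    rw [hc']
    exact Part.mem_some _
  have hE : Primrec₂ fun a b : ℕ => Nat.Partrec.Code.evaln b c a :=
    Nat.Partrec.Code.primrec_evaln.comp
      ((Primrec.snd.pair (Primrec.const c)).pair Primrec.fst)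
  have hV : Primrec fun x : ℕ × ℕ => ((Nat.Partrec.Code.evaln x.2 c x.1).getD 0).unpair :=
    Primrec.unpair.comp (Primrec.option_getD.comp hE (Primrec.const 0))
  refine ⟨fun a b => (b + 1) * ((Nat.Partrec.Code.evaln b c a).getD 0).unpair.1,
    fun a b => (b + 1) * (((Nat.Partrec.Code.evaln b c a).getD 0).unpair.2 -
      ((Nat.Partrec.Code.evaln b c a).getD 0).unpair.1) + 1,
    fun a b => bif (Nat.Partrec.Code.evaln b c (a + 1)).isSome then a + 1 else a,
    ?_, ?_, ?_, fun a b => Nat.succ_pos _, ?_⟩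
  · exact Primrec.nat_mul.comp (Primrec.succ.comp Primrec.snd) (Primrec.fst.comp hV)
  · exact Primrec.succ.comp (Primrec.nat_mul.comp (Primrec.succ.comp Primrec.snd)
      (Primrec.nat_sub.comp (Primrec.snd.comp hV) (Primrec.fst.comp hV)))
  · exact Primrec.cond
      (Primrec.option_isSome.comp (hE.comp (Primrec.succ.comp Primrec.fst) Primrec.snd))
      (Primrec.succ.comp Primrec.fst) Primrec.fst
  intro T m hT hm
  have hTs : ∀ s, s ≤ T s := fun s => hT.le_apply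
  have hsome : ∀ {k k' n : ℕ}, k ≤ k' → (Nat.Partrec.Code.evaln k c n).isSome = true →
      (Nat.Partrec.Code.evaln k' c n).isSome = true := by
    intro k k' n hk h
    obtain ⟨x, hx⟩ := Option.isSome_iff_exists.1 h
    exact Option.isSome_iff_exists.2 ⟨x, Nat.Partrec.Code.evaln_mono hk hx⟩
  have hex : ∀ n, ∃ k, (Nat.Partrec.Code.evaln k c n).isSome = true := by
    intro n
    obtain ⟨k, hk⟩ := Nat.Partrec.Code.evaln_complete.1 (hev n)
    exact ⟨k, Option.isSome_iff_exists.2 ⟨_, hk⟩⟩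
  have hcase : ∀ s, ((Nat.Partrec.Code.evaln (T s) c (m s + 1)).isSome = true ∧
      m (s + 1) = m s + 1) ∨
      ((Nat.Partrec.Code.evaln (T s) c (m s + 1)).isSome = false ∧ m (s + 1) = m s) := by
    intro s
    have h := hm s
    cases h1 : (Nat.Partrec.Code.evaln (T s) c (m s + 1)).isSome
    · right
      simp only [h1, cond_false] at h
      exact ⟨rfl, h⟩
    · left
      simp only [h1, cond_true] at h
      exact ⟨rfl, h⟩
  have hstep : ∀ s, m s ≤ m (s + 1) ∧ m (s + 1) ≤ m s + 1 := by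
    intro s
    rcases hcase s with h | h <;> omega
  have hmm : Monotone m := monotone_nat_of_le_succ fun s => (hstep s).1
  have hunb : ∀ K, ∃ s, K ≤ m s := by
    intro K
    induction K with
    | zero => exact ⟨0, Nat.zero_le _⟩
    | succ K ih =>
      obtain ⟨s, hs⟩ := ih
      obtain ⟨k, hk⟩ := hex (K + 1)
      have h1 : K ≤ m (s + k) := hs.trans (hmm (by omega))
      by_cases h2 : K + 1 ≤ m (s + k)
      · exact ⟨_, h2⟩
      · have h3 : m (s + k) = K := by omega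
        rcases hcase (s + k) with h | h
        · exact ⟨s + k + 1, by omega⟩
        · have h4 := hsome (show k ≤ T (s + k) by have := hTs (s + k); omega) hk
          rw [h3, h4] at h
          exact absurd h.1 (by simp)
  have hinv : ∀ s, (Nat.Partrec.Code.evaln (T s) c (m s)).isSome = true ∨ m s = m 0 := by
    intro s
    induction s with
    | zero => exact Or.inr rfl
    | succ s ih =>
      have hle : T s ≤ T (s + 1) := hT.monotone (Nat.le_succ s)
      rcases hcase s with h | h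
      · left
        rw [h.2]
        exact hsome hle h.1
      · rw [h.2]
        exact ih.imp (hsome hle) id
  obtain ⟨k0, hk0⟩ := hex (m 0)
  have hval : ∀ s, k0 ≤ s →
      (Nat.Partrec.Code.evaln (T s) c (m s)).getD 0 = Nat.pair (p (m s)) (q (m s)) := by
    intro s hs
    have h1 : (Nat.Partrec.Code.evaln (T s) c (m s)).isSome = true := by
      rcases hinv s with h | h
      · exact h
      · rw [h]
        exact hsome (hs.trans (hTs s)) hk0
    obtain ⟨x, hx⟩ := Option.isSome_iff_exists.1 h1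
    rw [hx, Option.getD_some]
    exact Part.mem_unique (Nat.Partrec.Code.evaln_sound hx) (hev _)
  have hv01 : ∀ n, 0 ≤ (p n : ℝ) / (q n : ℝ) ∧ (p n : ℝ) / (q n : ℝ) ≤ 1 := fun n =>
    ⟨by positivity, div_le_one_of_le₀ (by exact_mod_cast (hpq n).1) (Nat.cast_nonneg _)⟩
  have h2 := lims_comp (map_atTop_of_steps hstep hunb) fun n => (p n : ℝ) / (q n : ℝ)
  rw [← h2.1, ← h2.2]
  refine lims_eq_of_sub (fun s => hv01 (m s)) ?_
  refine squeeze_zero_norm' ?_ (tendsto_one_div_add_atTop_nhds_zero_nat (𝕜 := ℝ))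
  refine eventually_atTop.2 ⟨k0, fun s hs => ?_⟩
  simp only [hval s hs, Nat.unpair_pair]
  obtain ⟨hle, hq0⟩ := hpq (m s)
  have ha : (0 : ℝ) ≤ p (m s) := Nat.cast_nonneg _
  have hb : (p (m s) : ℝ) ≤ q (m s) := by exact_mod_cast hle
  have hq1 : (1 : ℝ) ≤ q (m s) := by exact_mod_cast hq0
  have hs' : (s : ℝ) ≤ T s := by exact_mod_cast hTs s
  have hs0 : (0 : ℝ) ≤ s := Nat.cast_nonneg _
  push_cast [Nat.cast_sub hle]
  generalize (p (m s) : ℝ) = a at *
  generalize (q (m s) : ℝ) = b at *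
  generalize (T s : ℝ) = t at *
  have hd : 0 < (t + 1) * b + 2 := by nlinarith
  have e1 : (t + 1) * a + 1 + ((t + 1) * (b - a) + 1) = (t + 1) * b + 2 := by ring
  have e2 : ((t + 1) * a + 1) / ((t + 1) * b + 2) - a / b =
      (b - 2 * a) / (b * ((t + 1) * b + 2)) := by
    field_simp
    ring
  have hd' : 0 < b * ((t + 1) * b + 2) := by positivity
  rw [e1, e2, Real.norm_eq_abs, abs_div, abs_of_pos hd', div_le_div_iff₀ hd' (by linarith)]
  have h3 : |b - 2 * a| ≤ b := abs_le.2 ⟨by linarith, by linarith⟩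
  have h4 : (s : ℝ) + 1 ≤ (t + 1) * b + 2 := by nlinarith
  nlinarith [mul_le_mul h3 h4 (by linarith) (by linarith : (0 : ℝ) ≤ b)]

end Pool.Agent.Lib.MP_275d83_lc
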