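import Pool.Agent.Lib.MP_275d83_lc.DefsT
import Pool.Agent.Lib.MP_275d83_lc.Basic

/-! The rational index of the image under a rational transduction. -/

namespace Pool.Agent.Lib.MP_275d83_lc

open Pool.Agent.Lib.MP_a569f2_lc

section
variable {S X Y : Type} {E : S → Option X × Option Y → S → Prop}

theorem eps_short [Fintype S] {x y : S} {w : List (Option X × Option Y)} (hp : Path E x w y)
    (hw : w.filterMap Prod.fst = []) :
    ∃ w', Path E x w' y ∧ w'.filterMap Prod.fst = [] ∧ w'.length ≤ Fintype.card S := by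
  have h1 : Path (fun p (a : Option X × Option Y) q => E p a q ∧ a.1 = none) x w y := by
    induction hp with
    | nil s => exact Path.nil _
    | @cons s s' t a w h1 _ ih =>
      obtain ⟨_ | a, b⟩ := a
      · exact Path.cons ⟨h1, rfl⟩ (ih (by simpa using hw))
      · simp at hw
  obtain ⟨w', h2, h3⟩ := path_short h1
  refine ⟨w', path_map_state id (fun _ _ _ h => h.1) h2, ?_, h3⟩
  clear h1 h3 hp
  induction h2 with
  | nil s => rfl
  | cons h1 _ ih => simp [List.filterMap_cons, h1.2, ih]

theorem split_letter {a : X} {u : List X} : ∀ {w : List (Option X × Option Y)},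
    w.filterMap Prod.fst = a :: u → ∃ w₁ b w₂, w = w₁ ++ (some a, b) :: w₂ ∧
      w₁.filterMap Prod.fst = [] ∧ w₂.filterMap Prod.fst = u := by
  intro w
  induction w with
  | nil => intro h; simp at h
  | cons c w ih =>
    intro h
    obtain ⟨_ | c, b⟩ := c
    · obtain ⟨w₁, b', w₂, rfl, h1, h2⟩ := ih (by simpa using h)
      exact ⟨(none, b) :: w₁, b', w₂, rfl, by simpa using h1, h2⟩
    · simp only [List.filterMap_cons, List.cons.injEq] at h
      obtain ⟨rfl, h⟩ := h
      exact ⟨[], b, w, rfl, rfl, h⟩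

/-- One input letter preceded by moves that read nothing. -/
def Jump (E : S → Option X × Option Y → S → Prop) (x : S) (a : X) (y : S) : Prop :=
  ∃ w b z, Path E x w z ∧ w.filterMap Prod.fst = [] ∧ E z (some a, b) y

theorem to_jump : ∀ {u : List X} {w : List (Option X × Option Y)} {x y : S}, Path E x w y →
    w.filterMap Prod.fst = u → ∃ z w', Path (Jump E) x u z ∧ Path E z w' y ∧
      w'.filterMap Prod.fst = [] := by
  intro u
  induction u with
  | nil => intro w x y hp hw; exact ⟨x, w, Path.nil _, hp, hw⟩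
  | cons a u ih =>
    intro w x y hp hw
    obtain ⟨w₁, b, w₂, rfl, h1, h2⟩ := split_letter hw
    obtain ⟨z, h3, h4⟩ := path_append_iff.1 hp
    obtain ⟨z', h5, h6⟩ := path_cons_iff.1 h4
    obtain ⟨z'', w', h7, h8, h9⟩ := ih h6 h2
    exact ⟨z'', w', Path.cons ⟨w₁, b, z, h3, h1, h5⟩ h7, h8, h9⟩

theorem of_jump [Fintype S] {u : List X} {x y : S} (hp : Path (Jump E) x u y) :
    ∃ w, Path E x w y ∧ w.filterMap Prod.fst = u ∧
      w.length ≤ (Fintype.card S + 1) * u.length := by
  induction hp with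
  | nil s => exact ⟨[], Path.nil _, rfl, by simp⟩
  | @cons s s' t a u h1 _ ih =>
    obtain ⟨w₁, b, z, h2, h3, h4⟩ := h1
    obtain ⟨w₁', h5, h6, h7⟩ := eps_short h2 h3
    obtain ⟨w₂, h8, h9, h10⟩ := ih
    refine ⟨w₁' ++ (some a, b) :: w₂, path_append h5 (Path.cons h4 h8), by simp [h6, h9], ?_⟩
    simp only [List.length_append, List.length_cons]
    nlinarith

end

theorem index_transduce {X Y : Type} [Finite X] {m : ℕ} (T : NFA (Option X × Option Y) (Fin m))
    (L : Language X) (n : ℕ) :
    index (transduce T L) n ≤ (m * n + 1) * (index L (m * n) + 1) := by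
  refine index_le fun A s t v hv hp => ?_
  obtain ⟨w, hw, hL, rfl⟩ := hv
  obtain ⟨p, hp₀, q, hq, hT⟩ := (accepts_iff T w).1 hw
  let E : Fin m × Fin n → Option X × Option Y → Fin m × Fin n → Prop := fun x a y =>
    y.1 ∈ T.step x.1 a ∧ Path A x.2 a.2.toList y.2
  have prod : ∀ {w : List (Option X × Option Y)} {p : Fin m} {s : Fin n},
      Path (fun p a q => q ∈ T.step p a) p w q → Path A s (w.filterMap Prod.snd) t →
        Path E (p, s) w (q, t) := by
    intro w
    induction w with
    | nil =>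
      intro p s e1 e2
      rw [path_nil_iff.1 e1, path_nil_iff.1 e2]
      exact Path.nil _
    | cons a w ih =>
      intro p s e1 e2
      obtain ⟨p', e3, e4⟩ := path_cons_iff.1 e1
      have e5 : (a :: w).filterMap Prod.snd = a.2.toList ++ w.filterMap Prod.snd := by
        obtain ⟨a, _ | b⟩ := a <;> simp
      obtain ⟨s', e6, e7⟩ := path_append_iff.1 (e5 ▸ e2)
      exact Path.cons (s' := (p', s')) ⟨e3, e6⟩ (ih e4 e7)
  have proj : ∀ {w : List (Option X × Option Y)} {x y : Fin m × Fin n}, Path E x w y →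
      Path A x.2 (w.filterMap Prod.snd) y.2 := by
    intro w x y h
    induction h with
    | nil s => exact Path.nil _
    | @cons s s' t a w h1 _ ih =>
      have e5 : (a :: w).filterMap Prod.snd = a.2.toList ++ w.filterMap Prod.snd := by
        obtain ⟨a, _ | b⟩ := a <;> simp
      rw [e5]
      exact path_append h1.2 ih
  obtain ⟨z, w₂, h1, h2, h3⟩ := to_jump (prod hT hp) rfl
  have hne : {k | ∃ u ∈ L, Path (Jump E) (p, s) u z ∧ u.length = k}.Nonempty := ⟨_, _, hL, h1, rfl⟩
  obtain ⟨u, h4, h5, h6⟩ := Nat.sInf_mem hne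
  have h7 : u.length ≤ index L (m * n) := le_index (Jump E) (p, s) z (by simp) ⟨_, hL, h1⟩
    fun v hv hp' => h6 ▸ Nat.sInf_le ⟨v, hv, hp', rfl⟩
  obtain ⟨w₁, h8, h9, h10⟩ := of_jump h5
  obtain ⟨w₃, h11, h12, h13⟩ := eps_short h2 h3
  have h14 := path_append h8 h11
  refine ⟨(w₁ ++ w₃).filterMap Prod.snd, ⟨w₁ ++ w₃, (accepts_iff T _).2 ⟨p, hp₀, q, hq,
    path_map_state Prod.fst (fun _ _ _ h => h.1) h14⟩, by simpa [h9, h12] using h4, rfl⟩,
    proj h14, (List.length_filterMap_le _ _).trans ?_⟩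
  simp only [Fintype.card_prod, Fintype.card_fin] at h10 h13
  rw [List.length_append]
  nlinarith [Nat.mul_le_mul_left (m * n + 1) h7]

end Pool.Agent.Lib.MP_275d83_lc
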