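import Pool.Agent.Lib.MP_275d83_lc.WR

/-! The core language: a history followed by a binary tree whose depth is limited by the number
of marks of the history. -/

namespace Pool.Agent.Lib.MP_275d83_lc

open Pool.Agent.Lib.MP_a569f2_lc Sum

/-- Separator, brackets and leaf. -/
inductive Br : Type
  | hash | op | cl | leaf
  deriving DecidableEq, Fintype

section
variable {σ : Type}

/-- Bracket codes of binary trees. -/
inductive Tr : List (σ ⊕ Br) → Prop
  | leaf : Tr [inr Br.leaf]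
  | node {s t : List (σ ⊕ Br)} : Tr s → Tr t → Tr (inr Br.op :: (s ++ (t ++ [inr Br.cl])))

/-- Beginnings of codes that descend `k` levels. -/
inductive Deep : ℕ → List (σ ⊕ Br) → Prop
  | zero : Deep 0 []
  | step {k : ℕ} {s y : List (σ ⊕ Br)} : (s = [] ∨ Tr s) → Deep k y →
      Deep (k + 1) (inr Br.op :: (s ++ y))

theorem Deep.snoc {k : ℕ} {y s : List (σ ⊕ Br)} (h : Deep k y) (hs : s = [] ∨ Tr s) :
    Deep (k + 1) (y ++ inr Br.op :: s) := by
  induction h with
  | zero => simpa using Deep.step hs Deep.zero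
  | step h1 _ ih => simpa using Deep.step h1 ih

theorem Deep.unsnoc : ∀ {k : ℕ} {y : List (σ ⊕ Br)}, Deep (k + 1) y →
    ∃ y' s, Deep k y' ∧ (s = [] ∨ Tr s) ∧ y = y' ++ inr Br.op :: s := by
  intro k
  induction k with
  | zero =>
    intro y h
    cases h with
    | step h1 h2 => cases h2; exact ⟨[], _, Deep.zero, h1, by simp⟩
  | succ k ih =>
    intro y h
    cases h with
    | step h1 h2 =>
      obtain ⟨y', s', h3, h4, rfl⟩ := ih h2
      exact ⟨_, s', Deep.step h1 h3, h4, by simp⟩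

theorem Tr.short_or_deep : ∀ (h : ℕ) {t : List (σ ⊕ Br)}, Tr t →
    t.length + 2 ≤ 3 * 2 ^ h ∨ ∃ y z, t = y ++ z ∧ Deep (h + 1) y ∧ y.length + 2 ≤ 3 * 2 ^ h := by
  intro h
  induction h with
  | zero =>
    intro t ht
    cases ht with
    | leaf => simp
    | node h1 h2 => exact Or.inr ⟨[inr Br.op], _, rfl, Deep.step (Or.inl rfl) Deep.zero, by simp⟩
  | succ h ih =>
    intro t ht
    have := Nat.one_le_two_pow (n := h)
    cases ht with
    | leaf => left; simp only [List.length_singleton]; omega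
    | @node s t h1 h2 =>
      rcases ih h1 with h3 | ⟨y, z, rfl, h3, h4⟩
      · rcases ih h2 with h5 | ⟨y, z, rfl, h5, h6⟩
        · left
          simp only [List.length_cons, List.length_append, List.length_nil]
          omega
        · refine Or.inr ⟨_, z ++ [inr Br.cl], by simp, Deep.step (Or.inr h1) h5, ?_⟩
          simp only [List.length_cons, List.length_append]
          omega
      · refine Or.inr ⟨_, z ++ (t ++ [inr Br.cl]), by simp, Deep.step (Or.inl rfl) h3, ?_⟩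
        simp only [List.length_cons, List.length_append, List.length_nil]
        omega

theorem Deep.short : ∀ (h : ℕ) {y : List (σ ⊕ Br)}, Deep (h + 1) y →
    ∃ y' z, y = y' ++ z ∧ Deep (h + 1) y' ∧ y'.length + 2 ≤ 3 * 2 ^ h := by
  intro h
  induction h with
  | zero =>
    intro y hy
    cases hy with
    | step h1 h2 => exact ⟨[inr Br.op], _, rfl, Deep.step (Or.inl rfl) Deep.zero, by simp⟩
  | succ h ih =>
    intro y hy
    have := Nat.one_le_two_pow (n := h)
    cases hy with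
    | @step _ s y h1 h2 =>
      obtain ⟨y', z, rfl, h3, h4⟩ := ih h2
      rcases h1 with rfl | h1
      · refine ⟨_, z, by simp, Deep.step (Or.inl rfl) h3, ?_⟩
        simp only [List.length_cons, List.length_append, List.length_nil]
        omega
      · rcases h1.short_or_deep h with h5 | ⟨y₁, z₁, rfl, h5, h6⟩
        · refine ⟨_, z, by simp, Deep.step (Or.inr h1) h3, ?_⟩
          simp only [List.length_cons, List.length_append]
          omega
        · refine ⟨_, z₁ ++ (y' ++ z), by simp, Deep.step (Or.inl rfl) h5, ?_⟩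
          simp only [List.length_cons, List.length_append, List.length_nil]
          omega

/-- What may follow a history with `m` marks. -/
def Tail (m : ℕ) (r : List (σ ⊕ Br)) : Prop := Tr r ∨ ∃ y z, Deep (m + 1) y ∧ r = y ++ z

theorem Tail.short {m n : ℕ} {r : List (σ ⊕ Br)} (h : Tail m r)
    {E : Fin n → σ ⊕ Br → Fin n → Prop} {p q : Fin n} (hp : Path E p r q) :
    ∃ r', Tail m r' ∧ Path E p r' q ∧ r'.length ≤ 3 * 2 ^ m + n := by
  have key : ∀ y z, r = y ++ z → Deep (m + 1) y → y.length + 2 ≤ 3 * 2 ^ m →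
      ∃ r', Tail m r' ∧ Path E p r' q ∧ r'.length ≤ 3 * 2 ^ m + n := by
    rintro y z rfl h1 h2
    obtain ⟨p', h3, h4⟩ := path_append_iff.1 hp
    obtain ⟨z', h5, h6⟩ := path_short h4
    refine ⟨y ++ z', Or.inr ⟨y, z', h1, rfl⟩, path_append h3 h5, ?_⟩
    simp only [Fintype.card_fin] at h6
    simp only [List.length_append]
    omega
  rcases h with h | ⟨y, z, h, rfl⟩
  · rcases h.short_or_deep m with h1 | ⟨y, z, h1, h2, h3⟩
    · exact ⟨r, Or.inl h, hp, by omega⟩
    · exact key y z h1 h2 h3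
  · obtain ⟨y', z', rfl, h2, h3⟩ := h.short m
    exact key y' (z' ++ z) (by simp) h2 h3

/-- The depth counter with leaves only at depth `m`. -/
def Ed (m : ℕ) (d : ℕ) (a : σ ⊕ Br) (d' : ℕ) : Prop :=
  d' ≤ m ∧ ((a = inr Br.op ∧ d' = d + 1) ∨ (a = inr Br.cl ∧ d = d' + 1) ∨
    (a = inr Br.leaf ∧ d = m ∧ d' = m))

theorem exists_full (m : ℕ) : ∀ k d, d + k = m → ∃ t : List (σ ⊕ Br), Tr t ∧ Path (Ed m) d t d := by
  intro k
  induction k with
  | zero =>
    rintro d rfl
    exact ⟨_, Tr.leaf, Path.cons ⟨le_rfl, Or.inr (Or.inr ⟨rfl, rfl, rfl⟩)⟩ (Path.nil _)⟩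
  | succ k ih =>
    intro d hd
    obtain ⟨t, h1, h2⟩ := ih (d + 1) (by omega)
    exact ⟨_, Tr.node h1 h1, Path.cons ⟨by omega, Or.inl ⟨rfl, rfl⟩⟩ (path_append h2
      (path_append h2 (Path.cons ⟨by omega, Or.inr (Or.inl ⟨rfl, rfl⟩)⟩ (Path.nil _))))⟩

theorem Tr.long {m : ℕ} {t : List (σ ⊕ Br)} (h : Tr t) : ∀ {d e : ℕ} {z : List (σ ⊕ Br)},
    Path (Ed m) d (t ++ z) e → 2 ^ (m - d) ≤ t.length ∧ Path (Ed m) d z e := by
  induction h with
  | leaf =>
    intro d e z hp
    obtain ⟨d', ⟨-, h1⟩, h2⟩ := path_cons_iff.1 hp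
    simp only [inr.injEq, reduceCtorEq, false_and, true_and, false_or] at h1
    obtain ⟨rfl, rfl⟩ := h1
    exact ⟨by simp, h2⟩
  | @node s t _ _ ih1 ih2 =>
    intro d e z hp
    rw [List.cons_append, List.append_assoc, List.append_assoc] at hp
    obtain ⟨d', ⟨h0, h1⟩, h2⟩ := path_cons_iff.1 hp
    simp only [inr.injEq, reduceCtorEq, false_and, true_and, or_false] at h1
    subst h1
    obtain ⟨h3, h4⟩ := ih1 h2
    obtain ⟨h5, h6⟩ := ih2 h4
    obtain ⟨d', ⟨-, h7⟩, h8⟩ := path_cons_iff.1 h6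
    simp only [inr.injEq, reduceCtorEq, false_and, true_and, or_false, false_or,
      Nat.add_right_cancel_iff] at h7
    subst h7
    refine ⟨?_, h8⟩
    rw [show m - d = m - (d + 1) + 1 by omega, pow_succ]
    simp only [List.length_cons, List.length_append]
    omega

theorem Deep.depth {m k : ℕ} {y : List (σ ⊕ Br)} (h : Deep k y) :
    ∀ {d e : ℕ} {z : List (σ ⊕ Br)}, d ≤ m → Path (Ed m) d (y ++ z) e → d + k ≤ m := by
  induction h with
  | zero => intro d e z h _; exact h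
  | @step k s y h1 _ ih =>
    intro d e z _ hp
    rw [List.cons_append, List.append_assoc] at hp
    obtain ⟨d', ⟨h0, h2⟩, h3⟩ := path_cons_iff.1 hp
    simp only [inr.injEq, reduceCtorEq, false_and, true_and, or_false] at h2
    subst h2
    rcases h1 with rfl | h1
    · have := ih h0 h3
      omega
    · have := ih h0 (h1.long h3).2
      omega

theorem Tail.long {m e : ℕ} {r : List (σ ⊕ Br)} (h : Tail m r) (hp : Path (Ed m) 0 r e) :
    2 ^ m ≤ r.length := by
  rcases h with h | ⟨y, z, h, rfl⟩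
  · exact (h.long (z := []) (by simpa using hp)).1
  · have := h.depth (Nat.zero_le m) hp
    omega

theorem map_inl_pre {b : Br} : ∀ {e u : List σ} {z w : List (σ ⊕ Br)},
    e.map inl ++ z = u.map inl ++ inr b :: w → e <+: u := by
  intro e
  induction e with
  | nil => intro u z w _; exact List.nil_prefix
  | cons a e ih =>
    intro u z w h
    cases u with
    | nil => simp at h
    | cons c u =>
      simp only [List.map_cons, List.cons_append, List.cons.injEq, inl.injEq] at h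
      exact List.cons_prefix_cons.2 ⟨h.1, ih h.2⟩

theorem map_inl_inj {b b' : Br} {u u' : List σ} {w w' : List (σ ⊕ Br)}
    (h : u'.map inl ++ inr b' :: w' = u.map inl ++ inr b :: w) : u' = u ∧ w' = w := by
  obtain rfl : u' = u := (map_inl_pre h).eq_of_length
    (le_antisymm (map_inl_pre h).length_le (map_inl_pre h.symm).length_le)
  exact ⟨rfl, (List.cons.inj (List.append_cancel_left h)).2⟩

theorem isGS_prd {Δ : Type} (G : GSys Δ) (γ₀ : List G.Γ) : IsGS (Prd G.Lang γ₀) := by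
  have := G.fin
  let Lang' : Option G.Γ → Set (List Δ) := fun B => match B with
    | none => Prd G.Lang γ₀
    | some A => G.Lang A
  have e : ∀ γ : List G.Γ, Prd Lang' (γ.map some) = Prd G.Lang γ := fun γ => prd_map _ γ
  refine ⟨⟨Option G.Γ, inferInstance, Lang', γ₀.length + G.m, ?_⟩, none, rfl⟩
  rintro (_ | A) a w hw
  · obtain ⟨γ, h1, h2, h3⟩ := G.step_prd γ₀ a w hw
    exact ⟨γ.map some, by simpa using h1, by rwa [e], by rwa [e]⟩
  · obtain ⟨γ, h1, h2, h3⟩ := G.step A a w hw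
    exact ⟨γ.map some, by simp; omega, by rwa [e], by rwa [e]⟩

/-- Symbols of the tree system. -/
inductive Sy : Type
  | F | E | O | T | T0 | C | All
  deriving DecidableEq, Fintype

/-- Languages of the tree system. -/
def syLang (mk : σ → Bool) : Sy → Set (List (σ ⊕ Br))
  | Sy.F => {w | ∃ (u : List σ) (t : List (σ ⊕ Br)), Tr t ∧ w = u.map inl ++ inr Br.hash :: t}
  | Sy.E => {w | ∃ (u : List σ) (y : List (σ ⊕ Br)), Deep (u.countP mk + 1) y ∧
      w = u.map inl ++ inr Br.hash :: y}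
  | Sy.O => {w | ∃ s, (s = [] ∨ Tr s) ∧ w = inr Br.op :: s}
  | Sy.T => {w | Tr w}
  | Sy.T0 => {w | w = [] ∨ Tr w}
  | Sy.C => {w | w = [inr Br.cl]}
  | Sy.All => Set.univ

theorem syLang_step (mk : σ → Bool) (A : Sy) (a : σ ⊕ Br) (w : List (σ ⊕ Br))
    (hw : a :: w ∈ syLang mk A) : ∃ γ : List Sy, γ.length ≤ 3 ∧ w ∈ Prd (syLang mk) γ ∧
      ∀ w' ∈ Prd (syLang mk) γ, a :: w' ∈ syLang mk A := by
  have hT : Tr (a :: w) → ∃ γ : List Sy, γ.length ≤ 3 ∧ w ∈ Prd (syLang mk) γ ∧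
      ∀ w' ∈ Prd (syLang mk) γ, Tr (a :: w') := by
    intro h
    generalize hv : a :: w = v at h
    cases h with
    | leaf =>
      obtain ⟨rfl, rfl⟩ := List.cons.inj hv
      exact ⟨[], by simp, rfl, by rintro _ rfl; exact Tr.leaf⟩
    | @node s t h1 h2 =>
      obtain ⟨rfl, rfl⟩ := List.cons.inj hv
      refine ⟨[Sy.T, Sy.T, Sy.C], by simp, ⟨s, _, h1, ⟨t, _, h2, mem_prd_single.2 rfl, rfl⟩, rfl⟩,
        ?_⟩
      rintro _ ⟨s', _, h3, ⟨t', c, h4, h5, rfl⟩, rfl⟩
      obtain rfl : c = [inr Br.cl] := (mem_prd_single (Lang := syLang mk)).1 h5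
      exact Tr.node h3 h4
  cases A with
  | F =>
    obtain ⟨_ | ⟨c, u⟩, t, h1, h2⟩ := hw
    · obtain ⟨rfl, rfl⟩ := List.cons.inj h2
      exact ⟨[Sy.T], by simp, mem_prd_single.2 h1,
        fun w' h => ⟨[], w', mem_prd_single.1 h, rfl⟩⟩
    · obtain ⟨rfl, rfl⟩ := List.cons.inj h2
      refine ⟨[Sy.F], by simp, mem_prd_single.2 ⟨u, t, h1, rfl⟩, fun w' h => ?_⟩
      obtain ⟨u', t', h3, rfl⟩ := mem_prd_single.1 h
      exact ⟨c :: u', t', h3, rfl⟩
  | E =>
    obtain ⟨_ | ⟨c, u⟩, y, h1, h2⟩ := hw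
    · obtain ⟨rfl, rfl⟩ := List.cons.inj h2
      obtain ⟨y', s, h3, h4, rfl⟩ := h1.unsnoc
      cases h3
      refine ⟨[Sy.O], by simp, mem_prd_single.2 ⟨s, h4, rfl⟩, fun w' h => ?_⟩
      obtain ⟨s', h5, rfl⟩ := mem_prd_single.1 h
      exact ⟨[], _, Deep.zero.snoc h5, rfl⟩
    · obtain ⟨rfl, rfl⟩ := List.cons.inj h2
      by_cases hc : mk c = true
      · rw [List.countP_cons_of_pos hc] at h1
        obtain ⟨y', s, h3, h4, rfl⟩ := h1.unsnoc
        refine ⟨[Sy.E, Sy.O], by simp, ⟨_, _, ⟨u, y', h3, rfl⟩, mem_prd_single.2 ⟨s, h4, rfl⟩,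
          by simp⟩, ?_⟩
        rintro _ ⟨_, o, ⟨u', y'', h5, rfl⟩, h6, rfl⟩
        obtain ⟨s', h7, rfl⟩ := mem_prd_single.1 h6
        exact ⟨c :: u', _, by rw [List.countP_cons_of_pos hc]; exact h5.snoc h7, by simp⟩
      · rw [List.countP_cons_of_neg hc] at h1
        refine ⟨[Sy.E], by simp, mem_prd_single.2 ⟨u, y, h1, rfl⟩, fun w' h => ?_⟩
        obtain ⟨u', y', h3, rfl⟩ := mem_prd_single.1 h
        exact ⟨c :: u', y', by rwa [List.countP_cons_of_neg hc], rfl⟩
  | O =>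
    obtain ⟨s, h1, h2⟩ := hw
    obtain ⟨rfl, rfl⟩ := List.cons.inj h2
    exact ⟨[Sy.T0], by simp, mem_prd_single.2 h1, fun w' h => ⟨w', mem_prd_single.1 h, rfl⟩⟩
  | T => exact hT hw
  | T0 =>
    obtain ⟨γ, h1, h2, h3⟩ := hT (Or.resolve_left hw (by simp))
    exact ⟨γ, h1, h2, fun w' h => Or.inr (h3 w' h)⟩
  | C =>
    obtain ⟨rfl, rfl⟩ := List.cons.inj hw
    exact ⟨[], by simp, rfl, by rintro _ rfl; rfl⟩
  | All => exact ⟨[Sy.All], by simp, mem_prd_single.2 trivial, fun _ _ => trivial⟩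

theorem isGS_tail (mk : σ → Bool) : IsGS {w : List (σ ⊕ Br) | ∃ (u : List σ) (r : List (σ ⊕ Br)),
    Tail (u.countP mk) r ∧ w = u.map inl ++ inr Br.hash :: r} := by
  let G : GSys (σ ⊕ Br) := ⟨Sy, inferInstance, syLang mk, 3, syLang_step mk⟩
  convert isGS_union (isGS_prd G [Sy.F]) (isGS_prd G [Sy.E, Sy.All]) using 1
  ext w
  constructor
  · rintro ⟨u, r, h | ⟨y, z, h, rfl⟩, rfl⟩
    · exact Or.inl (mem_prd_single.2 ⟨u, r, h, rfl⟩)
    · exact Or.inr ⟨_, z, ⟨u, y, h, rfl⟩, mem_prd_single.2 trivial, by simp⟩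
  · rintro (h | ⟨_, z, ⟨u, y, h, rfl⟩, -, rfl⟩)
    · obtain ⟨u, t, h1, rfl⟩ := mem_prd_single.1 h
      exact ⟨u, t, Or.inl h1, rfl⟩
    · exact ⟨u, _, Or.inr ⟨y, z, h, rfl⟩, by simp⟩

theorem le_index' {X Q : Type} [Finite X] {L : Language X} (E : Q → X → Q → Prop) (U : Finset Q)
    (hU : ∀ p a q, E p a q → q ∈ U) {s t : Q} (hs : s ∈ U) {n m : ℕ}
    (hn : U.card ≤ n) (hex : ∃ w ∈ L, Path E s w t)
    (hm : ∀ w ∈ L, Path E s w t → m ≤ w.length) : m ≤ index L n := by
  obtain ⟨w, hw, hp⟩ := hex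
  obtain ⟨t', rfl, h⟩ := path_of_state (E := fun (p : U) a (q : U) => E p.1 a q.1) (E' := E)
    Subtype.val (fun p a q h => ⟨⟨q, hU _ _ _ h⟩, rfl, h⟩) (s := ⟨s, hs⟩) hp
  exact le_index _ ⟨s, hs⟩ t' (by simpa using hn) ⟨w, hw, h⟩ fun v hv hp' =>
    hm v hv (path_map_state Subtype.val (fun _ _ _ h => h) hp')

theorem core [Finite σ] (valid : List σ → Prop) (mk : σ → Bool) (A : Set (List σ))
    (hA : Good (Ext (inl : σ → σ ⊕ Br) A)) (hpre : ∀ u v, u <+: v → valid v → valid u)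
    (sound : ∀ e ∈ A, ¬ valid e) (complete : ∀ u, ¬ valid u → ∃ e ∈ A, e <+: u)
    (aper : ∀ u v, v ≠ [] → ∃ k, ¬ valid (u ++ (List.replicate k v).flatten)) :
    ∃ (L : Language (σ ⊕ Br)) (c : ℕ), L.IsContextFree ∧
      (∀ u n, valid u → 2 * u.length + 2 ≤ n → 2 ^ u.countP mk ≤ index L n) ∧
      ∀ n h, (∀ u, valid u → u.length ≤ n → u.countP mk ≤ h) →
        index L n ≤ c * (n + 1) ^ 2 + 3 * 2 ^ h := by
  classical
  obtain ⟨hG, c, hc⟩ := hA
  refine ⟨_, c + 2, (isGS_union hG (isGS_tail mk)).isContextFree, ?_, ?_⟩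
  · intro u n hu hn
    set m := u.countP mk with hm
    let E : List σ ⊕ ℕ → σ ⊕ Br → List σ ⊕ ℕ → Prop := fun x a y => match x, y with
      | inl v, inl v' => v' <:+ u ∧ ∃ d, a = inl d ∧ v = d :: v'
      | inl v, inr d => v = [] ∧ a = inr Br.hash ∧ d = 0
      | inr _, inl _ => False
      | inr d, inr d' => Ed m d a d'
    have k1 : ∀ (w : List (σ ⊕ Br)) (v : List σ), Path E (inl v) w (inr 0) →
        ∃ r, w = v.map inl ++ inr Br.hash :: r ∧ Path (Ed m) 0 r 0 := by
      intro w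
      induction w with
      | nil => intro v hp; cases path_nil_iff.1 hp
      | cons a w ih =>
        intro v hp
        obtain ⟨v' | d, h1, h2⟩ := path_cons_iff.1 hp
        · obtain ⟨-, d, rfl, rfl⟩ := h1
          obtain ⟨r, rfl, h3⟩ := ih _ h2
          exact ⟨r, rfl, h3⟩
        · obtain ⟨rfl, rfl, rfl⟩ := h1
          obtain ⟨t', h3, h4⟩ := path_of_state (E := Ed m) inr (by
            rintro x a (U | y') h
            · exact h.elim
            · exact ⟨y', rfl, h⟩) h2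
          cases h3
          exact ⟨w, rfl, h4⟩
    have k2 : ∀ (r : List (σ ⊕ Br)) (v : List σ), v <:+ u → Path (Ed m) 0 r 0 →
        Path E (inl v) (v.map inl ++ inr Br.hash :: r) (inr 0) := by
      intro r v hv hp
      induction v with
      | nil => exact Path.cons (s' := inr 0) ⟨rfl, rfl, rfl⟩ (path_map_state inr (fun _ _ _ h => h) hp)
      | cons d v ih =>
        have hv' := (List.suffix_cons d v).trans hv
        exact Path.cons (s' := inl v) ⟨hv', d, rfl, rfl⟩ (ih hv')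
    refine le_index' E (u.tails.toFinset.disjSum (Finset.range (m + 1))) ?_ (s := inl u)
      (t := inr 0) (by simp) ?_ ?_ ?_
    · rintro (v | d) a (v' | d') h
      · simpa using h.1
      · simp [h.2.2]
      · exact h.elim
      · simpa [Nat.lt_succ_iff] using h.1
    · have e1 := List.toFinset_card_le u.tails
      have e2 : m ≤ u.length := List.countP_le_length
      simp only [Finset.card_disjSum, Finset.card_range, List.length_tails] at e1 ⊢
      omega
    · obtain ⟨t, h1, h2⟩ := exists_full (σ := σ) m m 0 (by omega)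
      exact ⟨_, Or.inr ⟨u, t, Or.inl h1, rfl⟩, k2 t u List.suffix_rfl h2⟩
    · intro w hw hp
      obtain ⟨r, rfl, h1⟩ := k1 w u hp
      rcases hw with ⟨e, he, z, h2⟩ | ⟨u', r', h2, h3⟩
      · exact (sound e he (hpre _ _ (map_inl_pre h2.symm) hu)).elim
      · obtain ⟨rfl, rfl⟩ := map_inl_inj h3
        exact (h2.long h1).trans (by simp only [List.length_append, List.length_cons]; omega)
  · intro n h hh
    refine index_le fun E s t w hw hp => ?_
    have hE : ∀ w, w ∈ Ext (inl : σ → σ ⊕ Br) A → Path E s w t → ∃ w' ∈ Ext inl A ∪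
        {w : List (σ ⊕ Br) | ∃ (u : List σ) (r : List (σ ⊕ Br)),
          Tail (u.countP mk) r ∧ w = u.map inl ++ inr Br.hash :: r},
        Path E s w' t ∧ w'.length ≤ (c + 2) * (n + 1) ^ 2 + 3 * 2 ^ h := by
      intro w hw hp
      obtain ⟨w', h1, h2, h3⟩ := hc n E s t w hw hp
      exact ⟨w', Or.inl h1, h2, by nlinarith [Nat.zero_le ((n + 1) ^ 2), Nat.zero_le (2 ^ h)]⟩
    have hI : ∀ (u : List σ) (z : List (σ ⊕ Br)), ¬ valid u →
        u.map inl ++ z ∈ Ext (inl : σ → σ ⊕ Br) A := by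
      intro u z hu
      obtain ⟨e, he, v, rfl⟩ := complete u hu
      exact ⟨e, he, v.map inl ++ z, by simp⟩
    rcases hw with hw | ⟨u, r, h1, rfl⟩
    · exact hE w hw hp
    by_cases hu : valid u
    swap
    · exact hE _ (hI u _ hu) hp
    obtain ⟨p, h2, h3⟩ := path_append_iff.1 hp
    by_cases hl : n ≤ u.length
    · obtain ⟨l₁, v, l₂, q, h4, h5, -, h6, h7, h8⟩ := path_cycle h2 (by simpa using hl)
      obtain ⟨u₁, u₂, rfl, h9, rfl⟩ := List.map_eq_append_iff.1 h4
      obtain ⟨u₁, v', rfl, rfl, rfl⟩ := List.map_eq_append_iff.1 h9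
      obtain ⟨k, hk⟩ := aper u₁ v' (by simpa using h5)
      refine hE _ (hI _ (u₂.map inl ++ inr Br.hash :: r) hk) ?_
      rw [List.map_append, List.map_flatten, List.map_replicate]
      exact path_append (path_append h6 (path_pow h7 k)) (path_append h8 h3)
    · obtain ⟨p', h4, h5⟩ := path_cons_iff.1 h3
      obtain ⟨r', h6, h7, h8⟩ := h1.short h5
      refine ⟨_, Or.inr ⟨u, r', h6, rfl⟩, path_append h2 (Path.cons h4 h7), ?_⟩
      have e1 : 2 ^ u.countP mk ≤ 2 ^ h := Nat.pow_le_pow_right (by norm_num) (hh u hu (by omega))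
      simp only [List.length_append, List.length_map, List.length_cons]
      nlinarith [Nat.zero_le (c * (n + 1) ^ 2), Nat.zero_le (n ^ 2)]

end

end Pool.Agent.Lib.MP_275d83_lc
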