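import Pool.Agent.Lib.MP_275d83_lc.Basic

/-! Weighted automata: the words with a run of positive weight form a context-free language of
quadratic rational index. -/

namespace Pool.Agent.Lib.MP_275d83_lc

open Pool.Agent.Lib.MP_a569f2_lc

theorem isGS_map {Δ Δ' : Type} {K : Set (List Δ)} (hK : IsGS K) (π : Δ → Δ') :
    IsGS {w | ∃ v ∈ K, w = v.map π} := by
  obtain ⟨G, A₀, rfl⟩ := hK
  let Lang' : G.Γ → Set (List Δ') := fun A => {w | ∃ v ∈ G.Lang A, w = v.map π}
  have key : ∀ (γ : List G.Γ) (w : List Δ'),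
      w ∈ Prd Lang' γ ↔ ∃ v ∈ Prd G.Lang γ, w = v.map π := by
    intro γ
    induction γ with
    | nil => intro w; simp
    | cons A γ ih =>
      intro w
      constructor
      · rintro ⟨_, v, ⟨u, hu, rfl⟩, hv, rfl⟩
        obtain ⟨v', hv', rfl⟩ := (ih v).1 hv
        exact ⟨u ++ v', ⟨u, v', hu, hv', rfl⟩, by simp⟩
      · rintro ⟨_, ⟨u, v, hu, hv, rfl⟩, rfl⟩
        exact ⟨u.map π, v.map π, ⟨u, hu, rfl⟩, (ih _).2 ⟨v, hv, rfl⟩, by simp⟩
  refine ⟨⟨G.Γ, G.fin, Lang', G.m, ?_⟩, A₀, rfl⟩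
  rintro A a w ⟨v, hv, h⟩
  cases v with
  | nil => simp at h
  | cons a' v =>
    simp only [List.map_cons, List.cons.injEq] at h
    obtain ⟨rfl, rfl⟩ := h
    obtain ⟨γ, h1, h2, h3⟩ := G.step A a' v hv
    refine ⟨γ, h1, (key _ _).2 ⟨v, h2, rfl⟩, fun w' hw' => ?_⟩
    obtain ⟨v', hv', rfl⟩ := (key _ _).1 hw'
    exact ⟨a' :: v', h3 v' hv', rfl⟩

theorem isGS_union {Δ : Type} {K₁ K₂ : Set (List Δ)} (h₁ : IsGS K₁) (h₂ : IsGS K₂) :
    IsGS (K₁ ∪ K₂) := by
  obtain ⟨G₁, A₁, rfl⟩ := h₁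
  obtain ⟨G₂, A₂, rfl⟩ := h₂
  have := G₁.fin
  have := G₂.fin
  let Lang' : Option (G₁.Γ ⊕ G₂.Γ) → Set (List Δ) := fun B => match B with
    | none => G₁.Lang A₁ ∪ G₂.Lang A₂
    | some (Sum.inl A) => G₁.Lang A
    | some (Sum.inr A) => G₂.Lang A
  have e₁ : ∀ γ : List G₁.Γ, Prd Lang' (γ.map fun A => some (Sum.inl A)) = Prd G₁.Lang γ :=
    fun γ => prd_map _ γ
  have e₂ : ∀ γ : List G₂.Γ, Prd Lang' (γ.map fun A => some (Sum.inr A)) = Prd G₂.Lang γ :=
    fun γ => prd_map _ γ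
  have s₁ : ∀ A a w, a :: w ∈ G₁.Lang A → ∃ γ : List (Option (G₁.Γ ⊕ G₂.Γ)),
      γ.length ≤ G₁.m + G₂.m ∧ w ∈ Prd Lang' γ ∧ ∀ w' ∈ Prd Lang' γ, a :: w' ∈ G₁.Lang A := by
    intro A a w hw
    obtain ⟨γ, h1, h2, h3⟩ := G₁.step A a w hw
    exact ⟨γ.map fun A => some (Sum.inl A), by simp; omega, by rwa [e₁], by rwa [e₁]⟩
  have s₂ : ∀ A a w, a :: w ∈ G₂.Lang A → ∃ γ : List (Option (G₁.Γ ⊕ G₂.Γ)),
      γ.length ≤ G₁.m + G₂.m ∧ w ∈ Prd Lang' γ ∧ ∀ w' ∈ Prd Lang' γ, a :: w' ∈ G₂.Lang A := by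
    intro A a w hw
    obtain ⟨γ, h1, h2, h3⟩ := G₂.step A a w hw
    exact ⟨γ.map fun A => some (Sum.inr A), by simp; omega, by rwa [e₂], by rwa [e₂]⟩
  refine ⟨⟨Option (G₁.Γ ⊕ G₂.Γ), inferInstance, Lang', G₁.m + G₂.m, ?_⟩, none, rfl⟩
  rintro (_ | A | A) a w hw
  · rcases hw with hw | hw
    · obtain ⟨γ, h1, h2, h3⟩ := s₁ _ a w hw
      exact ⟨γ, h1, h2, fun w' hw' => Or.inl (h3 w' hw')⟩
    · obtain ⟨γ, h1, h2, h3⟩ := s₂ _ a w hw
      exact ⟨γ, h1, h2, fun w' hw' => Or.inr (h3 w' hw')⟩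
  · exact s₁ A a w hw
  · exact s₂ A a w hw

theorem isGS_empty {Δ : Type} : IsGS (∅ : Set (List Δ)) :=
  ⟨⟨Unit, inferInstance, fun _ => ∅, 0, fun _ _ _ h => h.elim⟩, (), rfl⟩

/-- Number of `true` minus number of `false`. -/
def bal (w : List Bool) : ℤ := (w.map fun b => if b then (1 : ℤ) else -1).sum

theorem bal_append (u v : List Bool) : bal (u ++ v) = bal u + bal v := by simp [bal]

theorem bal_cons (a : Bool) (w : List Bool) :
    bal (a :: w) = (if a then (1 : ℤ) else -1) + bal w := by simp [bal]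

theorem bal_split (w : List Bool) : ∀ k : ℤ, (0 ≤ k ∧ k ≤ bal w ∨ bal w ≤ k ∧ k ≤ 0) →
    ∃ u v, w = u ++ v ∧ bal u = k := by
  induction w with
  | nil => intro k hk; exact ⟨[], [], rfl, by simp only [bal] at hk ⊢; simp at hk ⊢; omega⟩
  | cons a w ih =>
    intro k hk
    by_cases h0 : k = 0
    · exact ⟨[], _, rfl, by simp [bal, h0]⟩
    · rw [bal_cons] at hk
      obtain ⟨u, v, rfl, h⟩ := ih (k - if a then (1 : ℤ) else -1) (by split_ifs at hk ⊢ <;> omega)
      exact ⟨a :: u, v, rfl, by rw [bal_cons, h]; ring⟩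

theorem isGS_pos : IsGS {w : List Bool | 0 < bal w} := by
  let Lang : ℤ × Bool → Set (List Bool) := fun p => {w | if p.2 then p.1 ≤ bal w else bal w = p.1}
  let U : Set (ℤ × Bool) := {p | -1 ≤ p.1 ∧ p.1 ≤ 1}
  have hU : U.Finite := ((Set.finite_Icc (-1 : ℤ) 1).prod Set.finite_univ).subset
    fun p hp => ⟨hp, trivial⟩
  have two : ∀ (p q : ℤ × Bool) (w : List Bool), w ∈ Prd Lang [p, q] ↔
      ∃ u v, u ∈ Lang p ∧ v ∈ Lang q ∧ w = u ++ v := by
    intro p q w
    simp only [mem_prd_cons (A := p), mem_prd_single]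
  have hE : ∀ (k : ℤ) (w : List Bool), -2 ≤ k → k ≤ 2 → bal w = k →
      ∃ γ : List (ℤ × Bool), (∀ B ∈ γ, B ∈ U) ∧ γ.length ≤ 2 ∧ w ∈ Prd Lang γ ∧
        ∀ w' ∈ Prd Lang γ, bal w' = k := by
    intro k w h1 h2 h3
    obtain ⟨u, v, rfl, h4⟩ := bal_split w (k / 2) (by omega)
    rw [bal_append] at h3
    refine ⟨[(k / 2, false), (k - k / 2, false)], ?_, by simp, (two _ _ _).2
      ⟨u, v, by simp [Lang, h4], by simp [Lang]; omega, rfl⟩, ?_⟩
    · simp only [List.mem_cons, List.not_mem_nil, or_false]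
      rintro B (rfl | rfl) <;> simp only [U, Set.mem_ofPred_eq] <;> omega
    · intro w' hw'
      obtain ⟨u', v', h5, h6, rfl⟩ := (two _ _ _).1 hw'
      simp only [Lang, Set.mem_ofPred_eq, Bool.false_eq_true, if_false] at h5 h6
      rw [bal_append]
      omega
  have hG : ∀ (k : ℤ) (w : List Bool), -2 ≤ k → k ≤ 2 → k ≤ bal w →
      ∃ γ : List (ℤ × Bool), (∀ B ∈ γ, B ∈ U) ∧ γ.length ≤ 2 ∧ w ∈ Prd Lang γ ∧
        ∀ w' ∈ Prd Lang γ, k ≤ bal w' := by
    intro k w h1 h2 h3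
    by_cases h : bal w ≤ 2
    · obtain ⟨γ, e1, e2, e3, e4⟩ := hE (bal w) w (by omega) h rfl
      exact ⟨γ, e1, e2, e3, fun w' hw' => by rw [e4 w' hw']; exact h3⟩
    · obtain ⟨u, v, rfl, h4⟩ := bal_split w 1 (by omega)
      rw [bal_append] at h
      refine ⟨[(1, false), (1, true)], ?_, by simp, (two _ _ _).2
        ⟨u, v, by simp [Lang, h4], by simp [Lang]; omega, rfl⟩, ?_⟩
      · simp only [List.mem_cons, List.not_mem_nil, or_false]
        rintro B (rfl | rfl) <;> simp only [U, Set.mem_ofPred_eq] <;> omega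
      · intro w' hw'
        obtain ⟨u', v', h5, h6, rfl⟩ := (two _ _ _).1 hw'
        simp only [Lang, Set.mem_ofPred_eq, Bool.false_eq_true, if_false, if_true] at h5 h6
        rw [bal_append]
        omega
  have := isGS_of_finite_set U hU Lang 2 ?_ (1, true) (by simp [U])
  · exact this
  rintro ⟨k, b⟩ ⟨h1, h2⟩ a w hw
  simp only at h1 h2
  cases b with
  | false =>
    simp only [Lang, Set.mem_ofPred_eq, Bool.false_eq_true, if_false, bal_cons] at hw ⊢
    obtain ⟨γ, e1, e2, e3, e4⟩ := hE (bal w) w (by split_ifs at hw <;> omega)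
      (by split_ifs at hw <;> omega) rfl
    exact ⟨γ, e1, e2, e3, fun w' hw' => by rw [e4 w' hw']; exact hw⟩
  | true =>
    simp only [Lang, Set.mem_ofPred_eq, if_true, bal_cons] at hw ⊢
    obtain ⟨γ, e1, e2, e3, e4⟩ := hG (k - if a then (1 : ℤ) else -1) w
      (by split_ifs <;> omega) (by split_ifs <;> omega) (by omega)
    exact ⟨γ, e1, e2, e3, fun w' hw' => by have := e4 w' hw'; omega⟩

/-- Context-free with quadratic rational index. -/
def Good {Δ : Type} (K : Set (List Δ)) : Prop :=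
  IsGS K ∧ ∃ c : ℕ, ∀ (n : ℕ) (E : Fin n → Δ → Fin n → Prop) (s t : Fin n) (w : List Δ),
    w ∈ K → Path E s w t → ∃ w' ∈ K, Path E s w' t ∧ w'.length ≤ c * (n + 1) ^ 2

theorem good_empty {Δ : Type} : Good (∅ : Set (List Δ)) :=
  ⟨isGS_empty, 0, fun _ _ _ _ _ h => h.elim⟩

theorem Good.union {Δ : Type} {K₁ K₂ : Set (List Δ)} (h₁ : Good K₁) (h₂ : Good K₂) :
    Good (K₁ ∪ K₂) := by
  obtain ⟨g₁, c₁, h₁⟩ := h₁
  obtain ⟨g₂, c₂, h₂⟩ := h₂
  refine ⟨isGS_union g₁ g₂, c₁ + c₂, ?_⟩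
  rintro n E s t w (hw | hw) hp
  · obtain ⟨w', e1, e2, e3⟩ := h₁ n E s t w hw hp
    exact ⟨w', Or.inl e1, e2, e3.trans (Nat.mul_le_mul_right _ (by omega))⟩
  · obtain ⟨w', e1, e2, e3⟩ := h₂ n E s t w hw hp
    exact ⟨w', Or.inr e1, e2, e3.trans (Nat.mul_le_mul_right _ (by omega))⟩

theorem good_biUnion {Δ ι : Type} {I : Set ι} (hI : I.Finite) {K : ι → Set (List Δ)}
    (h : ∀ i ∈ I, Good (K i)) : Good (⋃ i ∈ I, K i) := by
  induction I, hI using Set.Finite.induction_on with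
  | empty => simpa using good_empty
  | @insert i I _ _ ih =>
    rw [Set.biUnion_insert]
    exact (h i (by simp)).union (ih fun j hj => h j (by simp [hj]))

section weights
variable {S Δ : Type} {E : S → Δ × ℤ → S → Prop} {W : ℕ}

theorem abs_weight_le (hW : ∀ x a y, E x a y → |a.2| ≤ W) {s t : S} {l : List (Δ × ℤ)}
    (hp : Path E s l t) : |(l.map Prod.snd).sum| ≤ W * l.length := by
  induction hp with
  | nil s => simp
  | @cons s s' t a w h1 _ ih =>
    have := hW _ _ _ h1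
    simp only [List.map_cons, List.sum_cons, List.length_cons, Nat.cast_add, Nat.cast_one]
    exact (abs_add_le _ _).trans (by linarith)

theorem weight_pow (c : List (Δ × ℤ)) (k : ℕ) :
    (((List.replicate k c).flatten).map Prod.snd).sum = k * (c.map Prod.snd).sum := by
  induction k with
  | zero => simp
  | succ k ih => simp only [List.replicate_succ, List.flatten_cons, List.map_append,
      List.sum_append, ih]; push_cast; ring

theorem path_pos_short [Fintype S] (hW : ∀ x a y, E x a y → |a.2| ≤ W) {s t : S}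
    {l : List (Δ × ℤ)} (hp : Path E s l t) (hpos : 0 < (l.map Prod.snd).sum) :
    ∃ l', Path E s l' t ∧ 0 < (l'.map Prod.snd).sum ∧
      l'.length ≤ (2 * Fintype.card S * W + 3) * Fintype.card S := by
  induction hn : l.length using Nat.strong_induction_on generalizing l with
  | _ n ih =>
    by_cases hl : Fintype.card S ≤ l.length
    · obtain ⟨l₁, c, l₂, r, rfl, h1, h2, h3, h4, h5⟩ := path_cycle hp hl
      simp only [List.map_append, List.sum_append] at hpos
      by_cases hc : (c.map Prod.snd).sum ≤ 0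
      · refine ih _ ?_ (path_append h3 h5) (by simp only [List.map_append, List.sum_append]; omega)
          rfl
        have := List.length_pos_of_ne_nil h1
        simp only [List.length_append] at hn ⊢
        omega
      · obtain ⟨l₃, h6, h7⟩ := path_short h5
        set N := Fintype.card S
        simp only [List.length_append] at h2
        refine ⟨l₁ ++ ((List.replicate (2 * N * W + 1) c).flatten ++ l₃),
          path_append h3 (path_append (path_pow h4 _) h6), ?_, ?_⟩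
        · simp only [List.map_append, List.sum_append, weight_pow]
          have e1 := (abs_le.1 (abs_weight_le hW h3)).1
          have e2 := (abs_le.1 (abs_weight_le hW h6)).1
          have e3 : (l₁.length : ℤ) ≤ N := by exact_mod_cast (by omega)
          have e4 : (l₃.length : ℤ) ≤ N := by exact_mod_cast h7
          have e5 : (0 : ℤ) ≤ W := by positivity
          have e6 : (0 : ℤ) ≤ N := by positivity
          have e7 : (1 : ℤ) ≤ (c.map Prod.snd).sum := by omega
          push_cast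
          nlinarith [mul_le_mul_of_nonneg_left e3 e5, mul_le_mul_of_nonneg_left e4 e5,
            mul_le_mul_of_nonneg_left e7 (by positivity : (0 : ℤ) ≤ 2 * N * W + 1)]
        · simp only [List.length_append, List.length_flatten, List.map_replicate,
            List.sum_replicate, smul_eq_mul]
          have e3 : c.length ≤ N := by omega
          nlinarith [Nat.mul_le_mul_left (2 * N * W + 1) e3]
    · exact ⟨l, hp, hpos, (not_le.1 hl).le.trans (Nat.le_mul_of_pos_left _ (by omega))⟩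

end weights

/-- Words `f(e) z` with `e ∈ A`. -/
def Ext {σ Δ : Type} (f : σ → Δ) (A : Set (List σ)) : Set (List Δ) :=
  {w | ∃ e ∈ A, ∃ z, w = e.map f ++ z}

/-- The weighted words `(f(e) z, k)` with `K e k` are those of a finite weighted automaton. -/
def WR {σ Δ : Type} (f : σ → Δ) (K : List σ → ℤ → Prop) : Prop :=
  ∃ (S : Type) (_ : Finite S) (E : S → Δ × ℤ → S → Prop) (s t : S) (W : ℕ),
    (∀ x a y, E x a y → |a.2| ≤ W) ∧ ∀ w k, (∃ e z, K e k ∧ w = e.map f ++ z) ↔
      ∃ l, Path E s l t ∧ l.map Prod.fst = w ∧ (l.map Prod.snd).sum = k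

theorem WR.good {σ Δ : Type} [Finite Δ] {f : σ → Δ} {K : List σ → ℤ → Prop} (h : WR f K) :
    Good (Ext f {e | ∃ k, 0 < k ∧ K e k}) := by
  obtain ⟨S, _, E, s, t, W, hW, h⟩ := h
  have hmem : ∀ w, w ∈ Ext f {e | ∃ k, 0 < k ∧ K e k} ↔
      ∃ l, Path E s l t ∧ l.map Prod.fst = w ∧ 0 < (l.map Prod.snd).sum := by
    intro w
    constructor
    · rintro ⟨e, ⟨k, h1, h2⟩, z, h3⟩
      obtain ⟨l, h4, h5, rfl⟩ := (h w k).1 ⟨e, z, h2, h3⟩
      exact ⟨l, h4, h5, h1⟩
    · rintro ⟨l, h1, h2, h3⟩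
      obtain ⟨e, z, h4, h5⟩ := (h w _).2 ⟨l, h1, h2, rfl⟩
      exact ⟨e, ⟨_, h3, h4⟩, z, h5⟩
  constructor
  · let Δ' := {a : Δ × ℤ // |a.2| ≤ W}
    have : Finite Δ' := Set.Finite.to_subtype
      ((Set.finite_univ.prod (Set.finite_Icc (-(W : ℤ)) W)).subset
        fun a (ha : |a.2| ≤ W) => ⟨trivial, abs_le.1 ha⟩)
    let g : Δ' → List Bool := fun a =>
      List.replicate a.1.2.toNat true ++ List.replicate (-a.1.2).toNat false
    have hg : ∀ l : List Δ', bal (l.flatMap g) = ((l.map Subtype.val).map Prod.snd).sum := by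
      intro l
      induction l with
      | nil => rfl
      | cons a l ih =>
        rw [List.flatMap_cons, bal_append, ih]
        simp only [g, bal, List.map_append, List.map_replicate, List.sum_append,
          List.sum_replicate, List.map_cons, List.sum_cons]
        simp
        omega
    have lift : ∀ {x y : S} {l : List (Δ × ℤ)}, Path E x l y →
        ∃ l' : List Δ', l'.map Subtype.val = l ∧ Path (fun p (a : Δ') q => E p a.1 q) x l' y := by
      intro x y l hp
      induction hp with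
      | nil s => exact ⟨[], rfl, Path.nil _⟩
      | cons h1 _ ih =>
        obtain ⟨l', rfl, h2⟩ := ih
        exact ⟨⟨_, hW _ _ _ h1⟩ :: l', rfl, Path.cons h1 h2⟩
    have := isGS_map ((isGS_pos.comap g).inter_path (fun p (a : Δ') q => E p a.1 q) {s} {t})
      fun a => a.1.1
    convert this using 1
    ext w
    rw [hmem]
    constructor
    · rintro ⟨l, h1, rfl, h3⟩
      obtain ⟨l', rfl, h4⟩ := lift h1
      exact ⟨l', ⟨by simpa only [Set.mem_ofPred_eq, hg] using h3, s, rfl, t, rfl, h4⟩, by simp⟩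
    · rintro ⟨l', ⟨h1, _, rfl, _, rfl, h2⟩, rfl⟩
      refine ⟨l'.map Subtype.val, ?_, by simp, by simpa only [Set.mem_ofPred_eq, hg] using h1⟩
      exact path_map id Subtype.val (fun _ _ _ h => h) h2
  · have := Fintype.ofFinite S
    refine ⟨(2 * Fintype.card S * W + 3) * Fintype.card S, fun n A p q w hw hp => ?_⟩
    obtain ⟨l, h1, rfl, h3⟩ := (hmem w).1 hw
    let E₂ : S × Fin n → Δ × ℤ → S × Fin n → Prop := fun x a y => E x.1 a y.1 ∧ A x.2 a.1 y.2
    have prod : ∀ {l : List (Δ × ℤ)} {x : S} {p : Fin n}, Path E x l t →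
        Path A p (l.map Prod.fst) q → Path E₂ (x, p) l (t, q) := by
      intro l
      induction l with
      | nil =>
        intro x p e1 e2
        rw [path_nil_iff.1 e1, path_nil_iff.1 e2]
        exact Path.nil _
      | cons a l ih =>
        intro x p e1 e2
        obtain ⟨x', e3, e4⟩ := path_cons_iff.1 e1
        obtain ⟨p', e5, e6⟩ := path_cons_iff.1 e2
        exact Path.cons (s' := (x', p')) ⟨e3, e5⟩ (ih e4 e6)
    obtain ⟨l', h4, h5, h6⟩ := path_pos_short (W := W) (fun x a y h => hW _ _ _ h.1)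
      (prod h1 hp) h3
    refine ⟨l'.map Prod.fst, (hmem _).2 ⟨l', path_map_state Prod.fst (fun _ _ _ h => h.1) h4,
      rfl, h5⟩, path_map Prod.snd Prod.fst (fun _ _ _ h => h.2) h4, ?_⟩
    simp only [Fintype.card_prod, Fintype.card_fin] at h6
    rw [List.length_map]
    refine h6.trans ?_
    generalize Fintype.card S = C
    have e1 : 2 * (C * n) * W + 3 ≤ (2 * C * W + 3) * (n + 1) := by nlinarith [Nat.zero_le (C * W)]
    have e2 : C * n ≤ C * (n + 1) := Nat.mul_le_mul_left _ (by omega)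
    calc _ ≤ ((2 * C * W + 3) * (n + 1)) * (C * (n + 1)) := Nat.mul_le_mul e1 e2
      _ = _ := by ring

theorem wr_tail {σ Δ : Type} (f : σ → Δ) : WR f fun e k => e = [] ∧ k = 0 := by
  refine ⟨Unit, inferInstance, fun _ a _ => a.2 = 0, (), (), 0, fun _ a _ h => by simp [h], ?_⟩
  intro w k
  constructor
  · rintro ⟨_, z, ⟨rfl, rfl⟩, -⟩
    refine ⟨w.map fun a => (a, 0), ?_, by simp [Function.comp_def], by simp [Function.comp_def]⟩
    induction w with
    | nil => exact Path.nil _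
    | cons a w ih => exact Path.cons (s' := ()) rfl ih
  · rintro ⟨l, h1, rfl, rfl⟩
    refine ⟨[], _, ⟨rfl, ?_⟩, rfl⟩
    simpa using abs_weight_le (W := 0) (fun _ a _ (h : a.2 = 0) => by simp [h]) h1

theorem WR.seg {σ Δ : Type} [Finite σ] {f : σ → Δ} {K : List σ → ℤ → Prop} (hK : WR f K)
    (P R : Set σ) (wt : σ → ℤ) (c : σ) (β : ℤ) :
    WR f fun e k => ∃ b e' k', K e' k' ∧ (∀ a ∈ b, a ∈ P) ∧ (∀ a ∈ R, a ∈ b) ∧
      e = b ++ c :: e' ∧ k = (b.map wt).sum + β + k' := by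
  obtain ⟨S, _, E, s, t, W, hW, h⟩ := hK
  obtain ⟨M, hM⟩ := (Set.finite_range fun a => (wt a).natAbs).bddAbove
  let E' : Set σ ⊕ S → Δ × ℤ → Set σ ⊕ S → Prop := fun x a y => match x, y with
    | Sum.inl U, Sum.inl U' => ∃ d ∈ P, a = (f d, wt d) ∧ U' = U \ {d}
    | Sum.inl U, Sum.inr y => U = ∅ ∧ a = (f c, β) ∧ y = s
    | Sum.inr _, Sum.inl _ => False
    | Sum.inr x, Sum.inr y => E x a y
  have key : ∀ (l : List (Δ × ℤ)) (U : Set σ), Path E' (Sum.inl U) l (Sum.inr t) ↔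
      ∃ (b : List σ) (l' : List (Δ × ℤ)), l = b.map (fun d => (f d, wt d)) ++ (f c, β) :: l' ∧
        (∀ a ∈ b, a ∈ P) ∧ (∀ a ∈ U, a ∈ b) ∧ Path E s l' t := by
    intro l U
    constructor
    · induction l generalizing U with
      | nil => intro hp; cases path_nil_iff.1 hp
      | cons a l ih =>
        intro hp
        obtain ⟨U' | y, h1, h2⟩ := path_cons_iff.1 hp
        · obtain ⟨d, hd, rfl, rfl⟩ := h1
          obtain ⟨b, l', rfl, h3, h4, h5⟩ := ih _ h2
          refine ⟨d :: b, l', rfl, ?_, ?_, h5⟩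
          · simpa using ⟨hd, h3⟩
          · intro a ha
            by_cases had : a = d
            · simp [had]
            · exact List.mem_cons_of_mem _ (h4 a ⟨ha, had⟩)
        · obtain ⟨rfl, rfl, rfl⟩ := h1
          obtain ⟨t', h3, h4⟩ := path_of_state (E := E) Sum.inr (by
            rintro x a (U | y') h
            · exact h.elim
            · exact ⟨y', rfl, h⟩) h2
          cases h3
          exact ⟨[], l, rfl, by simp, by simp, h4⟩
    · rintro ⟨b, l', rfl, h1, h2, h3⟩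
      induction b generalizing U with
      | nil =>
        refine Path.cons (s' := Sum.inr s) ⟨?_, rfl, rfl⟩
          (path_map_state Sum.inr (fun _ _ _ h => h) h3)
        ext a
        simpa using h2 a
      | cons d b ih =>
        refine Path.cons (s' := Sum.inl (U \ {d})) ⟨d, h1 d (by simp), rfl, rfl⟩
          (ih _ (fun a ha => h1 a (by simp [ha])) ?_)
        rintro a ⟨ha, had⟩
        exact (List.mem_cons.1 (h2 a ha)).resolve_left had
  refine ⟨Set σ ⊕ S, inferInstance, E', Sum.inl R, Sum.inr t, W + M + β.natAbs, ?_, ?_⟩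
  · rintro (U | x) a (U' | y) h
    · obtain ⟨d, -, rfl, -⟩ := h
      have : (wt d).natAbs ≤ M := hM ⟨d, rfl⟩
      simp only [Int.abs_eq_natAbs]
      omega
    · obtain ⟨-, rfl, -⟩ := h
      simp only [Int.abs_eq_natAbs]
      omega
    · exact h.elim
    · have := hW _ _ _ h
      push_cast
      have := abs_nonneg β
      omega
  · intro w k
    simp only [key]
    constructor
    · rintro ⟨_, z, ⟨b, e', k', h1, h2, h3, rfl, rfl⟩, rfl⟩
      obtain ⟨l', h4, h5, h6⟩ := (h _ k').1 ⟨e', z, h1, rfl⟩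
      refine ⟨_, ⟨b, l', rfl, h2, h3, h4⟩, by simp [h5, Function.comp_def], ?_⟩
      simp [h6, Function.comp_def, add_assoc]
    · rintro ⟨_, ⟨b, l', rfl, h2, h3, h4⟩, rfl, rfl⟩
      obtain ⟨e', z, h5, h6⟩ := (h _ _).2 ⟨l', h4, rfl, rfl⟩
      refine ⟨_, z, ⟨b, e', _, h5, h2, h3, rfl, ?_⟩, by simp [h6, Function.comp_def]⟩
      simp [Function.comp_def, add_assoc]

end Pool.Agent.Lib.MP_275d83_lc
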